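import Pool.Agent.Q72.DP.Defs

/-!
# Injectivity of Abel-Jacobi maps: definitions
-/

open CategoryTheory AlgebraicGeometry

universe u v w

namespace Pool.Agent.Q72.DP

open Pool.Agent.H914 Pool.Agent.H914.VarClass Pool.Agent.H914.VarClass.Obj Pool.Agent.W492.BB
  Pool.Agent.TH133 Pool.Agent.TH829.Prime

variable {k : Type u} [Field k] {𝒱 : VarClass k} {C : TheoryData.{u, v, 0} 𝒱 ℚ}
  (N : ∀ X : 𝒱.Obj, ℕ → Submodule ℚ (C.A X))

/-- The properties of the kernels `N X j ⊆ CH^j(X)` of the Abel-Jacobi maps (on the homologically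
trivial classes, for the Weil cohomology theory `H`) which are used: they consist of homologically
trivial classes of codimension `j`, and they are stable under correspondences. -/
structure IsAJKernel {K : Type w} [Field K] (H : WeilTheoryData.{u, v, w} C K)
    (N : ∀ X : 𝒱.Obj, ℕ → Submodule ℚ (C.A X)) : Prop where
  deg : ∀ (X : 𝒱.Obj) (j : ℕ) (z : C.A X), z ∈ N X j → C.Deg j z ∧ H.cl z = 0
  stable : ∀ (X Y : 𝒱.Obj) (j i : ℕ) (Γ : C.A (X.prod Y)), C.Deg (X.dim + i - j) Γ →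
    ∀ z ∈ N X j, C.act Γ z ∈ N Y i

/-- The Abel-Jacobi maps of `X`, with kernels `N X j` in codimension `j`, are injective. -/
def AJInjective (X : 𝒱.Obj) : Prop := ∀ j : ℕ, N X j = ⊥

/-- If a power `G^m` of a divisor on `V` is in the kernel of the Abel-Jacobi map, it is zero. -/
def PowersInjective (V : 𝒱.Obj) : Prop :=
  ∀ (G : C.A V) (m : ℕ), C.Deg 1 G → G ^ m ∈ N V m → G ^ m = 0

/-- The same for the powers in the middle dimension of divisors on the varieties in `Rat`. -/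
def MiddleRational (Rat : 𝒱.Obj → Prop) : Prop :=
  ∀ (V : 𝒱.Obj) (m : ℕ) (G : C.A V), Rat V → V.dim = 2 * m → C.Deg 1 G → G ^ m ∈ N V m → G ^ m = 0

/-- If the Chern classes of a vector bundle on `X` are in the kernels of the Abel-Jacobi maps, they
are zero. -/
def ChernInjective (B : BundleData C) (X : 𝒱.Obj) : Prop :=
  ∀ (e : B.K X) (m : ℕ) (c : ℕ → C.A X), B.IsVec e m c →
    (∀ i : ℕ, 1 ≤ i → i ≤ m → c i ∈ N X i) → ∀ i : ℕ, 1 ≤ i → i ≤ m → c i = 0

/-- For the projective bundles `P → X` of vector bundles of rank `m`, with tautological class `ξ`: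
if `ξ^m` is in the kernel of the Abel-Jacobi map, it is zero. -/
def TautInjective (B : BundleData C) (X : 𝒱.Obj) : Prop :=
  ∀ (P : 𝒱.Obj) (f : P ⟶ X) (m : ℕ) (ξ : C.A P), B.IsTaut f m ξ → ξ ^ m ∈ N P m → ξ ^ m = 0

/-- The vector bundles on `X` of rank `m ≥ c` with Chern classes `c_i = 0` for `0 < i < c` and `c_i`
in the kernels of the Abel-Jacobi maps for `i ≥ c` have `c_c = 0`. -/
def CodimChern (B : BundleData C) (X : 𝒱.Obj) (c : ℕ) : Prop :=
  ∀ (e : B.K X) (m : ℕ) (d : ℕ → C.A X), B.IsVec e m d → c ≤ m →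
    (∀ i : ℕ, 1 ≤ i → i < c → d i = 0) → (∀ i : ℕ, c ≤ i → i ≤ m → d i ∈ N X i) → d c = 0

/-- For the projective bundles `f : P → X` of vector bundles of rank `m ≥ c`, with tautological class
`ξ`: if `f_* (ξ^(m-1+i)) = 0` for `0 < i < c` and `ξ^m` is in the kernel of the Abel-Jacobi map, then
`f_* (ξ^(m-1+c)) = 0`. -/
def CodimTaut (B : BundleData C) (X : 𝒱.Obj) (c : ℕ) : Prop :=
  ∀ (P : 𝒱.Obj) (f : P ⟶ X) (m : ℕ) (ξ : C.A P), B.IsTaut f m ξ → c ≤ m →
    (∀ i : ℕ, 1 ≤ i → i < c → C.down f (ξ ^ (m + i - 1)) = 0) → ξ ^ m ∈ N P m →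
      C.down f (ξ ^ (m + c - 1)) = 0

end Pool.Agent.Q72.DP
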