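import Pool.Agent.Q72.DP.DimAJDefs

/-!
# Finite coverings: definitions
-/

open CategoryTheory AlgebraicGeometry

universe u v w

namespace Pool.Agent.Q72.DP

open Pool.Agent.H914 Pool.Agent.H914.VarClass Pool.Agent.H914.VarClass.Obj Pool.Agent.W492.BB
  Pool.Agent.TH133 Pool.Agent.TH829.Prime

variable {k : Type u} [Field k] {𝒱 : VarClass k}

/-- Every variety `V` is the target of a morphism `π : W → V` of non-zero degree `q` from a variety
`W` of the same dimension in the class `Cov`. For `Cov` the class of the varieties with ample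
canonical class this is a known theorem (cyclic coverings, branched along smooth very ample
divisors). -/
def HasCoverings (C : TheoryData.{u, v, 0} 𝒱 ℚ) (Cov : 𝒱.Obj → Prop) : Prop :=
  ∀ V : 𝒱.Obj, ∃ (W : 𝒱.Obj) (π : W ⟶ V) (q : ℚ), Cov W ∧ W.dim = V.dim ∧ q ≠ 0 ∧
    C.down π 1 = q • (1 : C.A V)

end Pool.Agent.Q72.DP
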