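import Pool.Agent.Q72.DP.Power

/-!
# Adequate equivalence relations are compared on the powers of divisors
-/

open CategoryTheory AlgebraicGeometry

universe u v w

namespace Pool.Agent.Q72.DP

open Pool.Agent.H914 Pool.Agent.H914.VarClass Pool.Agent.H914.VarClass.Obj Pool.Agent.W492.BB
  Pool.Agent.W550.Corr Pool.Agent.TH133 Pool.Agent.TH829.Prime

set_option linter.unusedSectionVars false

variable {k : Type u} [Field k] {𝒱 : VarClass k} {C : TheoryData.{u, v, 0} 𝒱 ℚ}

/-- The powers of divisors on `V` which are equivalent to zero for `S` are so for `R`. -/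
def PowersIn (S R : Family C) (V : 𝒱.Obj) : Prop :=
  ∀ (G : C.A V) (m : ℕ), C.Deg 1 G → G ^ m ∈ S V m → G ^ m ∈ R V m

variable [hC : IsChowProj C] {X Y : 𝒱.Obj}

include hC

/-- The relations on a projective bundle are determined by those on the base. -/
lemma bundle_le {S R : Family C} (hS : IsAdequate C S) (hR : IsAdequate C R) {P : 𝒱.Obj}
    {f : P ⟶ X} {r : ℕ} {c : ℕ → C.A X} {ξ : C.A P} (h : IsProjBundle C f r c ξ)
    (hX : ∀ i, S X i ≤ R X i) (n : ℤ) : S P n ≤ R P n := by
  intro x hx
  obtain ⟨a, ha, hxa⟩ := h.span n x (hS.le_gr _ _ hx)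
  suffices H : ∀ s : ℕ, s ≤ r → ∀ x : C.A P, x ∈ S P n →
      x = ∑ i ∈ Finset.range s, C.pull f (a i) * ξ ^ i → x ∈ R P n from H r le_rfl x hx hxa
  intro s
  induction s with
  | zero =>
    intro _ x _ h0
    rw [Finset.range_zero, Finset.sum_empty] at h0
    rw [h0]
    exact Submodule.zero_mem _
  | succ s ih =>
    intro hs x hx hxa
    have h1 : C.push f (x * ξ ^ (r - 1 - s)) = a s := by
      rw [hxa, Finset.sum_mul, map_sum, Finset.sum_eq_single s]
      · rw [mul_assoc, ← pow_add, C.proj_left]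
        have e1 : s + (r - 1 - s) = r - 1 := by omega
        have h4 : C.push f (ξ ^ (r - 1)) = 1 := by
          have := h.push_pow (r - 1) (by omega)
          rwa [if_pos (by omega)] at this
        rw [e1, h4, mul_one]
      · intro i hi hne
        rw [Finset.mem_range] at hi
        rw [mul_assoc, ← pow_add, C.proj_left]
        have h4 : C.push f (ξ ^ (i + (r - 1 - s))) = 0 := by
          have := h.push_pow (i + (r - 1 - s)) (by omega)
          rwa [if_neg (by omega)] at this
        rw [h4, mul_zero]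
      · intro hne
        rw [Finset.mem_range] at hne
        omega
    have h2 : a s ∈ S X (n - s) := by
      have h3 := hS.push_mem f (hS.mul_mem hx (pow_mem1 h.deg (r - 1 - s)))
      have h4 : a s ∈ S X (n + ((r - 1 - s : ℕ) : ℤ) + ((X.dim : ℤ) - P.dim)) := by
        rw [← h1]; exact h3
      refine hS.congr ?_ h4
      have := h.dim_eq
      omega
    have h3 : C.pull f (a s) * ξ ^ s ∈ S P n := by
      have h4 := hS.mul_mem (hS.pull_mem f h2) (pow_mem1 h.deg s)
      exact hS.congr (by ring) h4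
    have h5 : C.pull f (a s) * ξ ^ s ∈ R P n := by
      have h4 := hR.mul_mem (hR.pull_mem f (hX _ h2)) (pow_mem1 h.deg s)
      exact hR.congr (by ring) h4
    have h6 := ih (by omega) (x - C.pull f (a s) * ξ ^ s) (Submodule.sub_mem _ hx h3) (by
      rw [hxa, Finset.sum_range_succ, add_sub_cancel_right])
    have h7 := Submodule.add_mem _ h6 h5
    rwa [sub_add_cancel] at h7

/-- The step from a class to a power of a divisor. -/
lemma mem_of_power {S R : Family C} (hS : IsAdequate C S) (hR : IsAdequate C R)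
    {P : 𝒱.Obj} {f : P ⟶ X} {G w : C.A P} {m c : ℕ} {q : ℚ} {z : C.A X} (hc : 1 ≤ c)
    (hG : C.Deg 1 G) (hd : P.dim + 1 = X.dim + m) (hq : q ≠ 0) (hw : C.Deg ((m : ℤ) - c) w)
    (h1 : G ^ m = C.pull f z * w) (h2 : C.push f (G ^ (m + c - 1)) = q • z)
    (hP : G ^ m ∈ S P m → G ^ m ∈ R P m) (hz : z ∈ S X c) : z ∈ R X c := by
  have h3 : G ^ m ∈ R P m := by
    apply hP
    rw [h1]
    exact hS.congr (by ring) (hS.mul_mem (hS.pull_mem f hz) hw)
  have h4 := hR.push_mem f (hR.mul_mem h3 (pow_mem1 hG (c - 1)))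
  have h5 : C.down f (C.mul (G ^ m) (G ^ (c - 1))) = q • z := by
    rw [← h2, TheoryData.mul, ← pow_add]
    congr 2
    omega
  rw [h5] at h4
  have h6 := Submodule.smul_mem _ q⁻¹ h4
  rw [smul_smul, inv_mul_cancel₀ hq, one_smul] at h6
  exact hR.congr (by omega) h6

/-- If `ξ^m` is equivalent to zero, then so are the Chern classes. -/
lemma chern_mem {S : Family C} (hS : IsAdequate C S) {P : 𝒱.Obj} {f : P ⟶ X} {m : ℕ}
    {c : ℕ → C.A X} {ξ : C.A P} (h : IsProjBundle C f m c ξ) (h0 : c 0 = 1)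
    (hm : ξ ^ m ∈ S P m) (i : ℕ) (hi : 1 ≤ i) (him : i ≤ m) : c i ∈ S X i := by
  induction i using Nat.strong_induction_on with
  | _ i ih =>
    have h1 : C.push f (ξ ^ m * ξ ^ (i - 1)) ∈ S X i := by
      have h2 := hS.push_mem f (hS.mul_mem hm (pow_mem1 h.deg (i - 1)))
      refine hS.congr ?_ h2
      have := h.dim_eq
      omega
    have h2 : C.push f (ξ ^ m * ξ ^ (i - 1)) =
        -∑ j ∈ Finset.range m, c (j + 1) * C.push f (ξ ^ (m - (j + 1) + (i - 1))) := by
      rw [h.pow_eq h0, neg_mul, Finset.sum_mul, map_neg, map_sum]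
      congr 1
      refine Finset.sum_congr rfl fun j _ => ?_
      rw [mul_assoc, ← pow_add, C.proj_left]
    have h3 : ∑ j ∈ Finset.range m, c (j + 1) * C.push f (ξ ^ (m - (j + 1) + (i - 1))) =
        c i + ∑ j ∈ Finset.range (i - 1),
          c (j + 1) * C.push f (ξ ^ (m - (j + 1) + (i - 1))) := by
      have e1 : m = (i - 1) + 1 + (m - i) := by omega
      have e2 : ∑ j ∈ Finset.range m, c (j + 1) * C.push f (ξ ^ (m - (j + 1) + (i - 1))) =
          ∑ j ∈ Finset.range ((i - 1) + 1),
            c (j + 1) * C.push f (ξ ^ (m - (j + 1) + (i - 1))) := by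
        symm
        apply Finset.sum_subset
        · intro j hj
          rw [Finset.mem_range] at hj ⊢
          omega
        · intro j hj hj2
          rw [Finset.mem_range] at hj hj2
          have h4 : C.push f (ξ ^ (m - (j + 1) + (i - 1))) = 0 := by
            have := h.push_pow (m - (j + 1) + (i - 1)) (by omega)
            rwa [if_neg (by omega)] at this
          rw [h4, mul_zero]
      rw [e2, Finset.sum_range_succ, add_comm]
      congr 1
      have h4 : C.push f (ξ ^ (m - (i - 1 + 1) + (i - 1))) = 1 := by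
        have := h.push_pow (m - (i - 1 + 1) + (i - 1)) (by omega)
        rwa [if_pos (by omega)] at this
      rw [h4, mul_one]
      congr 1
      omega
    have h4 : ∑ j ∈ Finset.range (i - 1),
        c (j + 1) * C.push f (ξ ^ (m - (j + 1) + (i - 1))) ∈ S X i := by
      refine Submodule.sum_mem _ fun j hj => ?_
      rw [Finset.mem_range] at hj
      have h5 := hS.mul_mem (ih (j + 1) (by omega) (by omega) (by omega))
        (C.push_mem f (pow_mem1 h.deg (m - (j + 1) + (i - 1))))
      refine hS.congr ?_ h5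
      have := h.dim_eq
      omega
    rw [h2, h3] at h1
    have h5 := Submodule.neg_mem _ h1
    rw [neg_neg] at h5
    have h6 := Submodule.sub_mem _ h5 h4
    rwa [add_sub_cancel_right] at h6

/-- If the Chern classes are equivalent to zero, then so is `ξ^m`. -/
lemma taut_mem {S : Family C} (hS : IsAdequate C S) {P : 𝒱.Obj} {f : P ⟶ X} {m : ℕ}
    {c : ℕ → C.A X} {ξ : C.A P} (h : IsProjBundle C f m c ξ) (h0 : c 0 = 1)
    (hc : ∀ i : ℕ, 1 ≤ i → i ≤ m → c i ∈ S X i) : ξ ^ m ∈ S P m := by
  rw [h.pow_eq h0]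
  refine Submodule.neg_mem _ (Submodule.sum_mem _ fun j hj => ?_)
  rw [Finset.mem_range] at hj
  have h1 := hS.mul_mem (hS.pull_mem f (hc (j + 1) (by omega) (by omega)))
    (pow_mem1 h.deg (m - (j + 1)))
  exact hS.congr (by omega) h1

/-- The comparison of adequate relations on the variety `X`: it suffices to look at the Chern
classes of vector bundles, or at the powers `ξ^m` of the tautological classes of projective bundles
of rank `m`. -/
theorem compare_at {B : BundleData C} (hB : B.IsKTheory) {S R : Family C} (hS : IsAdequate C S)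
    (hR : IsAdequate C R) (X : 𝒱.Obj) (h1 : (1 : C.A X) ∉ S X 0) :
    [∀ i, S X i ≤ R X i,
      ∀ (e : B.K X) (m : ℕ) (c : ℕ → C.A X), B.IsVec e m c →
        (∀ i : ℕ, 1 ≤ i → i ≤ m → c i ∈ S X i) → ∀ i : ℕ, 1 ≤ i → i ≤ m → c i ∈ R X i,
      ∀ (P : 𝒱.Obj) (f : P ⟶ X) (m : ℕ) (ξ : C.A P), B.IsTaut f m ξ → ξ ^ m ∈ S P m →
        ξ ^ m ∈ R P m,
      ∀ (P : 𝒱.Obj) (f : P ⟶ X), B.IsBundle f → PowersIn S R P].TFAE := by
  tfae_have 1 → 4 := by
    rintro h P f ⟨r, ξ, e, c, hv, -, hP⟩ G m _ hm
    exact bundle_le hS hR hP h m hm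
  tfae_have 4 → 3 := by
    rintro h P f m ξ hT hm
    have hT' := hT
    obtain ⟨e, c, hv, -, hP⟩ := hT'
    exact h P f ⟨m, ξ, hT⟩ ξ m hP.deg hm
  tfae_have 1 → 2 := by
    intro h e m c _ hc i h1 h2
    exact h i (hc i h1 h2)
  tfae_have 2 → 3 := by
    rintro h P f m ξ ⟨e, c, hv, -, hP⟩ hm
    exact taut_mem hR hP (IsVec_zero hv) (h e m c hv (chern_mem hS hP (IsVec_zero hv) hm))
  tfae_have 3 → 1 := by
    intro h i z hz
    have hzd := hS.le_gr _ _ hz
    rcases lt_trichotomy i 0 with hi | hi | hi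
    · rw [neg_zero hzd hi]
      exact Submodule.zero_mem _
    · subst hi
      obtain ⟨q, hq⟩ := hC.gr_zero X z hzd
      by_cases hq0 : q = 0
      · rw [hq, hq0, zero_smul]
        exact Submodule.zero_mem _
      · exfalso
        apply h1
        have h2 := Submodule.smul_mem _ q⁻¹ hz
        rwa [hq, smul_smul, inv_mul_cancel₀ hq0, one_smul] at h2
    · obtain ⟨c, rfl⟩ : ∃ c : ℕ, i = c := ⟨i.toNat, by omega⟩
      obtain ⟨P, f, G, w, m, q, hf, hG, -, hd, hq, hw, h1, h2⟩ :=
        exists_power hB (X := X) (c := c) (by omega) hzd 0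
      exact mem_of_power hS hR (by omega) hG hd hq hw h1 h2 (h P f m G hf) hz
  tfae_finish

/-- A fundamental class. -/
lemma one_mem_of_top {R : Family C} (hR : IsAdequate C R) {V : 𝒱.Obj} {h : C.A V}
    (h1 : ∃ q : ℚ, q ≠ 0 ∧ C.down (snd V V) (C.up (fst V V) (h ^ V.dim)) = q • (1 : C.A V))
    (h2 : h ^ V.dim ∈ R V V.dim) : (1 : C.A V) ∈ R V 0 := by
  obtain ⟨q, hq, h1⟩ := h1
  have h3 := hR.push_mem (snd V V) (hR.pull_mem (fst V V) h2)
  rw [h1] at h3
  have h4 := Submodule.smul_mem _ q⁻¹ h3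
  rw [smul_smul, inv_mul_cancel₀ hq, one_smul] at h4
  refine hR.congr ?_ h4
  rw [dim_prod]; push_cast; ring

/-- Two adequate relations agree if and only if they agree for the powers of divisors, if and only
if they do so in the middle dimension. -/
theorem compare_all {B : BundleData C} (hB : B.IsKTheory) {S R : Family C} (hS : IsAdequate C S)
    (hR : IsAdequate C R) :
    [S ≤ R, ∀ V : 𝒱.Obj, PowersIn S R V,
      ∀ (V : 𝒱.Obj) (m : ℕ) (G : C.A V), V.dim = 2 * m → C.Deg 1 G → G ^ m ∈ S V m →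
        G ^ m ∈ R V m].TFAE := by
  tfae_have 1 → 2 := by
    intro h V G m _ hm
    exact h V m hm
  tfae_have 2 → 3 := by
    intro h V m G _ hG hm
    exact h V G m hG hm
  tfae_have 3 → 1 := by
    intro h X i z hz
    have hzd := hS.le_gr _ _ hz
    rcases lt_trichotomy i 0 with hi | hi | hi
    · rw [neg_zero hzd hi]
      exact Submodule.zero_mem _
    · subst hi
      obtain ⟨q, hq⟩ := hC.gr_zero X z hzd
      by_cases hq0 : q = 0
      · rw [hq, hq0, zero_smul]
        exact Submodule.zero_mem _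
      · have h1 : (1 : C.A X) ∈ S X 0 := by
          have h2 := Submodule.smul_mem _ q⁻¹ hz
          rwa [hq, smul_smul, inv_mul_cancel₀ hq0, one_smul] at h2
        obtain ⟨g, hg, hg2⟩ := hC.polarized (X.prod X)
        have h3 : g ^ X.dim ∈ R (X.prod X) X.dim :=
          h (X.prod X) X.dim g (by rw [dim_prod]; ring) hg (hS.eq_top_of h1 (pow_mem1 hg _))
        have h4 : g ^ (X.prod X).dim ∈ R (X.prod X) (X.prod X).dim := by
          have h5 := hR.mul_mem h3 (pow_mem1 hg X.dim)
          rw [TheoryData.mul, ← pow_add] at h5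
          exact h5
        have h5 := one_mem_of_top hR hg2 h4
        have h6 := Submodule.smul_mem _ q (hR.one_mem_of h5 X)
        rwa [← hq] at h6
    · obtain ⟨c, rfl⟩ : ∃ c : ℕ, i = c := ⟨i.toNat, by omega⟩
      obtain ⟨P, f, G, w, m, q, hf, hG, hl, hd, hq, hw, h1, h2⟩ :=
        exists_power hB (X := X) (c := c) (by omega) hzd (X.dim + 1)
      refine mem_of_power hS hR (by omega) hG hd hq hw h1 h2 (fun hm => ?_) hz
      obtain ⟨c', hc'⟩ := isVec_natCast hB P (n := 2 * m - P.dim + 1) (by omega)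
      obtain ⟨V, g, ξ, hpr, hV⟩ := hB.bundle _ _ _ hc'
      have h3 : (C.pull g G) ^ m ∈ R V m := by
        apply h V m _ (by have := hV.dim_eq; omega) (C.pull_mem g hG)
        rw [← map_pow]
        exact hS.pull_mem g hm
      rw [← map_pow] at h3
      have h4 := hR.push_mem g (hR.mul_mem h3 (pow_mem1 hV.deg (2 * m - P.dim)))
      have h5 : C.down g (C.mul (C.pull g (G ^ m)) (ξ ^ (2 * m - P.dim))) = G ^ m := by
        have h6 : C.push g (C.pull g (G ^ m) * ξ ^ (2 * m - P.dim)) = G ^ m := by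
          rw [C.proj_left]
          have h7 : C.push g (ξ ^ (2 * m - P.dim)) = 1 := by
            have := hV.push_pow (2 * m - P.dim) (by omega)
            rwa [if_pos rfl] at this
          rw [h7, mul_one]
        exact h6
      rw [h5] at h4
      exact hR.congr (by have := hV.dim_eq; omega) h4
  tfae_finish

end Pool.Agent.Q72.DP
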