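import Pool.Agent.Q72.DP.RatDefs
import Pool.Agent.Q72.DP.Main

/-!
# Powers of divisors on rational varieties
-/

open CategoryTheory AlgebraicGeometry

universe u v w

namespace Pool.Agent.Q72.DP

open Pool.Agent.H914 Pool.Agent.H914.VarClass Pool.Agent.H914.VarClass.Obj Pool.Agent.W492.BB
  Pool.Agent.W550.Corr Pool.Agent.TH133 Pool.Agent.TH829.Prime

set_option linter.unusedSectionVars false

variable {k : Type u} [Field k] {𝒱 : VarClass k} {C : TheoryData.{u, v, 0} 𝒱 ℚ}
  [hC : IsChowProj C] {X Y : 𝒱.Obj}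

include hC

/-- A class on `X` is equivalent to zero if the associated class on the blow-up is. -/
lemma mem_of_blowUp {R : Family C} (hR : IsAdequate C R) {E V : 𝒱.Obj} {j : E ⟶ V} {g : E ⟶ X}
    {r : ℕ} {c : ℕ → C.A X} {h : C.A E} (hE : IsExceptional C j g r c h) {z : C.A X} {i : ℤ}
    (hz : C.push j (C.pull g z) ∈ R V (i + 1)) : z ∈ R X i := by
  have h1 := hR.pull_mem j hz
  have h2 : C.up j (C.push j (C.pull g z)) = - C.mul h (C.pull g z) := hE.self_int _
  rw [h2] at h1
  have h3 := Submodule.neg_mem _ h1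
  rw [neg_neg] at h3
  have h4 := hR.push_mem g (hR.mul_mem' (pow_mem1 hE.bundle.deg (r - 2)) h3)
  have h5 : C.down g (h ^ (r - 2) * C.mul h (C.pull g z)) = z := by
    have h6 : h ^ (r - 2) * C.mul h (C.pull g z) = h ^ (r - 1) * C.pull g z := by
      rw [TheoryData.mul, ← mul_assoc, ← pow_succ]
      congr 2
      have := hE.two_le
      omega
    have h7 : C.push g (h ^ (r - 1) * C.pull g z) = z := by
      rw [C.proj_right]
      have h8 : C.push g (h ^ (r - 1)) = 1 := by
        have := hE.bundle.push_pow (r - 1) (by have := hE.two_le; omega)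
        rwa [if_pos (by have := hE.two_le; omega)] at this
      rw [h8, one_mul]
    rw [h6]
    exact h7
  rw [h5] at h4
  refine hR.congr ?_ h4
  have := hE.bundle.dim_eq
  have := hE.two_le
  omega

/-- The step for one variety, with projective bundles over projective bundles over it. -/
lemma mem_of_middle {B : BundleData C} (hB : B.IsKTheory) {S R : Family C} (hS : IsAdequate C S)
    (hR : IsAdequate C R) (X : 𝒱.Obj) {c : ℕ} (hc : 1 ≤ c)
    (h : ∀ (P V : 𝒱.Obj) (f : P ⟶ X) (g : V ⟶ P), B.IsBundle f → B.IsBundle g →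
      ∀ (m : ℕ) (G : C.A V), V.dim = 2 * m → C.Deg 1 G → G ^ m ∈ S V m → G ^ m ∈ R V m) :
    S X c ≤ R X c := by
  intro z hz
  have hzd := hS.le_gr _ _ hz
  obtain ⟨P, f, G, w, m, q, hf, hG, hl, hd, hq, hw, h1, h2⟩ :=
    exists_power hB (X := X) (c := c) hc hzd (X.dim + 1)
  refine mem_of_power hS hR hc hG hd hq hw h1 h2 (fun hm => ?_) hz
  obtain ⟨c', hc'⟩ := isVec_natCast hB P (n := 2 * m - P.dim + 1) (by omega)
  obtain ⟨V, g, ξ, hpr, hV⟩ := hB.bundle _ _ _ hc'
  have h3 : (C.pull g G) ^ m ∈ R V m := by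
    apply h P V f g ⟨m, G, hf⟩ ⟨_, ξ, _, _, hc', hpr, hV⟩ m _ (by have := hV.dim_eq; omega)
      (C.pull_mem g hG)
    rw [← map_pow]
    exact hS.pull_mem g hm
  rw [← map_pow] at h3
  have h4 := hR.push_mem g (hR.mul_mem h3 (pow_mem1 hV.deg (2 * m - P.dim)))
  have h5 : C.down g (C.mul (C.pull g (G ^ m)) (ξ ^ (2 * m - P.dim))) = G ^ m := by
    have h6 : C.push g (C.pull g (G ^ m) * ξ ^ (2 * m - P.dim)) = G ^ m := by
      rw [C.proj_left]
      have h7 : C.push g (ξ ^ (2 * m - P.dim)) = 1 := by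
        have := hV.push_pow (2 * m - P.dim) (by omega)
        rwa [if_pos rfl] at this
      rw [h7, mul_one]
    exact h6
  rw [h5] at h4
  exact hR.congr (by have := hV.dim_eq; omega) h4

/-- Two adequate relations agree if and only if they agree for the powers in the middle dimension
of divisors on rational varieties. -/
theorem compare_rat {B : BundleData C} (hB : B.IsKTheory) {Rat : 𝒱.Obj → Prop}
    (hRat : IsRationalClass B Rat) {S R : Family C} (hS : IsAdequate C S) (hR : IsAdequate C R)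
    (h1 : ∀ X : 𝒱.Obj, (1 : C.A X) ∉ S X 0) :
    S ≤ R ↔ ∀ (V : 𝒱.Obj) (m : ℕ) (G : C.A V), Rat V → V.dim = 2 * m → C.Deg 1 G →
      G ^ m ∈ S V m → G ^ m ∈ R V m := by
  constructor
  · intro h V m G _ _ _ hm
    exact h V m hm
  · intro h X i z hz
    have hzd := hS.le_gr _ _ hz
    rcases lt_trichotomy i 0 with hi | hi | hi
    · rw [neg_zero hzd hi]
      exact Submodule.zero_mem _
    · subst hi
      obtain ⟨q, hq⟩ := hC.gr_zero X z hzd
      by_cases hq0 : q = 0
      · rw [hq, hq0, zero_smul]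
        exact Submodule.zero_mem _
      · exfalso
        apply h1 X
        have h2 := Submodule.smul_mem _ q⁻¹ hz
        rwa [hq, smul_smul, inv_mul_cancel₀ hq0, one_smul] at h2
    · obtain ⟨c, rfl⟩ : ∃ c : ℕ, i = c := ⟨i.toNat, by omega⟩
      obtain ⟨E, V, j, g, r, d, e, hE, hV⟩ := hRat.blowUp X
      refine mem_of_blowUp hR hE (i := (c : ℤ)) ?_
      have h2 : C.push j (C.pull g z) ∈ S V ((c + 1 : ℕ) : ℤ) := by
        refine hS.congr ?_ (hS.push_mem j (hS.pull_mem g hz))
        have := hE.dim_eq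
        push_cast
        omega
      have h3 := mem_of_middle hB hS hR V (c := c + 1) (by omega)
        (fun P V' f g hf hg m G hd hG hm =>
          h V' m G (hRat.bundle g hg (hRat.bundle f hf hV)) hd hG hm) h2
      exact hR.congr (by push_cast; ring) h3

end Pool.Agent.Q72.DP
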