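import Pool.Agent.Q72.DP.AJ
import Pool.Agent.Q72.DP.AJDefs
import Pool.Agent.Q72.DP.Rat

/-!
# Injectivity of Abel-Jacobi maps is tested on powers of divisors
-/

open CategoryTheory AlgebraicGeometry

universe u v w

namespace Pool.Agent.Q72.DP

open Pool.Agent.H914 Pool.Agent.H914.VarClass Pool.Agent.H914.VarClass.Obj Pool.Agent.W492.BB
  Pool.Agent.W550.Corr Pool.Agent.TH133 Pool.Agent.TH829.Prime Pool.Agent.Y148.BB

set_option linter.unusedSectionVars false

variable {k : Type u} [Field k] {𝒱 : VarClass k} {C : TheoryData.{u, v, 0} 𝒱 ℚ}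
  [hC : IsChowProj C] {N : ∀ X : 𝒱.Obj, ℕ → Submodule ℚ (C.A X)}

include hC

lemma famOf_le_bot {X : 𝒱.Obj} : (∀ i, famOf N X i ≤ (⊥ : Submodule ℚ (C.A X))) ↔
    AJInjective N X := by
  constructor
  · intro h j
    rw [eq_bot_iff, ← famOf_nat N X j]
    exact h j
  · intro h i
    rcases lt_or_ge i 0 with hi | hi
    · rw [famOf_neg N X hi]
    · obtain ⟨a, rfl⟩ : ∃ a : ℕ, i = a := ⟨i.toNat, by omega⟩
      rw [famOf_nat, h a]

theorem inj_all {B : BundleData C} (hB : B.IsKTheory) {Rat : 𝒱.Obj → Prop}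
    (hRat : IsRationalClass B Rat) (hN : IsAdequate C (famOf N))
    (h1 : ∀ X : 𝒱.Obj, (1 : C.A X) ∉ N X 0) :
    [∀ X : 𝒱.Obj, AJInjective N X, ∀ V : 𝒱.Obj, PowersInjective N V,
      MiddleRational N Rat].TFAE := by
  have h0 := compare_all hB hN (isAdequate_bot (C := C))
  have h2 := compare_rat hB hRat hN (isAdequate_bot (C := C)) (fun X h => h1 X (by
    have := famOf_nat N X 0
    rw [Nat.cast_zero] at this
    rwa [← this]))
  have e1 : (∀ X : 𝒱.Obj, AJInjective N X) ↔ famOf N ≤ fun _ _ => ⊥ :=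
    ⟨fun h X => famOf_le_bot.2 (h X), fun h X => famOf_le_bot.1 (h X)⟩
  have e2 : (∀ V : 𝒱.Obj, PowersInjective N V) ↔ ∀ V : 𝒱.Obj, PowersIn (famOf N) (fun _ _ => ⊥) V :=
    forall_congr' fun V => forall₃_congr fun G m _ => by rw [famOf_nat, Submodule.mem_bot]
  have e3 : MiddleRational N Rat ↔ ∀ (V : 𝒱.Obj) (m : ℕ) (G : C.A V), Rat V → V.dim = 2 * m →
      C.Deg 1 G → G ^ m ∈ famOf N V m → G ^ m ∈ (⊥ : Submodule ℚ (C.A V)) := by
    constructor
    · intro h V m G hV hd hG hm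
      rw [famOf_nat] at hm
      exact (Submodule.mem_bot ℚ).2 (h V m G hV hd hG hm)
    · intro h V m G hV hd hG hm
      exact (Submodule.mem_bot ℚ).1 (h V m G hV hd hG (by rwa [famOf_nat]))
  tfae_have 1 ↔ 2 := by rw [e1, e2]; exact h0.out 0 1
  tfae_have 1 ↔ 3 := by rw [e1, e3]; exact h2
  tfae_finish

theorem inj_at {B : BundleData C} (hB : B.IsKTheory) (hN : IsAdequate C (famOf N)) (X : 𝒱.Obj)
    (h1 : (1 : C.A X) ∉ N X 0) :
    [AJInjective N X, ChernInjective N B X, TautInjective N B X,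
      ∀ (P : 𝒱.Obj) (f : P ⟶ X), B.IsBundle f → PowersInjective N P].TFAE := by
  have h := compare_at hB hN (isAdequate_bot (C := C)) X (by
    have := famOf_nat N X 0
    rw [Nat.cast_zero] at this
    rwa [this])
  rw [famOf_le_bot] at h
  simp only [famOf_nat, Submodule.mem_bot] at h
  have e2 : (∀ (P : 𝒱.Obj) (f : P ⟶ X), B.IsBundle f → PowersIn (famOf N) (fun _ _ => ⊥) P) ↔
      ∀ (P : 𝒱.Obj) (f : P ⟶ X), B.IsBundle f → PowersInjective N P :=
    forall₃_congr fun P f _ => forall₃_congr fun G m _ => by rw [famOf_nat, Submodule.mem_bot]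
  rw [e2] at h
  exact h

theorem inj_codim {B : BundleData C} (hB : B.IsKTheory) (hN : IsAdequate C (famOf N)) (X : 𝒱.Obj)
    {c : ℕ} (hc : 1 ≤ c) : [N X c = ⊥, CodimChern N B X c, CodimTaut N B X c].TFAE := by
  have h := compare_codim (R := fun _ _ => ⊥) hB hN X hc
  simp only [famOf_nat, Submodule.mem_bot, le_bot_iff] at h
  exact h

variable {K : Type w} [Field K] {H : WeilTheoryData.{u, v, w} C K} [hH : IsWeilProj H]

include hH

lemma IsAJKernel.adequate (hN : IsAJKernel H N) : IsAdequate C (famOf N) :=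
  isAdequate_famOf (fun X j z hz => (hN.deg X j z hz).1) hN.stable

lemma one_notMem_aj (hN : IsAJKernel H N) (X : 𝒱.Obj) : (1 : C.A X) ∉ N X 0 := by
  intro h
  have h2 := (hN.deg X 0 _ h).2
  rw [map_one] at h2
  exact hH.one_ne_zero X h2

end Pool.Agent.Q72.DP
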