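import Pool.Agent.Q72.DP.Main

/-!
# The comparison of adequate relations in one codimension on one variety
-/

open CategoryTheory AlgebraicGeometry

universe u v w

namespace Pool.Agent.Q72.DP

open Pool.Agent.H914 Pool.Agent.H914.VarClass Pool.Agent.H914.VarClass.Obj Pool.Agent.W492.BB
  Pool.Agent.W550.Corr Pool.Agent.TH133 Pool.Agent.TH829.Prime

set_option linter.unusedSectionVars false

variable {k : Type u} [Field k] {𝒱 : VarClass k} {C : TheoryData.{u, v, 0} 𝒱 ℚ}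
  [hC : IsChowProj C] {X Y : 𝒱.Obj}

include hC

/-- For every class `z` of codimension `c ≥ 1` on `X` there is a vector bundle of (arbitrarily
large) rank `m` with Chern classes `c_i = 0` for `0 < i < c`, `c_c` a non-zero multiple of `z`, and
`c_i` a multiple of `z` for `i ≥ 1`. -/
theorem exists_bundle {B : BundleData C} (hB : B.IsKTheory) {c : ℕ} (hc : 1 ≤ c) {z : C.A X}
    (hz : C.Deg c z) (l : ℕ) :
    ∃ (e : B.K X) (m : ℕ) (d : ℕ → C.A X) (q : ℚ), B.IsVec e m d ∧ l ≤ m ∧ c ≤ m ∧ q ≠ 0 ∧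
      (∀ i, 1 ≤ i → i < c → d i = 0) ∧ d c = q • z ∧
      ∀ i : ℕ, 1 ≤ i → ∃ u, C.Deg ((i : ℤ) - c) u ∧ d i = z * u := by
  obtain ⟨N, hN, a, ha⟩ := hB.chow z
  obtain ⟨e, he, e', he', hae⟩ := hB.diff a
  obtain ⟨o, ho, ⟨y, hy, hy0⟩, hS⟩ := hB.ample X
  obtain ⟨r, M, q, hq, hqe⟩ := hS e' he'
  obtain ⟨y', hy', hy0'⟩ := hy.pow hy0 r
  set t : ℕ := l + c with ht
  have hE : e * o ^ r + q + (t : B.K X) ∈ B.vec X :=
    hB.add_mem (hB.add_mem (hB.mul_mem he (pow_mem_vec hB ho r)) hq)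
      (natCast_mem hB X (by omega))
  have hchE : B.ch X (e * o ^ r + q + (t : B.K X)) =
      ((N : ℚ) • z) * (B.ch X o) ^ r + ((M + t : ℕ) : C.A X) := by
    have e1 : e * o ^ r + q + (t : B.K X) = a * o ^ r + ((M + t : ℕ) : B.K X) := by
      have e2 : ((M + t : ℕ) : B.K X) = e' * o ^ r + q + (t : B.K X) := by
        rw [hqe]; exact Nat.cast_add M t
      rw [e2, hae]; ring
    rw [e1, map_add, map_mul, map_pow, ha, map_natCast]
  have hNz : ((N : ℚ) • z) ∈ C.gr X (c : ℤ) := Submodule.smul_mem _ _ hz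
  have hp : IsComp C (B.ch X (e * o ^ r + q + (t : B.K X)))
      (fun j => (if c ≤ j then ((N : ℚ) • z) * y' (j - c) else 0) +
        (if j = 0 then ((M + t : ℕ) : C.A X) else 0)) := by
    rw [hchE]
    exact (hy'.mul_left hNz).add (isComp_natCast X (M + t))
  set p : ℕ → C.A X := fun j => (if c ≤ j then ((N : ℚ) • z) * y' (j - c) else 0) +
        (if j = 0 then ((M + t : ℕ) : C.A X) else 0) with hpdef
  have hp0 : p 0 = ((M + t : ℕ) : C.A X) := by
    simp only [hpdef, if_true]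
    rw [if_neg (by omega), zero_add]
  have hvec : B.IsVec (e * o ^ r + q + (t : B.K X)) (M + t) (chern p) :=
    ⟨hE, by omega, p, hp, hp0, rfl⟩
  have hv := chern_dvd (z := z) (c := c) (p := p)
    (v := fun j => if c ≤ j then (N : ℚ) • y' (j - c) else 0) hp.deg (by
      intro j _
      split_ifs with h
      · refine Submodule.smul_mem _ _ (gr_congr ?_ (hy'.deg (j - c)))
        push_cast [h]; ring
      · exact Submodule.zero_mem _) (by
      intro j hj
      simp only [hpdef]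
      rw [if_neg (show ¬ j = 0 by omega), add_zero]
      split_ifs with h
      · rw [smul_mul_assoc, mul_smul_comm]
      · rw [mul_zero])
  have hlow := chern_lowest (c := c) (p := p) (by
    intro j h1 h2
    simp only [hpdef]
    rw [if_neg (by omega), if_neg (by omega), add_zero])
  have hpc : p c = (N : ℚ) • z := by
    simp only [hpdef]
    rw [if_pos le_rfl, if_neg (by omega), add_zero, Nat.sub_self, hy0', mul_one]
  refine ⟨_, M + t, chern p, ((-1 : ℚ) ^ (c - 1) * ((c - 1).factorial : ℚ)) * N, hvec, by omega,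
    by omega, ?_, hlow.1, ?_, hv.2⟩
  · refine mul_ne_zero (mul_ne_zero (pow_ne_zero _ (by norm_num)) ?_) ?_
    · exact_mod_cast Nat.factorial_ne_zero _
    · exact_mod_cast (by omega : N ≠ 0)
  · rw [hlow.2 hc, hpc, smul_smul]

/-- The vanishing of the push-forwards of `ξ^(m-1+i)`, `0 < i < c`, is the vanishing of the Chern
classes `c_i`. -/
lemma push_zero_iff {P : 𝒱.Obj} {f : P ⟶ X} {m : ℕ} {d : ℕ → C.A X} {ξ : C.A P}
    (h : IsProjBundle C f m d ξ) (h0 : d 0 = 1) {c : ℕ} (hc : c ≤ m) :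
    (∀ i : ℕ, 1 ≤ i → i < c → C.push f (ξ ^ (m + i - 1)) = 0) ↔
      ∀ i : ℕ, 1 ≤ i → i < c → d i = 0 := by
  constructor
  · intro hz i
    induction i using Nat.strong_induction_on with
    | _ i ih =>
      intro h1 h2
      have h3 := h.push_eq h0 h1 (by omega) (fun j hj1 hj2 => ih j hj2 hj1 (by omega))
      rw [hz i h1 h2] at h3
      exact (neg_eq_zero.1 h3.symm)
  · intro hd i h1 h2
    have h4 : C.push f (ξ ^ (m + i - 1)) = -d i :=
      h.push_eq h0 h1 (by omega) (fun j hj1 hj2 => hd j hj1 (by omega))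
    rw [h4, hd i h1 h2, _root_.neg_zero]

/-- The comparison of two adequate relations in codimension `c` on `X`. -/
theorem compare_codim {B : BundleData C} (hB : B.IsKTheory) {S R : Family C} (hS : IsAdequate C S)
    (X : 𝒱.Obj) {c : ℕ} (hc : 1 ≤ c) :
    [S X c ≤ R X c,
      ∀ (e : B.K X) (m : ℕ) (d : ℕ → C.A X), B.IsVec e m d → c ≤ m →
        (∀ i : ℕ, 1 ≤ i → i < c → d i = 0) → (∀ i : ℕ, c ≤ i → i ≤ m → d i ∈ S X i) → d c ∈ R X c,
      ∀ (P : 𝒱.Obj) (f : P ⟶ X) (m : ℕ) (ξ : C.A P), B.IsTaut f m ξ → c ≤ m →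
        (∀ i : ℕ, 1 ≤ i → i < c → C.down f (ξ ^ (m + i - 1)) = 0) → ξ ^ m ∈ S P m →
          C.down f (ξ ^ (m + c - 1)) ∈ R X c].TFAE := by
  tfae_have 1 → 2 := by
    intro h e m d _ hcm _ hd
    exact h (hd c le_rfl hcm)
  tfae_have 2 → 3 := by
    rintro h P f m ξ ⟨e, d, hv, -, hP⟩ hcm hz hm
    have h0 := IsVec_zero hv
    have hd := (push_zero_iff hP h0 hcm).1 hz
    have h1 := h e m d hv hcm hd (fun i h1 h2 => chern_mem hS hP h0 hm i (by omega) h2)
    have h2 : C.down f (ξ ^ (m + c - 1)) = -d c := hP.push_eq h0 hc hcm hd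
    rw [h2]
    exact Submodule.neg_mem _ h1
  tfae_have 3 → 1 := by
    intro h z hz
    obtain ⟨e, m, d, q, hv, -, hcm, hq, hlow, hdc, hdvd⟩ :=
      exists_bundle hB (X := X) hc (hS.le_gr _ _ hz) 0
    obtain ⟨P, f, ξ, hpr, hP⟩ := hB.bundle e m d hv
    have h0 := IsVec_zero hv
    have hmem : ∀ i : ℕ, 1 ≤ i → i ≤ m → d i ∈ S X i := by
      intro i h1 _
      obtain ⟨u, hu, hdu⟩ := hdvd i h1
      rw [hdu]
      exact hS.congr (by ring) (hS.mul_mem hz hu)
    have h1 := h P f m ξ ⟨e, d, hv, hpr, hP⟩ hcm ((push_zero_iff hP h0 hcm).2 hlow)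
      (taut_mem hS hP h0 hmem)
    have h2 : C.down f (ξ ^ (m + c - 1)) = -d c := hP.push_eq h0 hc hcm hlow
    rw [h2, hdc] at h1
    have h3 := Submodule.neg_mem _ h1
    rw [neg_neg] at h3
    have h4 := Submodule.smul_mem _ q⁻¹ h3
    rwa [smul_smul, inv_mul_cancel₀ hq, one_smul] at h4
  tfae_finish

end Pool.Agent.Q72.DP
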