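import Pool.Agent.Q72.DP.DimDefs
import Pool.Agent.Q72.DP.Rat
import Pool.Agent.Q72.DP.Codim
import Pool.Agent.Q69.Prime.Hom

/-!
# Cycles of low dimension and the highest powers of divisors
-/

open CategoryTheory AlgebraicGeometry

universe u v w

namespace Pool.Agent.Q72.DP

open Pool.Agent.H914 Pool.Agent.H914.VarClass Pool.Agent.H914.VarClass.Obj Pool.Agent.W492.BB
  Pool.Agent.W550.Corr Pool.Agent.TH133 Pool.Agent.TH829.Prime Pool.Agent.Q69.Prime

set_option linter.unusedSectionVars false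

variable {k : Type u} [Field k] {𝒱 : VarClass k} {C : TheoryData.{u, v, 0} 𝒱 ℚ}
  [hC : IsChowProj C] {X Y : 𝒱.Obj}

include hC

/-- A class of codimension zero in an adequate relation not containing `1` is zero. -/
lemma zero_of_codim_zero {S : Family C} {X : 𝒱.Obj} (h1 : (1 : C.A X) ∉ S X 0) {z : C.A X}
    (hzd : C.Deg 0 z) (hz : z ∈ S X 0) : z = 0 := by
  obtain ⟨q, hq⟩ := hC.gr_zero X z hzd
  by_cases hq0 : q = 0
  · rw [hq, hq0, zero_smul]
  · exfalso
    apply h1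
    have h2 := Submodule.smul_mem _ q⁻¹ hz
    rwa [hq, smul_smul, inv_mul_cancel₀ hq0, one_smul] at h2

/-- The cycles of one dimension: a class `z` of codimension `a` on `X` and the power
`G^(r + a - 1)` on a projective bundle of rank `r`, which has the same dimension as `z`. -/
lemma mem_of_top {B : BundleData C} (hB : B.IsKTheory) {S R : Family C} (hS : IsAdequate C S)
    (hR : IsAdequate C R) (X : 𝒱.Obj) {a : ℕ} (ha : 1 ≤ a)
    (h : ∀ (P : 𝒱.Obj) (f : P ⟶ X), B.IsBundle f → ∀ (n : ℕ) (G : C.A P),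
      (P.dim : ℤ) - n = X.dim - a → C.Deg 1 G → G ^ n ∈ S P n → G ^ n ∈ R P n)
    {z : C.A X} (hz : z ∈ S X a) : z ∈ R X a := by
  obtain ⟨P, f, G, w, m, q, hT, hG, hl, hd, hq, hw, h1, h2⟩ :=
    exists_power hB (X := X) (c := a) ha (hS.le_gr _ _ hz) 0
  have h3 : G ^ m ∈ S P m := by
    rw [h1]
    exact hS.congr (by ring) (hS.mul_mem (hS.pull_mem f hz) hw)
  have h4 : G ^ (m + a - 1) ∈ S P ((m + a - 1 : ℕ) : ℤ) := by
    have h5 := hS.mul_mem h3 (pow_mem1 hG (a - 1))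
    rw [TheoryData.mul, ← pow_add] at h5
    have e : m + a - 1 = m + (a - 1) := by omega
    rw [e]
    exact hS.congr (by push_cast; ring) h5
  have h6 := h P f ⟨m, G, hT⟩ (m + a - 1) G (by omega) hG h4
  have h7 := hR.push_mem f h6
  have h8 : C.down f (G ^ (m + a - 1)) = q • z := h2
  rw [h8] at h7
  have h9 := Submodule.smul_mem _ q⁻¹ h7
  rw [smul_smul, inv_mul_cancel₀ hq, one_smul] at h9
  exact hR.congr (by omega) h9

/-- The comparison of two adequate relations on the cycles of dimension `i`, for the varieties of a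
class `Q` closed under projective bundles. -/
theorem compare_dim {B : BundleData C} (hB : B.IsKTheory) {Q : 𝒱.Obj → Prop}
    (hQ : ∀ {X P : 𝒱.Obj} (f : P ⟶ X), B.IsBundle f → Q X → Q P)
    {S R : Family C} (hS : IsAdequate C S) (hR : IsAdequate C R)
    (h1 : ∀ X : 𝒱.Obj, (1 : C.A X) ∉ S X 0) (i : ℕ) :
    (∀ X : 𝒱.Obj, Q X → ∀ (a : ℕ), X.dim = a + i → S X a ≤ R X a) ↔
      ∀ V : 𝒱.Obj, Q V → ∀ (n : ℕ) (G : C.A V), V.dim = n + i → C.Deg 1 G →
        G ^ n ∈ S V n → G ^ n ∈ R V n := by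
  constructor
  · intro h V hV n G hn hG hm
    exact h V hV n hn hm
  · intro h X hX a ha z hz
    rcases Nat.eq_zero_or_pos a with h0 | h0
    · subst h0
      rw [Nat.cast_zero] at hz ⊢
      rw [zero_of_codim_zero (h1 X) (hS.le_gr _ _ hz) hz]
      exact Submodule.zero_mem _
    · refine mem_of_top hB hS hR X h0 (fun P f hf n G hn hG hm => ?_) hz
      exact h P (hQ f hf hX) n G (by omega) hG hm

/-- The cycles of dimension `i` on `X` and those of dimension `i + s` on a trivial projective bundle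
of relative dimension `s`. -/
lemma exists_trivial {B : BundleData C} (hB : B.IsKTheory) (X : 𝒱.Obj) (s : ℕ) :
    ∃ (P : 𝒱.Obj) (f : P ⟶ X) (ξ : C.A P), B.IsBundle f ∧ C.Deg 1 ξ ∧ P.dim = X.dim + s ∧
      ∀ z : C.A X, C.push f (C.pull f z * ξ ^ s) = z := by
  obtain ⟨c, hc⟩ := isVec_natCast hB X (n := s + 1) (by omega)
  obtain ⟨P, f, ξ, hpr, hP⟩ := hB.bundle _ _ _ hc
  refine ⟨P, f, ξ, ⟨_, ξ, _, _, hc, hpr, hP⟩, hP.deg, by have := hP.dim_eq; omega, fun z => ?_⟩
  rw [C.proj_left]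
  have h4 : C.push f (ξ ^ s) = 1 := by
    have := hP.push_pow s (by omega)
    rwa [if_pos rfl] at this
  rw [h4, mul_one]

lemma mem_of_pull {R : Family C} (hR : IsAdequate C R) {P : 𝒱.Obj} {f : P ⟶ X} {ξ : C.A P}
    {s : ℕ} (hξ : C.Deg 1 ξ) (hd : P.dim = X.dim + s)
    (h : ∀ z : C.A X, C.push f (C.pull f z * ξ ^ s) = z) {i : ℤ} {z : C.A X}
    (hz : C.pull f z ∈ R P i) : z ∈ R X i := by
  have h1 := hR.push_mem f (hR.mul_mem hz (pow_mem1 hξ s))
  have h2 : C.down f (C.mul (C.pull f z) (ξ ^ s)) = z := h z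
  rw [h2] at h1
  exact hR.congr (by omega) h1

/-- The blow-up, with a twist by a power of `h`. -/
lemma mem_of_blowUp' {R : Family C} (hR : IsAdequate C R) {E V : 𝒱.Obj} {j : E ⟶ V} {g : E ⟶ X}
    {r : ℕ} {c : ℕ → C.A X} {h : C.A E} (hE : IsExceptional C j g r c h) {z : C.A X} {i : ℤ}
    (hz : C.push j (h ^ (r - 2) * C.pull g z) ∈ R V (i + (r - 1))) : z ∈ R X i := by
  have h1 := hR.pull_mem j hz
  have h2 : C.up j (C.push j (h ^ (r - 2) * C.pull g z)) =
      - C.mul h (h ^ (r - 2) * C.pull g z) := hE.self_int _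
  rw [h2] at h1
  have h3 := Submodule.neg_mem _ h1
  rw [neg_neg] at h3
  have h4 := hR.push_mem g h3
  have h5 : C.down g (C.mul h (h ^ (r - 2) * C.pull g z)) = z := by
    have h6 : C.mul h (h ^ (r - 2) * C.pull g z) = h ^ (r - 1) * C.pull g z := by
      rw [TheoryData.mul, ← mul_assoc, ← pow_succ']
      congr 2
      have := hE.two_le
      omega
    have h7 : C.push g (h ^ (r - 1) * C.pull g z) = z := by
      rw [C.proj_right]
      have h8 : C.push g (h ^ (r - 1)) = 1 := by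
        have := hE.bundle.push_pow (r - 1) (by have := hE.two_le; omega)
        rwa [if_pos (by have := hE.two_le; omega)] at this
      rw [h8, one_mul]
    rw [h6]
    exact h7
  rw [h5] at h4
  refine hR.congr ?_ h4
  have := hE.bundle.dim_eq
  omega

variable {K : Type w} [Field K] {H : WeilTheoryData.{u, v, w} C K} [hH : IsWeilProj H]

include hH

/-- The generalized Bloch conjecture and the highest powers of divisors. -/
theorem coniveau_tfae {B : BundleData C} (hB : B.IsKTheory) {Rat : 𝒱.Obj → Prop}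
    {Q : ℕ → 𝒱.Obj → Prop} (hQ : IsConiveau B Rat Q) :
    [∀ c : ℕ, 1 ≤ c → ∀ Y : 𝒱.Obj, Q c Y → ∀ i < c, HomZeroDim H Y i,
      ∀ c : ℕ, 1 ≤ c → ∀ Y : 𝒱.Obj, Q c Y → ∀ i < c, TopPowerZero H Y i,
      ∀ c : ℕ, 1 ≤ c → ∀ Y : 𝒱.Obj, Q c Y → TopPowerZero H Y (c - 1),
      ∀ c : ℕ, 2 ≤ c → ∀ Y : 𝒱.Obj, Q c Y → Rat Y → TopPowerZero H Y (c - 1)].TFAE := by
  have hS := (isPrime_homFam (H := H)).toIsAdequate
  have hR := isAdequate_bot (C := C)
  have h1 : ∀ X : 𝒱.Obj, (1 : C.A X) ∉ homFam H X 0 := (isPrime_homFam (H := H)).one_notMem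
  -- from powers to all cycles of dimension `c - 1`, in classes of varieties
  have key : ∀ (D : 𝒱.Obj → Prop) (_ : ∀ {X P : 𝒱.Obj} (f : P ⟶ X), B.IsBundle f → D X → D P)
      (i : ℕ), (∀ Y : 𝒱.Obj, D Y → TopPowerZero H Y i) → ∀ Y : 𝒱.Obj, D Y → HomZeroDim H Y i := by
    intro D hD i h Y hY a z hYa hz hcl
    have h2 := (compare_dim hB hD hS hR h1 i).2 (fun V hV n G hn hG hm =>
      (Submodule.mem_bot ℚ).2 (h V hV n G hn hG hm.2)) Y hY a hYa
    exact (Submodule.mem_bot ℚ).1 (h2 ⟨hz, hcl⟩)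
  tfae_have 1 → 2 := by
    intro h c hc Y hY i hi n G hn hG hcl
    exact h c hc Y hY i hi n (G ^ n) hn (pow_mem1 hG n) hcl
  tfae_have 2 → 3 := by
    intro h c hc Y hY
    exact h c hc Y hY (c - 1) (by omega)
  tfae_have 3 → 4 := by
    intro h c hc Y hY _
    exact h c (by omega) Y hY
  tfae_have 4 → 1 := by
    intro h c hc Y hY i hi a z hYa hz hcl
    -- all cycles of dimension `c - 1` on rational varieties of coniveau `≥ c`, `c ≥ 2`
    have h2 : ∀ c : ℕ, 2 ≤ c → ∀ V : 𝒱.Obj, Q c V → Rat V → HomZeroDim H V (c - 1) := by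
      intro c hc V hV hV'
      exact key (fun V => Q c V ∧ Rat V) (fun f hf hX => ⟨hQ.bundle c f hf hX.1,
        hQ.rat_bundle f hf hX.2⟩) (c - 1) (fun Y hY => h c hc Y hY.1 hY.2) V ⟨hV, hV'⟩
    -- all cycles of dimension `c - 1` on varieties of coniveau `≥ c`
    have h3 : ∀ c : ℕ, 1 ≤ c → ∀ X : 𝒱.Obj, Q c X → HomZeroDim H X (c - 1) := by
      intro c hc X hX a z hXa hz hcl
      obtain ⟨E, V, j, g, r, d, e, hE, hV, hQV⟩ := hQ.blowUp c X hX
      have hr := hE.two_le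
      have hEd := hE.bundle.dim_eq
      have hVd := hE.dim_eq
      have h4 : C.push j (e ^ (r - 2) * C.pull g z) ∈ homFam H V ((a : ℤ) + (r - 1)) := by
        have h5 : e ^ (r - 2) * C.pull g z ∈ homFam H E ((r - 2 : ℕ) + (a : ℤ)) :=
          hS.mul_mem' (pow_mem1 hE.bundle.deg (r - 2)) (hS.pull_mem g ⟨hz, hcl⟩)
        refine hS.congr ?_ (hS.push_mem j h5)
        omega
      have h6 : C.push j (e ^ (r - 2) * C.pull g z) = 0 := by
        refine h2 (c + 1) (by omega) V hQV hV (a + (r - 1)) _ (by omega) ?_ h4.2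
        refine gr_congr ?_ h4.1
        omega
      have h7 : z ∈ (fun (X : 𝒱.Obj) (_ : ℤ) => (⊥ : Submodule ℚ (C.A X))) X (a : ℤ) :=
        mem_of_blowUp' (i := (a : ℤ)) hR hE (by rw [h6]; exact Submodule.zero_mem _)
      exact (Submodule.mem_bot ℚ).1 h7
    obtain ⟨P, f, ξ, hf, hξ, hPd, hpull⟩ := exists_trivial hB Y (c - 1 - i)
    have h4 := h3 c hc P (hQ.bundle c f hf hY) a (C.pull f z) (by omega) (C.pull_mem f hz)
      ((hS.pull_mem f (show z ∈ homFam H Y a from ⟨hz, hcl⟩)).2)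
    rw [← hpull z, h4, zero_mul, map_zero]
  tfae_finish

end Pool.Agent.Q72.DP
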