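import Pool.Agent.Q72.DP.Codim
import Pool.Agent.Y148.BB.Corr

/-!
# The kernels of the Abel-Jacobi maps as an adequate relation
-/

open CategoryTheory AlgebraicGeometry

universe u v w

namespace Pool.Agent.Q72.DP

open Pool.Agent.H914 Pool.Agent.H914.VarClass Pool.Agent.H914.VarClass.Obj Pool.Agent.W492.BB
  Pool.Agent.W550.Corr Pool.Agent.TH133 Pool.Agent.TH829.Prime Pool.Agent.Y148.BB

set_option linter.unusedSectionVars false

variable {k : Type u} [Field k] {𝒱 : VarClass k} {C : TheoryData.{u, v, 0} 𝒱 ℚ}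

/-- The family of the subspaces `N X j`, `j ≥ 0`. -/
def famOf (N : ∀ X : 𝒱.Obj, ℕ → Submodule ℚ (C.A X)) : Family C := fun X i =>
  if 0 ≤ i then N X i.toNat else ⊥

lemma famOf_nat (N : ∀ X : 𝒱.Obj, ℕ → Submodule ℚ (C.A X)) (X : 𝒱.Obj) (j : ℕ) :
    famOf N X (j : ℤ) = N X j := by
  rw [famOf, if_pos (Int.natCast_nonneg j), Int.toNat_natCast]

lemma famOf_neg (N : ∀ X : 𝒱.Obj, ℕ → Submodule ℚ (C.A X)) (X : 𝒱.Obj) {i : ℤ} (h : i < 0) :
    famOf N X i = ⊥ := by
  rw [famOf, if_neg (by omega)]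

variable [hC : IsChowProj C]

include hC

lemma graph_deg {X Y : 𝒱.Obj} (f : X ⟶ Y) : C.graph f ∈ C.gr (X.prod Y) Y.dim := by
  have h := C.push_mem (Obj.lift (𝟙 X) f) (C.one_mem X)
  exact gr_congr (by rw [dim_prod]; push_cast; ring) h

/-- Subspaces which are stable under all correspondences form an adequate relation. -/
lemma isAdequate_famOf {N : ∀ X : 𝒱.Obj, ℕ → Submodule ℚ (C.A X)}
    (hdeg : ∀ (X : 𝒱.Obj) (j : ℕ) (z : C.A X), z ∈ N X j → C.Deg j z)
    (hst : ∀ (X Y : 𝒱.Obj) (j i : ℕ) (Γ : C.A (X.prod Y)), C.Deg (X.dim + i - j) Γ →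
      ∀ z ∈ N X j, C.act Γ z ∈ N Y i) : IsAdequate C (famOf N) := by
  have key : ∀ (X Y : 𝒱.Obj) (j i : ℤ) (Γ : C.A (X.prod Y)), C.Deg (X.dim + i - j) Γ →
      ∀ z ∈ famOf N X j, C.act Γ z ∈ famOf N Y i := by
    intro X Y j i Γ hΓ z hz
    rcases lt_or_ge j 0 with hj | hj
    · rw [famOf_neg N X hj, Submodule.mem_bot] at hz
      rw [hz, C.act_map_zero]
      exact Submodule.zero_mem _
    · obtain ⟨a, rfl⟩ : ∃ a : ℕ, j = a := ⟨j.toNat, by omega⟩
      rw [famOf_nat] at hz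
      rcases lt_or_ge i 0 with hi | hi
      · have h1 : C.act Γ z ∈ C.gr Y i := by
          have h2 := act_mem' C (e := i - a) (i := (a : ℤ)) (gr_congr (by ring) hΓ) (hdeg _ _ _ hz)
          exact gr_congr (by ring) h2
        rw [neg_zero h1 hi]
        exact Submodule.zero_mem _
      · obtain ⟨b, rfl⟩ : ∃ b : ℕ, i = b := ⟨i.toNat, by omega⟩
        rw [famOf_nat]
        exact hst X Y a b Γ hΓ z hz
  refine ⟨?_, ?_, ?_, ?_⟩
  · intro X i z hz
    rcases lt_or_ge i 0 with hi | hi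
    · rw [famOf_neg N X hi, Submodule.mem_bot] at hz
      rw [hz]
      exact Submodule.zero_mem _
    · obtain ⟨a, rfl⟩ : ∃ a : ℕ, i = a := ⟨i.toNat, by omega⟩
      rw [famOf_nat] at hz
      exact hdeg X a z hz
  · intro X Y f i b hb
    have h := key Y X i i (C.cograph f) (gr_congr (by ring) (cograph_mem f)) b hb
    rwa [C.act_cograph] at h
  · intro X Y f i a ha
    have h := key X Y i (i + ((Y.dim : ℤ) - X.dim)) (C.graph f) (gr_congr (by ring) (graph_deg f))
      a ha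
    rwa [C.act_graph] at h
  · intro X i j a b ha hb
    have h := key X X i (i + j) (C.mulCorr b) (by
      have h := C.push_mem (Obj.lift (𝟙 X) (𝟙 X)) hb
      exact gr_congr (by rw [dim_prod]; push_cast; ring) h) a ha
    rw [C.act_mulCorr, ch_comm C] at h
    exact h

variable {K : Type w} [Field K] {H : WeilTheoryData.{u, v, w} C K}

lemma isAdequate_aj {N : ∀ X : 𝒱.Obj, ℕ → Submodule ℚ (C.A X)}
    (hN : IsAbelJacobiKernel H N) : IsAdequate C (famOf N) :=
  isAdequate_famOf (fun X j z hz => (hN.deg X j z hz).1) hN.stable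

end Pool.Agent.Q72.DP
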