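import Pool.Agent.Q72.DP.Defs

/-!
# Components of classes; Newton's formulas
-/

open CategoryTheory AlgebraicGeometry

universe u v w

namespace Pool.Agent.Q72.DP

open Pool.Agent.H914 Pool.Agent.H914.VarClass Pool.Agent.H914.VarClass.Obj Pool.Agent.W492.BB
  Pool.Agent.W550.Corr Pool.Agent.TH133 Pool.Agent.TH829.Prime

set_option linter.unusedSectionVars false

variable {k : Type u} [Field k] {𝒱 : VarClass k} {C : TheoryData.{u, v, 0} 𝒱 ℚ}
  [hC : IsChowProj C] {X Y : 𝒱.Obj}

include hC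

omit hC in
lemma gr_congr {i j : ℤ} (h : i = j) {z : C.A X} (hz : z ∈ C.gr X i) : z ∈ C.gr X j := h ▸ hz

lemma top_zero {i : ℤ} {x : C.A X} (hx : x ∈ C.gr X i) (h : (X.dim : ℤ) < i) : x = 0 :=
  hC.gr_top X i x hx h

lemma neg_zero {i : ℤ} {x : C.A X} (hx : x ∈ C.gr X i) (h : i < 0) : x = 0 := by
  rw [C.gr_neg X i h] at hx
  exact (Submodule.mem_bot ℚ).1 hx

lemma pow_mem' {i : ℤ} {x : C.A X} (hx : x ∈ C.gr X i) (n : ℕ) : x ^ n ∈ C.gr X (n * i) := by
  induction n with
  | zero => rw [pow_zero, Nat.cast_zero, zero_mul]; exact C.one_mem X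
  | succ n ih =>
    rw [pow_succ]
    have h := C.mul_mem ih hx
    exact gr_congr (by push_cast; ring) h

lemma pow_mem1 {x : C.A X} (hx : x ∈ C.gr X 1) (n : ℕ) : x ^ n ∈ C.gr X (n : ℤ) :=
  gr_congr (by ring) (pow_mem' hx n)

lemma sum_tail {N : ℕ} (p : ℕ → C.A X) (hp : ∀ j : ℕ, X.dim < j → p j = 0) (hN : X.dim < N) :
    ∑ j ∈ Finset.range N, p j = ∑ j ∈ Finset.range (X.dim + 1), p j := by
  symm
  apply Finset.sum_subset
  · intro j hj
    rw [Finset.mem_range] at hj ⊢
    omega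
  · intro j _ hj
    rw [Finset.mem_range] at hj
    exact hp j (by omega)

lemma isComp_natCast (X : 𝒱.Obj) (N : ℕ) :
    IsComp C (N : C.A X) (fun j => if j = 0 then (N : C.A X) else 0) := by
  refine ⟨fun j => ?_, fun j hj => ?_, ?_⟩
  · by_cases h : j = 0
    · subst h
      simp only [if_true]
      have h1 : ((N : ℕ) : C.A X) = N • (1 : C.A X) := by rw [nsmul_eq_mul, mul_one]
      have h2 : N • (1 : C.A X) ∈ C.gr X 0 := nsmul_mem (C.one_mem X) N
      rw [h1]
      exact gr_congr (by simp) h2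
    · simp only [h, if_false]
      exact Submodule.zero_mem _
  · have h : j ≠ 0 := by omega
    simp only [h, if_false]
  · rw [Finset.sum_ite_eq' (Finset.range (X.dim + 1)) 0 (fun _ => (N : C.A X))]
    simp

lemma IsComp.add {x y : C.A X} {p q : ℕ → C.A X} (hp : IsComp C x p) (hq : IsComp C y q) :
    IsComp C (x + y) (fun j => p j + q j) := by
  refine ⟨fun j => Submodule.add_mem _ (hp.deg j) (hq.deg j), fun j hj => ?_, ?_⟩
  · rw [hp.out j hj, hq.out j hj, add_zero]
  · rw [Finset.sum_add_distrib, ← hp.sum, ← hq.sum]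

lemma IsComp.mul {x y : C.A X} {p q : ℕ → C.A X} (hp : IsComp C x p) (hq : IsComp C y q) :
    IsComp C (x * y) (fun n => ∑ ij ∈ Finset.HasAntidiagonal.antidiagonal n, p ij.1 * q ij.2) := by
  have hd : ∀ n : ℕ, (∑ ij ∈ Finset.HasAntidiagonal.antidiagonal n, p ij.1 * q ij.2) ∈ C.gr X (n : ℤ) := by
    intro n
    refine Submodule.sum_mem _ fun ij hij => ?_
    rw [Finset.HasAntidiagonal.mem_antidiagonal] at hij
    have h := C.mul_mem (hp.deg ij.1) (hq.deg ij.2)
    exact gr_congr (by rw [← hij]; push_cast; ring) h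
  have ho : ∀ n : ℕ, X.dim < n → (∑ ij ∈ Finset.HasAntidiagonal.antidiagonal n, p ij.1 * q ij.2) = 0 :=
    fun n hn => top_zero (hd n) (by exact_mod_cast hn)
  refine ⟨hd, ho, ?_⟩
  · rw [hp.sum, hq.sum, Finset.sum_mul_sum]
    have h1 : ∑ i ∈ Finset.range (X.dim + 1), ∑ j ∈ Finset.range (X.dim + 1), p i * q j =
        ∑ n ∈ Finset.range (2 * X.dim + 1),
          ∑ ij ∈ (Finset.range (X.dim + 1) ×ˢ Finset.range (X.dim + 1)) with ij.1 + ij.2 = n,
            p ij.1 * q ij.2 := by
      rw [← Finset.sum_product']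
      symm
      apply Finset.sum_fiberwise_of_maps_to
      intro ij hij
      rw [Finset.mem_product, Finset.mem_range, Finset.mem_range] at hij
      rw [Finset.mem_range]
      omega
    rw [h1, ← sum_tail (N := 2 * X.dim + 1) _ ho (by omega)]
    refine Finset.sum_congr rfl fun n _ => ?_
    apply Finset.sum_subset
    · intro ij hij
      rw [Finset.mem_filter] at hij
      rw [Finset.HasAntidiagonal.mem_antidiagonal]
      exact hij.2
    · intro ij hij hij2
      rw [Finset.HasAntidiagonal.mem_antidiagonal] at hij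
      rw [Finset.mem_filter, Finset.mem_product, Finset.mem_range, Finset.mem_range] at hij2
      by_cases h : X.dim < ij.1
      · rw [hp.out _ h, zero_mul]
      · have h' : X.dim < ij.2 := by
          by_contra h'
          exact hij2 ⟨⟨by omega, by omega⟩, hij⟩
        rw [hq.out _ h', mul_zero]

lemma IsComp.pow {x : C.A X} {p : ℕ → C.A X} (hp : IsComp C x p) (h0 : p 0 = 1) (n : ℕ) :
    ∃ q, IsComp C (x ^ n) q ∧ q 0 = 1 := by
  induction n with
  | zero =>
    refine ⟨_, by simpa using isComp_natCast (C := C) X 1, by simp⟩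
  | succ n ih =>
    obtain ⟨q, hq, hq0⟩ := ih
    refine ⟨_, by rw [pow_succ]; exact hq.mul hp, ?_⟩
    have h1 : Finset.HasAntidiagonal.antidiagonal (0 : ℕ) = {(0, 0)} := by decide
    rw [h1, Finset.sum_singleton, hq0, h0, mul_one]

lemma IsComp.mul_left {z x : C.A X} {c : ℕ} (hz : z ∈ C.gr X (c : ℤ)) {p : ℕ → C.A X}
    (hp : IsComp C x p) : IsComp C (z * x) (fun j => if c ≤ j then z * p (j - c) else 0) := by
  have hd : ∀ j : ℕ, (if c ≤ j then z * p (j - c) else 0) ∈ C.gr X (j : ℤ) := by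
    intro j
    split_ifs with h
    · have h1 := C.mul_mem hz (hp.deg (j - c))
      exact gr_congr (by push_cast [h]; ring) h1
    · exact Submodule.zero_mem _
  have ho : ∀ j : ℕ, X.dim < j → (if c ≤ j then z * p (j - c) else 0) = 0 :=
    fun j hj => top_zero (hd j) (by exact_mod_cast hj)
  refine ⟨hd, ho, ?_⟩
  rw [hp.sum, Finset.mul_sum, ← sum_tail (N := c + (X.dim + 1)) _ ho (by omega),
    Finset.sum_range_add _ c]
  have h1 : ∑ j ∈ Finset.range c, (if c ≤ j then z * p (j - c) else 0) = 0 := by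
    refine Finset.sum_eq_zero fun j hj => ?_
    rw [Finset.mem_range] at hj
    rw [if_neg (by omega)]
  rw [h1, zero_add]
  refine Finset.sum_congr rfl fun j _ => ?_
  rw [if_pos (by omega), Nat.add_sub_cancel_left]

omit hC in
lemma IsComp.smul {x : C.A X} {p : ℕ → C.A X} (hp : IsComp C x p) (r : ℚ) :
    IsComp C (r • x) (fun j => r • p j) := by
  refine ⟨fun j => Submodule.smul_mem _ r (hp.deg j), fun j hj => ?_, ?_⟩
  · rw [hp.out j hj, smul_zero]
  · rw [hp.sum, Finset.smul_sum]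

/-- If the components in positive degrees are multiples of `z`, then so are the Chern classes. -/
lemma chern_dvd {z : C.A X} {c : ℕ} {p v : ℕ → C.A X}
    (hp : ∀ j : ℕ, C.Deg j (p j)) (hv : ∀ j : ℕ, 1 ≤ j → C.Deg ((j : ℤ) - c) (v j))
    (h : ∀ j : ℕ, 1 ≤ j → p j = z * v j) :
    (∀ n : ℕ, C.Deg n (chern p n)) ∧
      ∀ n : ℕ, 1 ≤ n → ∃ u, C.Deg ((n : ℤ) - c) u ∧ chern p n = z * u := by
  have h1 : ∀ n : ℕ, C.Deg n (chern p n) := by
    intro n
    induction n using Nat.strong_induction_on with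
    | _ n ih =>
      rcases n with _ | n
      · rw [chern]
        exact gr_congr (by simp) (C.one_mem X)
      · rw [chern]
        refine Submodule.smul_mem _ _ (Submodule.sum_mem _ fun j _ => Submodule.smul_mem _ _ ?_)
        have h2 := C.mul_mem (hp ((j : ℕ) + 1)) (ih (n - j) (by omega))
        refine gr_congr ?_ h2
        have := j.2
        omega
  refine ⟨h1, fun n hn => ?_⟩
  obtain ⟨n, rfl⟩ : ∃ m, n = m + 1 := ⟨n - 1, by omega⟩
  refine ⟨((n + 1 : ℕ) : ℚ)⁻¹ • ∑ j : Fin (n + 1),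
      ((-1 : ℚ) ^ (j : ℕ) * (((j : ℕ) + 1).factorial : ℚ)) • (v (j + 1) * chern p (n - j)),
    Submodule.smul_mem _ _ (Submodule.sum_mem _ fun j _ => Submodule.smul_mem _ _ ?_), ?_⟩
  · have h2 := C.mul_mem (hv ((j : ℕ) + 1) (by omega)) (h1 (n - j))
    refine gr_congr ?_ h2
    have := j.2
    omega
  · rw [chern, mul_smul_comm, Finset.mul_sum]
    congr 1
    refine Finset.sum_congr rfl fun j _ => ?_
    rw [mul_smul_comm, h _ (by omega), mul_assoc]

omit hC in
/-- The first Chern class which does not vanish. -/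
lemma chern_lowest {c : ℕ} {p : ℕ → C.A X} (h : ∀ j : ℕ, 1 ≤ j → j < c → p j = 0) :
    (∀ n : ℕ, 1 ≤ n → n < c → chern p n = 0) ∧
      (1 ≤ c → chern p c = ((-1 : ℚ) ^ (c - 1) * ((c - 1).factorial : ℚ)) • p c) := by
  constructor
  · intro n hn hnc
    obtain ⟨n, rfl⟩ : ∃ m, n = m + 1 := ⟨n - 1, by omega⟩
    rw [chern, Finset.sum_eq_zero, smul_zero]
    intro j _
    rw [h _ (by omega) (by have := j.2; omega), zero_mul, smul_zero]
  · intro hc
    obtain ⟨n, rfl⟩ : ∃ m, c = m + 1 := ⟨c - 1, by omega⟩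
    rw [chern, Fin.sum_univ_castSucc, Finset.sum_eq_zero, zero_add]
    · simp only [Fin.val_last, Nat.sub_self, Nat.add_sub_cancel]
      rw [chern, mul_one, smul_smul]
      congr 1
      rw [Nat.factorial_succ]
      push_cast
      field_simp
    · intro j _
      rw [h _ (by omega) (by have := j.2; simp), zero_mul, smul_zero]

end Pool.Agent.Q72.DP
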