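import Pool.Agent.Q72.DP.SubDefs
import Pool.Agent.Q72.DP.Codim
import Pool.Agent.Q69.Prime.Hom

/-!
# Subalgebras of the Chow ring on which the cycle class map is injective
-/

open CategoryTheory AlgebraicGeometry

universe u v w

namespace Pool.Agent.Q72.DP

open Pool.Agent.H914 Pool.Agent.H914.VarClass Pool.Agent.H914.VarClass.Obj Pool.Agent.W492.BB
  Pool.Agent.W550.Corr Pool.Agent.TH133 Pool.Agent.TH829.Prime Pool.Agent.Q69.Prime

set_option linter.unusedSectionVars false

variable {k : Type u} [Field k] {𝒱 : VarClass k} {C : TheoryData.{u, v, 0} 𝒱 ℚ}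
  [hC : IsChowProj C] {X Y : 𝒱.Obj}

include hC

lemma IsComp.pow_in (R : Subalgebra ℚ (C.A X)) {x : C.A X} {p : ℕ → C.A X} (hp : IsComp C x p)
    (h0 : p 0 = 1) (hR : ∀ j, p j ∈ R) (n : ℕ) :
    ∃ q, IsComp C (x ^ n) q ∧ q 0 = 1 ∧ ∀ j, q j ∈ R := by
  induction n with
  | zero =>
    refine ⟨_, by simpa using isComp_natCast (C := C) X 1, by simp, fun j => ?_⟩
    by_cases h : j = 0
    · simp [h]
    · simp [h]
  | succ n ih =>
    obtain ⟨q, hq, hq0, hqR⟩ := ih
    refine ⟨_, by rw [pow_succ]; exact hq.mul hp, ?_, fun j => ?_⟩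
    · have h1 : Finset.HasAntidiagonal.antidiagonal (0 : ℕ) = {(0, 0)} := by decide
      rw [h1, Finset.sum_singleton, hq0, h0, mul_one]
    · exact Subalgebra.sum_mem _ fun ij _ => Subalgebra.mul_mem _ (hqR _) (hR _)

omit hC in
lemma chern_in (R : Subalgebra ℚ (C.A X)) {p : ℕ → C.A X} (hp : ∀ j : ℕ, p (j + 1) ∈ R) (n : ℕ) :
    chern p n ∈ R := by
  induction n using Nat.strong_induction_on with
  | _ n ih =>
    rcases n with _ | n
    · rw [chern]
      exact Subalgebra.one_mem _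
    · rw [chern]
      refine Subalgebra.smul_mem _ (Subalgebra.sum_mem _ fun j _ => Subalgebra.smul_mem _
        (Subalgebra.mul_mem _ (hp _) (ih _ (by omega))) _) _

/-- The bundle attached to a class of a subalgebra containing the divisors has its Chern classes in
the subalgebra. -/
theorem exists_bundle_in {B : BundleData C} (hB : B.IsKTheory) (hL : B.SerreLine)
    (R : Subalgebra ℚ (C.A X)) (hR : ∀ D : C.A X, C.Deg 1 D → D ∈ R) {c : ℕ} (hc : 1 ≤ c)
    {z : C.A X} (hz : C.Deg c z) (hzR : z ∈ R) :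
    ∃ (e : B.K X) (m : ℕ) (d : ℕ → C.A X) (q : ℚ), B.IsVec e m d ∧ c ≤ m ∧ q ≠ 0 ∧
      d c = q • z ∧ (∀ i, d i ∈ R) ∧ ∀ i : ℕ, 1 ≤ i → ∃ u, d i = z * u := by
  obtain ⟨N, hN, a, ha⟩ := hB.chow z
  obtain ⟨e, he, e', he', hae⟩ := hB.diff a
  obtain ⟨o, ho, ⟨y, hy, hy0, hyj⟩, hS⟩ := hL X
  obtain ⟨r, M, q, hq, hqe⟩ := hS e' he'
  have hy1 : y 1 ∈ R := hR _ (gr_congr (by simp) (hy.deg 1))
  obtain ⟨y', hy', hy0', hyR⟩ := hy.pow_in R hy0 (fun j => by
    rw [hyj j]
    exact Subalgebra.smul_mem _ (Subalgebra.pow_mem _ hy1 j) _) r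
  have hE : e * o ^ r + q + ((c : ℕ) : B.K X) ∈ B.vec X :=
    hB.add_mem (hB.add_mem (hB.mul_mem he (pow_mem_vec hB ho r)) hq)
      (natCast_mem hB X (by omega))
  have hchE : B.ch X (e * o ^ r + q + ((c : ℕ) : B.K X)) =
      ((N : ℚ) • z) * (B.ch X o) ^ r + ((M + c : ℕ) : C.A X) := by
    have e1 : e * o ^ r + q + ((c : ℕ) : B.K X) = a * o ^ r + ((M + c : ℕ) : B.K X) := by
      have e2 : ((M + c : ℕ) : B.K X) = e' * o ^ r + q + ((c : ℕ) : B.K X) := by
        rw [hqe]; exact Nat.cast_add M c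
      rw [e2, hae]; ring
    rw [e1, map_add, map_mul, map_pow, ha, map_natCast]
  have hNz : ((N : ℚ) • z) ∈ C.gr X (c : ℤ) := Submodule.smul_mem _ _ hz
  have hp : IsComp C (B.ch X (e * o ^ r + q + ((c : ℕ) : B.K X)))
      (fun j => (if c ≤ j then ((N : ℚ) • z) * y' (j - c) else 0) +
        (if j = 0 then ((M + c : ℕ) : C.A X) else 0)) := by
    rw [hchE]
    exact (hy'.mul_left hNz).add (isComp_natCast X (M + c))
  set p : ℕ → C.A X := fun j => (if c ≤ j then ((N : ℚ) • z) * y' (j - c) else 0) +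
        (if j = 0 then ((M + c : ℕ) : C.A X) else 0) with hpdef
  have hp0 : p 0 = ((M + c : ℕ) : C.A X) := by
    simp only [hpdef, if_true]
    rw [if_neg (by omega), zero_add]
  have hvec : B.IsVec (e * o ^ r + q + ((c : ℕ) : B.K X)) (M + c) (chern p) :=
    ⟨hE, by omega, p, hp, hp0, rfl⟩
  have hv := chern_dvd (z := z) (c := c) (p := p)
    (v := fun j => if c ≤ j then (N : ℚ) • y' (j - c) else 0) hp.deg (by
      intro j _
      split_ifs with h
      · refine Submodule.smul_mem _ _ (gr_congr ?_ (hy'.deg (j - c)))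
        push_cast [h]; ring
      · exact Submodule.zero_mem _) (by
      intro j hj
      simp only [hpdef]
      rw [if_neg (show ¬ j = 0 by omega), add_zero]
      split_ifs with h
      · rw [smul_mul_assoc, mul_smul_comm]
      · rw [mul_zero])
  have hlow := chern_lowest (c := c) (p := p) (by
    intro j h1 h2
    simp only [hpdef]
    rw [if_neg (by omega), if_neg (by omega), add_zero])
  have hpc : p c = (N : ℚ) • z := by
    simp only [hpdef]
    rw [if_pos le_rfl, if_neg (by omega), add_zero, Nat.sub_self, hy0', mul_one]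
  refine ⟨_, M + c, chern p, ((-1 : ℚ) ^ (c - 1) * ((c - 1).factorial : ℚ)) * N, hvec, by omega,
    ?_, ?_, ?_, ?_⟩
  · refine mul_ne_zero (mul_ne_zero (pow_ne_zero _ (by norm_num)) ?_) ?_
    · exact_mod_cast Nat.factorial_ne_zero _
    · exact_mod_cast (by omega : N ≠ 0)
  · rw [hlow.2 hc, hpc, smul_smul]
  · apply chern_in
    intro j
    simp only [hpdef]
    rw [if_neg (show ¬ j + 1 = 0 by omega), add_zero]
    split_ifs
    · exact Subalgebra.mul_mem _ (Subalgebra.smul_mem _ hzR _) (hyR _)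
    · exact Subalgebra.zero_mem _
  · intro i hi
    obtain ⟨u, -, hu⟩ := hv.2 i hi
    exact ⟨u, hu⟩

/-- The elements of the subalgebra generated by homogeneous classes have their components in it. -/
lemma genAlg_comp {Z : Set (C.A X)} (hZ : ∀ z ∈ Z, ∃ j : ℕ, C.Deg j z) {z : C.A X}
    (hz : z ∈ genAlg Z) : ∃ p : ℕ → C.A X, IsComp C z p ∧ ∀ j, p j ∈ genAlg Z := by
  have hmon : ∀ x ∈ Submonoid.closure ({D | C.Deg 1 D} ∪ Z), ∃ j : ℕ, C.Deg j x := by
    intro x hx
    induction hx using Submonoid.closure_induction with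
    | mem x hx =>
      rcases hx with hx | hx
      · exact ⟨1, gr_congr (by simp) hx⟩
      · exact hZ x hx
    | one => exact ⟨0, gr_congr (by simp) (C.one_mem X)⟩
    | mul x y _ _ hx hy =>
      obtain ⟨i, hi⟩ := hx
      obtain ⟨j, hj⟩ := hy
      exact ⟨i + j, gr_congr (by push_cast; ring) (C.mul_mem hi hj)⟩
  have hz' : z ∈ Submodule.span ℚ (Submonoid.closure ({D | C.Deg 1 D} ∪ Z) : Set (C.A X)) := by
    rw [← Algebra.adjoin_eq_span]
    exact hz
  induction hz' using Submodule.span_induction with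
  | mem x hx =>
    have hxR : x ∈ genAlg Z := by
      have h1 : x ∈ Subalgebra.toSubmodule (Algebra.adjoin ℚ ({D | C.Deg 1 D} ∪ Z)) := by
        rw [Algebra.adjoin_eq_span]
        exact Submodule.subset_span hx
      exact h1
    obtain ⟨i, hi⟩ := hmon x hx
    refine ⟨fun j => if j = i then x else 0, ⟨fun j => ?_, fun j hj => ?_, ?_⟩, fun j => ?_⟩
    · by_cases h : j = i
      · subst h
        rw [if_pos rfl]
        exact hi
      · rw [if_neg h]
        exact Submodule.zero_mem _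
    · by_cases h : j = i
      · subst h
        simp only [if_true]
        exact top_zero hi (by exact_mod_cast hj)
      · simp only [h, if_false]
    · rw [Finset.sum_ite_eq' (Finset.range (X.dim + 1)) i (fun _ => x)]
      by_cases h : i ∈ Finset.range (X.dim + 1)
      · rw [if_pos h]
      · rw [if_neg h]
        rw [Finset.mem_range] at h
        exact top_zero hi (by exact_mod_cast (by omega : X.dim < i))
    · by_cases h : j = i
      · simp only [h, if_true]
        exact hxR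
      · simp only [h, if_false]
        exact Subalgebra.zero_mem _
  | zero =>
    refine ⟨fun _ => 0, ⟨fun j => Submodule.zero_mem _, fun _ _ => rfl, by simp⟩,
      fun j => Subalgebra.zero_mem _⟩
  | add x y hx hy ihx ihy =>
    have hx' : x ∈ genAlg Z := by
      have h1 : x ∈ Subalgebra.toSubmodule (Algebra.adjoin ℚ ({D | C.Deg 1 D} ∪ Z)) := by
        rw [Algebra.adjoin_eq_span]
        exact hx
      exact h1
    have hy' : y ∈ genAlg Z := by
      have h1 : y ∈ Subalgebra.toSubmodule (Algebra.adjoin ℚ ({D | C.Deg 1 D} ∪ Z)) := by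
        rw [Algebra.adjoin_eq_span]
        exact hy
      exact h1
    obtain ⟨p, hp, hpR⟩ := ihx hx'
    obtain ⟨q, hq, hqR⟩ := ihy hy'
    exact ⟨_, hp.add hq, fun j => Subalgebra.add_mem _ (hpR j) (hqR j)⟩
  | smul r x hx ihx =>
    have hx' : x ∈ genAlg Z := by
      have h1 : x ∈ Subalgebra.toSubmodule (Algebra.adjoin ℚ ({D | C.Deg 1 D} ∪ Z)) := by
        rw [Algebra.adjoin_eq_span]
        exact hx
      exact h1
    obtain ⟨p, hp, hpR⟩ := ihx hx'
    exact ⟨_, hp.smul r, fun j => Subalgebra.smul_mem _ (hpR j) _⟩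

variable {K : Type w} [Field K] {H : WeilTheoryData.{u, v, w} C K} [hH : IsWeilProj H]

include hH

/-- The components of a homologically trivial class are homologically trivial. -/
lemma cl_comp_zero {x : C.A X} {p : ℕ → C.A X} (hp : IsComp C x p) (hx : H.cl x = 0) (j : ℕ) :
    H.cl (p j) = 0 := by
  by_cases hj : X.dim < j
  · rw [hp.out j hj, map_zero]
  · have h1 := (hH.isTheory.isGradedRing.isInternal X).submodule_iSupIndep
    rw [iSupIndep_iff_finsetSum_eq_zero_imp_eq_zero] at h1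
    have h2 : ∑ i ∈ (Finset.range (X.dim + 1)).image (fun j : ℕ => 2 * (j : ℤ)),
        H.cl (p (i / 2).toNat) = 0 := by
      rw [Finset.sum_image (by
        intro a _ b _ h
        simpa using h)]
      have e : ∀ j : ℕ, ((2 * (j : ℤ)) / 2).toNat = j := by intro j; omega
      simp only [e]
      rw [← map_sum, ← hp.sum, hx]
    have h3 := h1 _ (fun i => H.cl (p (i / 2).toNat)) (by
      intro i hi
      rw [Finset.mem_image] at hi
      obtain ⟨j, -, rfl⟩ := hi
      have e : ((2 * (j : ℤ)) / 2).toNat = j := by omega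
      simp only [e]
      exact hH.isClassMap.cl_mem (hp.deg j)) h2 (2 * (j : ℤ)) (by
        rw [Finset.mem_image]
        exact ⟨j, by rw [Finset.mem_range]; omega, rfl⟩)
    have e : ((2 * (j : ℤ)) / 2).toNat = j := by omega
    simp only [e] at h3
    exact h3

lemma cl_mul_zero {x y : C.A X} (hx : H.cl x = 0) : H.cl (x * y) = 0 := by
  rw [map_mul, hx, zero_mul]

lemma cl_pull_zero {f : X ⟶ Y} {y : C.A Y} (hy : H.cl y = 0) : H.cl (C.pull f y) = 0 := by
  have h := hH.isClassMap.cl_pull f y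
  rw [hy, TheoryData.up, TheoryData.up, map_zero] at h
  exact h

lemma cl_push_zero {f : X ⟶ Y} {x : C.A X} (hx : H.cl x = 0) : H.cl (C.push f x) = 0 := by
  have h := hH.isClassMap.cl_push f x
  rw [hx, TheoryData.down, TheoryData.down, map_zero] at h
  exact h

omit hH in
/-- The relation `ξ^m = 0` from the vanishing of the Chern classes. -/
lemma taut_zero {P : 𝒱.Obj} {f : P ⟶ X} {m : ℕ} {c : ℕ → C.A X} {ξ : C.A P}
    (h : IsProjBundle C f m c ξ) (h0 : c 0 = 1) (hc : ∀ i : ℕ, 1 ≤ i → i ≤ m → c i = 0) :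
    ξ ^ m = 0 := by
  rw [h.pow_eq h0, Finset.sum_eq_zero, _root_.neg_zero]
  intro i hi
  rw [Finset.mem_range] at hi
  rw [hc (i + 1) (by omega) (by omega), map_zero, zero_mul]

/-- The same in cohomology. -/
lemma taut_cl_zero {P : 𝒱.Obj} {f : P ⟶ X} {m : ℕ} {c : ℕ → C.A X} {ξ : C.A P}
    (h : IsProjBundle C f m c ξ) (h0 : c 0 = 1) (hc : ∀ i : ℕ, 1 ≤ i → i ≤ m → H.cl (c i) = 0) :
    H.cl (ξ ^ m) = 0 := by
  rw [h.pow_eq h0, map_neg, map_sum, Finset.sum_eq_zero, _root_.neg_zero]
  intro i hi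
  rw [Finset.mem_range] at hi
  exact cl_mul_zero (cl_pull_zero (hc (i + 1) (by omega) (by omega)))

/-- The elements of the form `∑ f^*(a_i) ξ^i`, `i < r`, with `a_i ∈ R`. -/
def InSpan {P : 𝒱.Obj} (f : P ⟶ X) (r : ℕ) (ξ : C.A P) (R : Subalgebra ℚ (C.A X)) (x : C.A P) :
    Prop := ∃ a : ℕ → C.A X, (∀ i, a i ∈ R) ∧ x = ∑ i ∈ Finset.range r, C.pull f (a i) * ξ ^ i

omit hH in
lemma InSpan.add {P : 𝒱.Obj} {f : P ⟶ X} {r : ℕ} {ξ : C.A P} {R : Subalgebra ℚ (C.A X)}
    {x y : C.A P} (hx : InSpan f r ξ R x) (hy : InSpan f r ξ R y) : InSpan f r ξ R (x + y) := by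
  obtain ⟨a, ha, rfl⟩ := hx
  obtain ⟨b, hb, rfl⟩ := hy
  refine ⟨fun i => a i + b i, fun i => Subalgebra.add_mem _ (ha i) (hb i), ?_⟩
  rw [← Finset.sum_add_distrib]
  refine Finset.sum_congr rfl fun i _ => ?_
  rw [map_add, add_mul]

omit hH in
lemma InSpan.pull_mul {P : 𝒱.Obj} {f : P ⟶ X} {r : ℕ} {ξ : C.A P} {R : Subalgebra ℚ (C.A X)}
    {b : C.A X} (hb : b ∈ R) {x : C.A P} (hx : InSpan f r ξ R x) :
    InSpan f r ξ R (C.pull f b * x) := by
  obtain ⟨a, ha, rfl⟩ := hx
  refine ⟨fun i => b * a i, fun i => Subalgebra.mul_mem _ hb (ha i), ?_⟩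
  rw [Finset.mul_sum]
  refine Finset.sum_congr rfl fun i _ => ?_
  rw [map_mul, mul_assoc]

omit hH in
lemma InSpan.sum {P : 𝒱.Obj} {f : P ⟶ X} {r : ℕ} {ξ : C.A P} {R : Subalgebra ℚ (C.A X)}
    {s : Finset ℕ} {x : ℕ → C.A P} (hx : ∀ i ∈ s, InSpan f r ξ R (x i)) :
    InSpan f r ξ R (∑ i ∈ s, x i) := by
  classical
  induction s using Finset.induction_on with
  | empty =>
    refine ⟨fun _ => 0, fun _ => Subalgebra.zero_mem _, ?_⟩
    rw [Finset.sum_empty, Finset.sum_eq_zero]
    intro i _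
    rw [map_zero, zero_mul]
  | insert i s hi ih =>
    rw [Finset.sum_insert hi]
    exact (hx i (Finset.mem_insert_self _ _)).add
      (ih fun j hj => hx j (Finset.mem_insert_of_mem hj))

omit hH in
lemma inSpan_pow {P : 𝒱.Obj} {f : P ⟶ X} {r : ℕ} {ξ : C.A P} {R : Subalgebra ℚ (C.A X)} {s : ℕ}
    (hs : s < r) : InSpan f r ξ R (ξ ^ s) := by
  refine ⟨fun i => if i = s then 1 else 0, fun i => ?_, ?_⟩
  · by_cases h : i = s
    · simp only [h, if_true]
      exact Subalgebra.one_mem _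
    · simp only [h, if_false]
      exact Subalgebra.zero_mem _
  · rw [Finset.sum_eq_single s]
    · simp only [if_true, map_one, one_mul]
    · intro i _ hi
      simp only [if_neg hi, map_zero, zero_mul]
    · intro h
      rw [Finset.mem_range] at h
      exact absurd hs h

omit hH in
lemma InSpan.taut_mul {P : 𝒱.Obj} {f : P ⟶ X} {r : ℕ} {c : ℕ → C.A X} {ξ : C.A P}
    {R : Subalgebra ℚ (C.A X)} (h : IsProjBundle C f r c ξ) (h0 : c 0 = 1) (hc : ∀ i, c i ∈ R)
    {x : C.A P} (hx : InSpan f r ξ R x) : InSpan f r ξ R (ξ * x) := by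
  obtain ⟨a, ha, rfl⟩ := hx
  rw [Finset.mul_sum]
  refine InSpan.sum fun i hi => ?_
  rw [Finset.mem_range] at hi
  have e : ξ * (C.pull f (a i) * ξ ^ i) = C.pull f (a i) * ξ ^ (i + 1) := by
    rw [← mul_assoc, ch_comm C ξ, mul_assoc, ← pow_succ']
  rw [e]
  refine InSpan.pull_mul (ha i) ?_
  rcases Nat.lt_or_ge (i + 1) r with hr | hr
  · exact inSpan_pow hr
  · have hr' : i + 1 = r := by omega
    rw [hr', h.pow_eq h0]
    have e2 : -∑ i ∈ Finset.range r, C.pull f (c (i + 1)) * ξ ^ (r - (i + 1)) =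
        ∑ i ∈ Finset.range r, C.pull f (-c (i + 1)) * ξ ^ (r - (i + 1)) := by
      rw [← Finset.sum_neg_distrib]
      refine Finset.sum_congr rfl fun i _ => ?_
      rw [map_neg, neg_mul]
    rw [e2]
    refine InSpan.sum fun j hj => ?_
    rw [Finset.mem_range] at hj
    exact InSpan.pull_mul (Subalgebra.neg_mem _ (hc _)) (inSpan_pow (by omega))

omit hH in
lemma InSpan.pow_mul {P : 𝒱.Obj} {f : P ⟶ X} {r : ℕ} {c : ℕ → C.A X} {ξ : C.A P}
    {R : Subalgebra ℚ (C.A X)} (h : IsProjBundle C f r c ξ) (h0 : c 0 = 1) (hc : ∀ i, c i ∈ R)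
    {x : C.A P} (hx : InSpan f r ξ R x) (n : ℕ) : InSpan f r ξ R (ξ ^ n * x) := by
  induction n with
  | zero => rwa [pow_zero, one_mul]
  | succ n ih => rw [pow_succ', mul_assoc]; exact ih.taut_mul h h0 hc

omit hH in
lemma InSpan.mul {P : 𝒱.Obj} {f : P ⟶ X} {r : ℕ} {c : ℕ → C.A X} {ξ : C.A P}
    {R : Subalgebra ℚ (C.A X)} (h : IsProjBundle C f r c ξ) (h0 : c 0 = 1) (hc : ∀ i, c i ∈ R)
    {x y : C.A P} (hx : InSpan f r ξ R x) (hy : InSpan f r ξ R y) : InSpan f r ξ R (x * y) := by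
  obtain ⟨a, ha, rfl⟩ := hx
  rw [Finset.sum_mul]
  refine InSpan.sum fun i _ => ?_
  rw [mul_assoc]
  exact InSpan.pull_mul (ha i) (hy.pow_mul h h0 hc i)

/-- The injectivity of the cycle class map passes from `R` to the algebra `R[ξ]`. -/
lemma InSpan.zero_of_cl {P : 𝒱.Obj} {f : P ⟶ X} {r : ℕ} {c : ℕ → C.A X} {ξ : C.A P}
    {R : Subalgebra ℚ (C.A X)} (h : IsProjBundle C f r c ξ) (hR : ClInjective H R)
    {x : C.A P} (hx : InSpan f r ξ R x) (hcl : H.cl x = 0) : x = 0 := by
  obtain ⟨a, ha, hxa⟩ := hx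
  suffices Hs : ∀ s : ℕ, s ≤ r → ∀ x : C.A P, H.cl x = 0 →
      x = ∑ i ∈ Finset.range s, C.pull f (a i) * ξ ^ i → x = 0 from Hs r le_rfl x hcl hxa
  intro s
  induction s with
  | zero =>
    intro _ x _ h0
    rw [h0, Finset.range_zero, Finset.sum_empty]
  | succ s ih =>
    intro hs x hx hxa
    have h1 : C.push f (x * ξ ^ (r - 1 - s)) = a s := by
      rw [hxa, Finset.sum_mul, map_sum, Finset.sum_eq_single s]
      · rw [mul_assoc, ← pow_add, C.proj_left]
        have e1 : s + (r - 1 - s) = r - 1 := by omega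
        have h4 : C.push f (ξ ^ (r - 1)) = 1 := by
          have := h.push_pow (r - 1) (by omega)
          rwa [if_pos (by omega)] at this
        rw [e1, h4, mul_one]
      · intro i hi hne
        rw [Finset.mem_range] at hi
        rw [mul_assoc, ← pow_add, C.proj_left]
        have h4 : C.push f (ξ ^ (i + (r - 1 - s))) = 0 := by
          have := h.push_pow (i + (r - 1 - s)) (by omega)
          rwa [if_neg (by omega)] at this
        rw [h4, mul_zero]
      · intro hne
        rw [Finset.mem_range] at hne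
        omega
    have h2 : a s = 0 := by
      apply hR _ (ha s)
      rw [← h1]
      exact cl_push_zero (cl_mul_zero hx)
    apply ih (by omega) x hx
    rw [hxa, Finset.sum_range_succ, h2, map_zero, zero_mul, add_zero]

theorem sub_tfae {B : BundleData C} (hB : B.IsKTheory) (hL : B.SerreLine) {Z : Set (C.A X)}
    (hZ : ∀ z ∈ Z, ∃ j : ℕ, C.Deg j z) :
    [ClInjective H (genAlg Z), ChernClInjective H B (genAlg Z), TautClInjective H B (genAlg Z),
      PowersClInjective H B (genAlg Z)].TFAE := by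
  have hdiv : ∀ D : C.A X, C.Deg 1 D → D ∈ genAlg Z := fun D hD =>
    Algebra.subset_adjoin (Or.inl hD)
  have hS := (isPrime_homFam (H := H)).toIsAdequate
  tfae_have 1 → 2 := by
    intro h e m c _ hc i h1 h2
    exact h _ (hc i h1 h2).1 (hc i h1 h2).2
  tfae_have 2 → 3 := by
    intro h e m c P f ξ hv _ hP hc hm
    have h0 := IsVec_zero hv
    have h1 := chern_mem hS hP h0 ⟨pow_mem1 hP.deg m, hm⟩
    exact taut_zero hP h0 (h e m c hv fun i h2 h3 => ⟨hc i, (h1 i h2 h3).2⟩)
  tfae_have 3 → 1 := by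
    intro h z hz hcl
    obtain ⟨p, hp, hpR⟩ := genAlg_comp hZ hz
    have key : ∀ j, p j = 0 := by
      intro j
      have hj := cl_comp_zero hp hcl j
      rcases Nat.eq_zero_or_pos j with h0 | h0
      · subst h0
        obtain ⟨q, hq⟩ := hC.gr_zero X (p 0) (by simpa using hp.deg 0)
        by_cases hq0 : q = 0
        · rw [hq, hq0, zero_smul]
        · exfalso
          have h5 : (1 : C.A X) = q⁻¹ • p 0 := by
            rw [hq, smul_smul, inv_mul_cancel₀ hq0, one_smul]
          have h8 : q⁻¹ • p 0 ∈ homFam H X 0 :=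
            Submodule.smul_mem _ _ ⟨by simpa using hp.deg 0, hj⟩
          rw [← h5] at h8
          exact (isPrime_homFam (H := H)).one_notMem X h8
      · obtain ⟨e, m, d, q, hv, hcm, hq, hdc, hdR, hdu⟩ :=
          exists_bundle_in hB hL (genAlg Z) hdiv h0 (hp.deg j) (hpR j)
        obtain ⟨P, f, ξ, hpr, hP⟩ := hB.bundle e m d hv
        have h0' := IsVec_zero hv
        have h1 : H.cl (ξ ^ m) = 0 := by
          apply taut_cl_zero hP h0'
          intro i hi _
          obtain ⟨u, hu⟩ := hdu i hi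
          rw [hu]
          exact cl_mul_zero hj
        have h2 := h e m d P f ξ hv hpr hP hdR h1
        have h3 := chern_mem (isAdequate_bot (C := C)) hP h0' (by
          rw [h2]; exact Submodule.zero_mem _) j h0 hcm
        have h4 : d j = 0 := (Submodule.mem_bot ℚ).1 h3
        rw [hdc] at h4
        exact (smul_eq_zero.1 h4).resolve_left hq
    rw [hp.sum, Finset.sum_eq_zero fun j _ => key j]
  tfae_have 1 → 4 := by
    intro h e r c P f ξ hv _ hP hc G m hG hm
    have h0 := IsVec_zero hv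
    obtain ⟨a, ha, hGa⟩ := hP.span 1 G hG
    have haR : ∀ i, a i ∈ genAlg Z := by
      intro i
      rcases Nat.eq_zero_or_pos i with hi | hi
      · subst hi
        exact hdiv _ (gr_congr (by simp) (ha 0))
      · rcases Nat.lt_or_ge 1 i with hi' | hi'
        · rw [neg_zero (ha i) (by omega)]
          exact Subalgebra.zero_mem _
        · have : i = 1 := by omega
          subst this
          obtain ⟨q, hq⟩ := hC.gr_zero X (a 1) (gr_congr (by simp) (ha 1))
          rw [hq]
          exact Subalgebra.smul_mem _ (Subalgebra.one_mem _) _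
    have hGs : InSpan f r ξ (genAlg Z) G := ⟨a, haR, hGa⟩
    have hpow : ∀ n : ℕ, InSpan f r ξ (genAlg Z) (G ^ n) := by
      intro n
      induction n with
      | zero =>
        rw [pow_zero, ← pow_zero ξ]
        exact inSpan_pow hP.pos
      | succ n ih =>
        rw [pow_succ]
        exact ih.mul hP h0 hc hGs
    exact (hpow m).zero_of_cl hP h hm
  tfae_have 4 → 3 := by
    intro h e m c P f ξ hv hpr hP hc hm
    exact h e m c P f ξ hv hpr hP hc ξ m hP.deg hm
  tfae_finish

end Pool.Agent.Q72.DP
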