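import Pool.Agent.Q72.DP.CorrDefs
import Pool.Agent.Q72.DP.Sub

/-!
# Correspondences on surfaces acting on the Albanese kernel
-/

open CategoryTheory AlgebraicGeometry

universe u v w

namespace Pool.Agent.Q72.DP

open Pool.Agent.H914 Pool.Agent.H914.VarClass Pool.Agent.H914.VarClass.Obj Pool.Agent.W492.BB
  Pool.Agent.W550.Corr Pool.Agent.TH133 Pool.Agent.TH829.Prime Pool.Agent.Q69.Prime

set_option linter.unusedSectionVars false

variable {k : Type u} [Field k] {𝒱 : VarClass k} {C : TheoryData.{u, v, 0} 𝒱 ℚ}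
  [hC : IsChowProj C] {X Y : 𝒱.Obj}

include hC

lemma ActsZero.smul {Γ : C.A (X.prod Y)} {T : Submodule ℚ (C.A X)} (h : ActsZero Γ T) (q : ℚ) :
    ActsZero (q • Γ) T := by
  intro z hz
  rw [← actB_apply, map_smul, LinearMap.smul_apply, actB_apply, h z hz, smul_zero]

lemma ActsZero.add {Γ Δ : C.A (X.prod Y)} {T : Submodule ℚ (C.A X)} (h : ActsZero Γ T)
    (h' : ActsZero Δ T) : ActsZero (Γ + Δ) T := by
  intro z hz
  rw [← actB_apply, map_add, LinearMap.add_apply, actB_apply, actB_apply, h z hz, h' z hz, add_zero]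

lemma ActsZero.of_smul {Γ : C.A (X.prod Y)} {T : Submodule ℚ (C.A X)} {q : ℚ} (hq : q ≠ 0)
    (h : ActsZero (q • Γ) T) : ActsZero Γ T := by
  have h1 := h.smul q⁻¹
  rwa [smul_smul, inv_mul_cancel₀ hq, one_smul] at h1

lemma ActsZero.neg {Γ : C.A (X.prod Y)} {T : Submodule ℚ (C.A X)} (h : ActsZero Γ T) :
    ActsZero (-Γ) T := by
  have h1 := h.smul (-1)
  rwa [neg_smul, one_smul] at h1

variable {K : Type w} [Field K] {H : WeilTheoryData.{u, v, w} C K} [hH : IsWeilProj H]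

include hH

theorem corr_tfae {B : BundleData C} (hB : B.IsKTheory) {T : Submodule ℚ (C.A X)}
    {Z : C.A (X.prod Y) → Prop} (hZ : IsTwoForm H T Z) :
    [BlochCorr T Z, HomCorr H (Y := Y) T, BundleCorr H B (Y := Y) T,
      TautCorr H B (Y := Y) T].TFAE := by
  have hS := (isPrime_homFam (H := H)).toIsAdequate
  tfae_have 1 → 2 := by
    intro h Γ hΓ hcl
    exact h Γ hΓ (hZ.of_hom Γ hΓ hcl)
  tfae_have 2 → 1 := by
    intro h Γ hΓ hz
    obtain ⟨Γ', hΓ', hcl, h0⟩ := hZ.split Γ hΓ hz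
    have h1 := h (Γ - Γ') (Submodule.sub_mem _ hΓ hΓ') (by rw [map_sub, hcl, sub_self])
    have h2 := h1.add h0
    rwa [sub_add_cancel] at h2
  tfae_have 2 → 3 := by
    intro h e m c hv hm _ hc
    exact h (c 2) (IsVec_deg hv 2) (hc 2 le_rfl hm)
  tfae_have 3 → 4 := by
    rintro h P f m ξ ⟨e, c, hv, -, hP⟩ hm hpush hcl
    have h0 := IsVec_zero hv
    have hlow : ∀ i : ℕ, 1 ≤ i → i < 2 → c i = 0 := by
      apply (push_zero_iff hP h0 hm).1
      intro i h1 h2
      have : i = 1 := by omega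
      subst this
      have e1 : m + 1 - 1 = m := by omega
      rw [e1]
      exact hpush
    have h1 := chern_mem hS hP h0 ⟨pow_mem1 hP.deg m, hcl⟩
    have h2 := h e m c hv hm (hlow 1 le_rfl (by omega))
      (fun i hi him => (h1 i (by omega) him).2)
    have h3 : C.down f (ξ ^ (m + 2 - 1)) = -c 2 := hP.push_eq h0 (by omega) hm hlow
    have e2 : m + 2 - 1 = m + 1 := by omega
    rw [e2] at h3
    rw [h3]
    exact h2.neg
  tfae_have 4 → 2 := by
    intro h Γ hΓ hcl
    obtain ⟨e, m, d, q, hv, -, hcm, hq, hlow, hdc, hdvd⟩ :=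
      exists_bundle hB (X := X.prod Y) (c := 2) (by omega) (by exact_mod_cast hΓ) 0
    obtain ⟨P, f, ξ, hpr, hP⟩ := hB.bundle e m d hv
    have h0 := IsVec_zero hv
    have h1 : H.cl (ξ ^ m) = 0 := by
      apply taut_cl_zero hP h0
      intro i hi _
      obtain ⟨u, -, hu⟩ := hdvd i hi
      rw [hu]
      exact cl_mul_zero hcl
    have h2 : C.down f (ξ ^ m) = 0 := by
      have h3 := (push_zero_iff hP h0 hcm).2 hlow 1 le_rfl (by omega)
      have e1 : m + 1 - 1 = m := by omega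
      rwa [e1] at h3
    have h3 := h P f m ξ ⟨e, d, hv, hpr, hP⟩ hcm h2 h1
    have h4 : C.down f (ξ ^ (m + 2 - 1)) = -d 2 := hP.push_eq h0 (by omega) hcm hlow
    have e2 : m + 2 - 1 = m + 1 := by omega
    rw [e2, hdc] at h4
    rw [h4, ← neg_smul] at h3
    exact h3.of_smul (neg_ne_zero.2 hq)
  tfae_finish

end Pool.Agent.Q72.DP
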