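import Pool.Agent.Q72.DP.Defs
import Pool.Agent.Y148.BB.Defs

/-!
# Correspondences on surfaces acting on the Albanese kernel: definitions
-/

open CategoryTheory AlgebraicGeometry

universe u v w

namespace Pool.Agent.Q72.DP

open Pool.Agent.H914 Pool.Agent.H914.VarClass Pool.Agent.H914.VarClass.Obj Pool.Agent.W492.BB
  Pool.Agent.TH133 Pool.Agent.TH829.Prime

variable {k : Type u} [Field k] {𝒱 : VarClass k} {C : TheoryData.{u, v, 0} 𝒱 ℚ}

/-- The correspondence `Γ` acts as zero on the classes in `T`. -/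
def ActsZero {X Y : 𝒱.Obj} (Γ : C.A (X.prod Y)) (T : Submodule ℚ (C.A X)) : Prop :=
  ∀ z ∈ T, C.act Γ z = 0

variable {K : Type w} [Field K] (H : WeilTheoryData.{u, v, w} C K)

/-- The known facts on the correspondences `Γ ∈ CH²(X × Y)` of surfaces `X`, `Y` which satisfy the
property `Z Γ` that `Γ` acts as zero on the holomorphic two-forms; `T` is the Albanese kernel of `X`.
Homologically trivial correspondences have the property, and a correspondence `Γ` with the property
has the same cohomology class as a correspondence `Γ'` acting as zero on the Albanese kernel (`Γ'`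
is supported on `D × Y ∪ X × D'` for curves `D`, `D'`, by the theorem of Lefschetz on `(1,1)`-classes
and the theory of Albanese and Picard varieties). -/
structure IsTwoForm {X Y : 𝒱.Obj} (T : Submodule ℚ (C.A X)) (Z : C.A (X.prod Y) → Prop) : Prop where
  of_hom : ∀ Γ : C.A (X.prod Y), C.Deg 2 Γ → H.cl Γ = 0 → Z Γ
  split : ∀ Γ : C.A (X.prod Y), C.Deg 2 Γ → Z Γ → ∃ Γ' : C.A (X.prod Y), C.Deg 2 Γ' ∧
    H.cl Γ' = H.cl Γ ∧ ActsZero Γ' T

/-- Bloch's conjecture for the correspondences `Γ ∈ CH²(X × Y)`: if `Γ` acts as zero on the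
holomorphic two-forms then it acts as zero on the Albanese kernel `T`. -/
def BlochCorr {X Y : 𝒱.Obj} (T : Submodule ℚ (C.A X)) (Z : C.A (X.prod Y) → Prop) : Prop :=
  ∀ Γ : C.A (X.prod Y), C.Deg 2 Γ → Z Γ → ActsZero Γ T

/-- The homologically trivial correspondences `Γ ∈ CH²(X × Y)` act as zero on `T`. -/
def HomCorr {X Y : 𝒱.Obj} (T : Submodule ℚ (C.A X)) : Prop :=
  ∀ Γ : C.A (X.prod Y), C.Deg 2 Γ → H.cl Γ = 0 → ActsZero Γ T

/-- For the vector bundles on `X × Y` of rank `m ≥ 2` with `c_1 = 0` and homologically trivial Chern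
classes, the class `c_2` acts as zero on `T`. -/
def BundleCorr (B : BundleData C) {X Y : 𝒱.Obj} (T : Submodule ℚ (C.A X)) : Prop :=
  ∀ (e : B.K (X.prod Y)) (m : ℕ) (c : ℕ → C.A (X.prod Y)), B.IsVec e m c → 2 ≤ m → c 1 = 0 →
    (∀ i : ℕ, 2 ≤ i → i ≤ m → H.cl (c i) = 0) → ActsZero (c 2) T

/-- For the projective bundles `f : P → X × Y` of vector bundles of rank `m ≥ 2` with tautological
class `ξ`: if `f_* (ξ^m) = 0` and `ξ^m` is homologically trivial, then the correspondence
`f_* (ξ^(m+1))` acts as zero on `T`. -/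
def TautCorr (B : BundleData C) {X Y : 𝒱.Obj} (T : Submodule ℚ (C.A X)) : Prop :=
  ∀ (P : 𝒱.Obj) (f : P ⟶ X.prod Y) (m : ℕ) (ξ : C.A P), B.IsTaut f m ξ → 2 ≤ m →
    C.down f (ξ ^ m) = 0 → H.cl (ξ ^ m) = 0 → ActsZero (C.down f (ξ ^ (m + 1))) T

end Pool.Agent.Q72.DP
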