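import Pool.Agent.Q72.DP.Defs

/-!
# Blow-ups of projective spaces and rational varieties: definitions
-/

open CategoryTheory AlgebraicGeometry

universe u v w

namespace Pool.Agent.Q72.DP

open Pool.Agent.H914 Pool.Agent.H914.VarClass Pool.Agent.H914.VarClass.Obj Pool.Agent.W492.BB
  Pool.Agent.TH133 Pool.Agent.TH829.Prime

variable {k : Type u} [Field k] {𝒱 : VarClass k} {C : TheoryData.{u, v, 0} 𝒱 ℚ}

/-- The morphism `j : E → V` is the inclusion of the exceptional divisor of the blow-up `V` of a
smooth variety along the smooth subvariety `X` of codimension `r ≥ 2`: `g : E → X` is the projective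
bundle of the normal bundle (a vector bundle of rank `r` with Chern classes `c i`), `h` is the class
of `O(1)`, and `j^* j_* x = - h x`. -/
structure IsExceptional (C : TheoryData.{u, v, 0} 𝒱 ℚ) {X E V : 𝒱.Obj} (j : E ⟶ V) (g : E ⟶ X)
    (r : ℕ) (c : ℕ → C.A X) (h : C.A E) : Prop where
  bundle : IsProjBundle C g r c h
  two_le : 2 ≤ r
  dim_eq : E.dim + 1 = V.dim
  self_int : ∀ x : C.A E, C.up j (C.down j x) = - C.mul h x

/-- The properties of the class `Rat` of rational varieties which are used: projective bundles over
rational varieties are rational, and every variety `X` is the centre of the blow-up `V` of a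
projective space along a smooth subvariety of codimension at least `2`, and `V` is rational. -/
structure IsRationalClass (B : BundleData C) (Rat : 𝒱.Obj → Prop) : Prop where
  bundle : ∀ {X P : 𝒱.Obj} (f : P ⟶ X), B.IsBundle f → Rat X → Rat P
  blowUp : ∀ X : 𝒱.Obj, ∃ (E V : 𝒱.Obj) (j : E ⟶ V) (g : E ⟶ X) (r : ℕ) (c : ℕ → C.A X)
    (h : C.A E), IsExceptional C j g r c h ∧ Rat V

end Pool.Agent.Q72.DP
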