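import Pool.Agent.Q72.DP.AJDefs
import Pool.Agent.Q72.DP.RatDefs

/-!
# Abel-Jacobi maps on cycles of a given dimension: definitions
-/

open CategoryTheory AlgebraicGeometry

universe u v w

namespace Pool.Agent.Q72.DP

open Pool.Agent.H914 Pool.Agent.H914.VarClass Pool.Agent.H914.VarClass.Obj Pool.Agent.W492.BB
  Pool.Agent.TH133 Pool.Agent.TH829.Prime

variable {k : Type u} [Field k] {𝒱 : VarClass k} {C : TheoryData.{u, v, 0} 𝒱 ℚ}
  (N : ∀ X : 𝒱.Obj, ℕ → Submodule ℚ (C.A X))

/-- The Abel-Jacobi maps, with kernels `N X j`, are injective on the cycles of dimension `i` on `X`. -/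
def InjectiveDim (X : 𝒱.Obj) (i : ℕ) : Prop := ∀ a : ℕ, X.dim = a + i → N X a = ⊥

/-- The powers `G^(dim V - i)` (classes of cycles of dimension `i`) of divisors `G` on `V` are zero
if they are in the kernel of the Abel-Jacobi map. -/
def TopPowersInjective (V : 𝒱.Obj) (i : ℕ) : Prop :=
  ∀ (n : ℕ) (G : C.A V), V.dim = n + i → C.Deg 1 G → G ^ n ∈ N V n → G ^ n = 0

/-- The powers `G^m` in the middle dimension of divisors `G` on varieties of dimension `2 m` in the
class `Rat` are zero if they are in the kernel of the Abel-Jacobi map. -/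
def MiddleAt (Rat : 𝒱.Obj → Prop) (m : ℕ) : Prop :=
  ∀ (V : 𝒱.Obj) (G : C.A V), Rat V → V.dim = 2 * m → C.Deg 1 G → G ^ m ∈ N V m → G ^ m = 0

end Pool.Agent.Q72.DP
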