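import Pool.Agent.Q72.DP.Rat
import Pool.Agent.Q72.DP.DimAJDefs
import Pool.Agent.Q72.DP.AJMain

/-!
# Powers of divisors in infinitely many codimensions
-/

open CategoryTheory AlgebraicGeometry

universe u v w

namespace Pool.Agent.Q72.DP

open Pool.Agent.H914 Pool.Agent.H914.VarClass Pool.Agent.H914.VarClass.Obj Pool.Agent.W492.BB
  Pool.Agent.W550.Corr Pool.Agent.TH133 Pool.Agent.TH829.Prime

set_option linter.unusedSectionVars false

variable {k : Type u} [Field k] {𝒱 : VarClass k} {C : TheoryData.{u, v, 0} 𝒱 ℚ}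
  [hC : IsChowProj C] {X Y : 𝒱.Obj}

include hC

/-- The construction of `exists_power` in all sufficiently large ranks. -/
theorem exists_power_exact {B : BundleData C} (hB : B.IsKTheory) {c : ℕ} (hc : 1 ≤ c) {z : C.A X}
    (hz : C.Deg c z) : ∃ m₀ : ℕ, ∀ m : ℕ, m₀ ≤ m →
    ∃ (P : 𝒱.Obj) (f : P ⟶ X) (G w : C.A P) (q : ℚ), B.IsTaut f m G ∧ C.Deg 1 G ∧
      P.dim + 1 = X.dim + m ∧ q ≠ 0 ∧ C.Deg ((m : ℤ) - c) w ∧
      G ^ m = C.pull f z * w ∧ C.push f (G ^ (m + c - 1)) = q • z := by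
  obtain ⟨N, hN, a, ha⟩ := hB.chow z
  obtain ⟨e, he, e', he', hae⟩ := hB.diff a
  obtain ⟨o, ho, ⟨y, hy, hy0⟩, hS⟩ := hB.ample X
  obtain ⟨r, M, q, hq, hqe⟩ := hS e' he'
  obtain ⟨y', hy', hy0'⟩ := hy.pow hy0 r
  refine ⟨M + c, fun m hm => ?_⟩
  obtain ⟨t, ht, hmt⟩ : ∃ t : ℕ, c ≤ t ∧ m = M + t := ⟨m - M, by omega, by omega⟩
  have hE : e * o ^ r + q + (t : B.K X) ∈ B.vec X :=
    hB.add_mem (hB.add_mem (hB.mul_mem he (pow_mem_vec hB ho r)) hq)
      (natCast_mem hB X (by omega))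
  have hchE : B.ch X (e * o ^ r + q + (t : B.K X)) =
      ((N : ℚ) • z) * (B.ch X o) ^ r + ((M + t : ℕ) : C.A X) := by
    have e1 : e * o ^ r + q + (t : B.K X) = a * o ^ r + ((M + t : ℕ) : B.K X) := by
      have e2 : ((M + t : ℕ) : B.K X) = e' * o ^ r + q + (t : B.K X) := by
        rw [hqe]; exact Nat.cast_add M t
      rw [e2, hae]; ring
    rw [e1, map_add, map_mul, map_pow, ha, map_natCast]
  have hNz : ((N : ℚ) • z) ∈ C.gr X (c : ℤ) := Submodule.smul_mem _ _ hz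
  have hp : IsComp C (B.ch X (e * o ^ r + q + (t : B.K X)))
      (fun j => (if c ≤ j then ((N : ℚ) • z) * y' (j - c) else 0) +
        (if j = 0 then ((M + t : ℕ) : C.A X) else 0)) := by
    rw [hchE]
    exact (hy'.mul_left hNz).add (isComp_natCast X (M + t))
  set p : ℕ → C.A X := fun j => (if c ≤ j then ((N : ℚ) • z) * y' (j - c) else 0) +
        (if j = 0 then ((M + t : ℕ) : C.A X) else 0) with hpdef
  have hp0 : p 0 = ((M + t : ℕ) : C.A X) := by
    simp only [hpdef, if_true]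
    rw [if_neg (by omega), zero_add]
  have hvec : B.IsVec (e * o ^ r + q + (t : B.K X)) (M + t) (chern p) :=
    ⟨hE, by omega, p, hp, hp0, rfl⟩
  obtain ⟨P, f, ξ, hpr, hP⟩ := hB.bundle _ _ _ hvec
  -- the Chern classes
  have hv := chern_dvd (z := z) (c := c) (p := p)
    (v := fun j => if c ≤ j then (N : ℚ) • y' (j - c) else 0) hp.deg (by
      intro j _
      split_ifs with h
      · refine Submodule.smul_mem _ _ (gr_congr ?_ (hy'.deg (j - c)))
        push_cast [h]; ring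
      · exact Submodule.zero_mem _) (by
      intro j hj
      simp only [hpdef]
      rw [if_neg (show ¬ j = 0 by omega), add_zero]
      split_ifs with h
      · rw [smul_mul_assoc, mul_smul_comm]
      · rw [mul_zero])
  obtain ⟨-, hv2⟩ := hv
  choose! u hu1 hu2 using hv2
  have hlow := chern_lowest (c := c) (p := p) (by
    intro j h1 h2
    simp only [hpdef]
    rw [if_neg (by omega), if_neg (by omega), add_zero])
  have hpc : p c = (N : ℚ) • z := by
    simp only [hpdef]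
    rw [if_pos le_rfl, if_neg (by omega), add_zero, Nat.sub_self, hy0', mul_one]
  have h0 : chern p 0 = 1 := by rw [chern]
  subst hmt
  refine ⟨P, f, ξ, -∑ i ∈ Finset.range (M + t), C.pull f (u (i + 1)) * ξ ^ (M + t - (i + 1)),
    -(((-1 : ℚ) ^ (c - 1) * ((c - 1).factorial : ℚ)) * N),
    ⟨_, _, hvec, hpr, hP⟩, hP.deg, hP.dim_eq, ?_, ?_, ?_, ?_⟩
  · apply neg_ne_zero.2
    refine mul_ne_zero (mul_ne_zero (pow_ne_zero _ (by norm_num)) ?_) ?_
    · exact_mod_cast Nat.factorial_ne_zero _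
    · exact_mod_cast (by omega : N ≠ 0)
  · refine Submodule.neg_mem _ (Submodule.sum_mem _ fun i hi => ?_)
    rw [Finset.mem_range] at hi
    have h1 := C.mul_mem (C.pull_mem f (hu1 (i + 1) (by omega))) (pow_mem1 hP.deg (M + t - (i + 1)))
    refine gr_congr ?_ h1
    omega
  · rw [hP.pow_eq h0, mul_neg, Finset.mul_sum]
    congr 1
    refine Finset.sum_congr rfl fun i _ => ?_
    rw [hu2 (i + 1) (by omega), map_mul, mul_assoc]
  · rw [hP.push_eq h0 hc (by omega) hlow.1, hlow.2 hc, hpc, smul_smul, neg_smul]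

/-- The comparison of a class with the powers `G^m` for one large `m`. -/
lemma mem_of_exact {B : BundleData C} (hB : B.IsKTheory) {S R : Family C} (hS : IsAdequate C S)
    (hR : IsAdequate C R) (X : 𝒱.Obj) {c : ℕ} (hc : 1 ≤ c) {z : C.A X} (hz : z ∈ S X c) :
    ∃ m₀ : ℕ, ∀ m : ℕ, m₀ ≤ m →
      (∀ (P V : 𝒱.Obj) (f : P ⟶ X) (g : V ⟶ P), B.IsBundle f → B.IsBundle g →
        ∀ G : C.A V, V.dim = 2 * m → C.Deg 1 G → G ^ m ∈ S V m → G ^ m ∈ R V m) → z ∈ R X c := by
  obtain ⟨m₀, hm₀⟩ := exists_power_exact hB (X := X) (c := c) hc (hS.le_gr _ _ hz)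
  refine ⟨m₀ + X.dim + 1, fun m hm h => ?_⟩
  obtain ⟨P, f, G, w, q, hf, hG, hd, hq, hw, h1, h2⟩ := hm₀ m (by omega)
  refine mem_of_power hS hR hc hG hd hq hw h1 h2 (fun hm => ?_) hz
  obtain ⟨c', hc'⟩ := isVec_natCast hB P (n := 2 * m - P.dim + 1) (by omega)
  obtain ⟨V, g, ξ, hpr, hV⟩ := hB.bundle _ _ _ hc'
  have h3 : (C.pull g G) ^ m ∈ R V m := by
    apply h P V f g ⟨m, G, hf⟩ ⟨_, ξ, _, _, hc', hpr, hV⟩ _ (by have := hV.dim_eq; omega)
      (C.pull_mem g hG)
    rw [← map_pow]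
    exact hS.pull_mem g hm
  rw [← map_pow] at h3
  have h4 := hR.push_mem g (hR.mul_mem h3 (pow_mem1 hV.deg (2 * m - P.dim)))
  have h5 : C.down g (C.mul (C.pull g (G ^ m)) (ξ ^ (2 * m - P.dim))) = G ^ m := by
    have h6 : C.push g (C.pull g (G ^ m) * ξ ^ (2 * m - P.dim)) = G ^ m := by
      rw [C.proj_left]
      have h7 : C.push g (ξ ^ (2 * m - P.dim)) = 1 := by
        have := hV.push_pow (2 * m - P.dim) (by omega)
        rwa [if_pos rfl] at this
      rw [h7, mul_one]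
    exact h6
  rw [h5] at h4
  exact hR.congr (by have := hV.dim_eq; omega) h4

/-- Two adequate relations agree if and only if, for infinitely many `m`, they agree on the powers
`G^m` of divisors on rational varieties of dimension `2 m`. -/
theorem compare_inf {B : BundleData C} (hB : B.IsKTheory) {Rat : 𝒱.Obj → Prop}
    (hRat : IsRationalClass B Rat) {S R : Family C} (hS : IsAdequate C S) (hR : IsAdequate C R)
    (h1 : ∀ X : 𝒱.Obj, (1 : C.A X) ∉ S X 0) :
    S ≤ R ↔ ∀ n : ℕ, ∃ m : ℕ, n ≤ m ∧ ∀ (V : 𝒱.Obj) (G : C.A V), Rat V → V.dim = 2 * m →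
      C.Deg 1 G → G ^ m ∈ S V m → G ^ m ∈ R V m := by
  constructor
  · intro h n
    exact ⟨n, le_rfl, fun V G _ _ _ hm => h V n hm⟩
  · intro h X i z hz
    have hzd := hS.le_gr _ _ hz
    rcases lt_trichotomy i 0 with hi | hi | hi
    · rw [neg_zero hzd hi]
      exact Submodule.zero_mem _
    · subst hi
      obtain ⟨q, hq⟩ := hC.gr_zero X z hzd
      by_cases hq0 : q = 0
      · rw [hq, hq0, zero_smul]
        exact Submodule.zero_mem _
      · exfalso
        apply h1 X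
        have h2 := Submodule.smul_mem _ q⁻¹ hz
        rwa [hq, smul_smul, inv_mul_cancel₀ hq0, one_smul] at h2
    · obtain ⟨c, rfl⟩ : ∃ c : ℕ, i = c := ⟨i.toNat, by omega⟩
      obtain ⟨E, V, j, g, r, d, e, hE, hV⟩ := hRat.blowUp X
      refine mem_of_blowUp hR hE (i := (c : ℤ)) ?_
      have h2 : C.push j (C.pull g z) ∈ S V ((c + 1 : ℕ) : ℤ) := by
        refine hS.congr ?_ (hS.push_mem j (hS.pull_mem g hz))
        have := hE.dim_eq
        push_cast
        omega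
      obtain ⟨m₀, hm₀⟩ := mem_of_exact hB hS hR V (c := c + 1) (by omega) h2
      obtain ⟨m, hm, hm'⟩ := h m₀
      have h3 := hm₀ m hm (fun P V' f g hf hg G hd hG hm =>
        hm' V' G (hRat.bundle g hg (hRat.bundle f hf hV)) hd hG hm)
      exact hR.congr (by push_cast; ring) h3

theorem inj_inf {N : ∀ X : 𝒱.Obj, ℕ → Submodule ℚ (C.A X)} {B : BundleData C} (hB : B.IsKTheory)
    {Rat : 𝒱.Obj → Prop} (hRat : IsRationalClass B Rat) (hN : IsAdequate C (famOf N))
    (h1 : ∀ X : 𝒱.Obj, (1 : C.A X) ∉ N X 0) :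
    (∀ X : 𝒱.Obj, AJInjective N X) ↔ ∀ n : ℕ, ∃ m : ℕ, n ≤ m ∧ MiddleAt N Rat m := by
  have h2 := compare_inf hB hRat hN (isAdequate_bot (C := C)) (fun X h => h1 X (by
    have := famOf_nat N X 0
    rw [Nat.cast_zero] at this
    rwa [← this]))
  have e1 : (∀ X : 𝒱.Obj, AJInjective N X) ↔ famOf N ≤ fun _ _ => ⊥ :=
    ⟨fun h X => famOf_le_bot.2 (h X), fun h X => famOf_le_bot.1 (h X)⟩
  rw [e1, h2]
  refine forall_congr' fun n => exists_congr fun m => and_congr_right fun _ => ?_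
  refine forall₄_congr fun V G _ _ => forall_congr' fun _ => ?_
  rw [famOf_nat, Submodule.mem_bot]

end Pool.Agent.Q72.DP
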