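import Pool.Agent.Q72.DP.CoverDefs
import Pool.Agent.Q72.DP.Exact

/-!
# Powers of divisors on coverings
-/

open CategoryTheory AlgebraicGeometry

universe u v w

namespace Pool.Agent.Q72.DP

open Pool.Agent.H914 Pool.Agent.H914.VarClass Pool.Agent.H914.VarClass.Obj Pool.Agent.W492.BB
  Pool.Agent.W550.Corr Pool.Agent.TH133 Pool.Agent.TH829.Prime

set_option linter.unusedSectionVars false

variable {k : Type u} [Field k] {𝒱 : VarClass k} {C : TheoryData.{u, v, 0} 𝒱 ℚ}
  [hC : IsChowProj C]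

include hC

theorem inj_cover {N : ∀ X : 𝒱.Obj, ℕ → Submodule ℚ (C.A X)} {B : BundleData C} (hB : B.IsKTheory)
    {Rat : 𝒱.Obj → Prop} (hRat : IsRationalClass B Rat) {Cov : 𝒱.Obj → Prop}
    (hCov : HasCoverings C Cov) (hN : IsAdequate C (famOf N))
    (h1 : ∀ X : 𝒱.Obj, (1 : C.A X) ∉ N X 0) :
    (∀ X : 𝒱.Obj, AJInjective N X) ↔ ∀ n : ℕ, ∃ m : ℕ, n ≤ m ∧ MiddleAt N Cov m := by
  constructor
  · intro h n
    refine ⟨n, le_rfl, fun V G _ _ _ hm => ?_⟩
    rw [h V n, Submodule.mem_bot] at hm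
    exact hm
  · intro h
    refine (inj_inf hB hRat hN h1).2 fun n => ?_
    obtain ⟨m, hm, hm'⟩ := h n
    refine ⟨m, hm, fun V G _ hd hG hGm => ?_⟩
    obtain ⟨W, π, q, hW, hWd, hq, hπ⟩ := hCov V
    have h2 : G ^ m ∈ famOf N V m := by rwa [famOf_nat]
    have h3 := hN.pull_mem π h2
    rw [famOf_nat] at h3
    have h4 : (C.pull π G) ^ m ∈ N W m := by
      rw [← map_pow]
      exact h3
    have h5 := hm' W (C.pull π G) hW (by omega) (C.pull_mem π hG) h4
    rw [← map_pow] at h5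
    have h6 : C.push π (C.pull π (G ^ m) * 1) = q • G ^ m := by
      rw [C.proj_left]
      have h7 : C.push π 1 = q • (1 : C.A V) := hπ
      rw [h7, mul_smul_comm, mul_one]
    rw [h5, zero_mul, map_zero] at h6
    exact (smul_eq_zero.1 h6.symm).resolve_left hq

end Pool.Agent.Q72.DP
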