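import Pool.Agent.Q72.DP.Surf

/-!
# Zero-cycles of degree zero on regular surfaces
-/

open CategoryTheory AlgebraicGeometry

universe u v w

namespace Pool.Agent.Q72.DP

open Pool.Agent.H914 Pool.Agent.H914.VarClass Pool.Agent.H914.VarClass.Obj Pool.Agent.W492.BB
  Pool.Agent.W550.Corr Pool.Agent.TH133 Pool.Agent.TH829.Prime

set_option linter.unusedSectionVars false

variable {k : Type u} [Field k] {𝒱 : VarClass k} {C : TheoryData.{u, v, 0} 𝒱 ℚ}
  [hC : IsChowProj C] {Bun : BundleClass C} {S : 𝒱.Obj}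

include hC

theorem num_tfae (hne : ∀ X : 𝒱.Obj, (1 : C.A X) ≠ 0) (hB : RankTwoBundles Bun) (hS : S.dim = 2)
    (h1 : numFam C S 1 = ⊥) :
    [Module.finrank ℚ (C.gr S 2) = 1, numFam C S 2 = ⊥, RankTwoTrivial Bun S (numFam C S 2),
      SquaresTrivial Bun S (fun P => numFam C P 2)].TFAE := by
  have h := surf_tfae hB (isAdequate_numFam hne) hS ((isPrime_numFam hne).one_notMem S) h1
  have hdim : ((2 : ℤ)) = (S.dim : ℤ) := by rw [hS]; norm_num
  have hdeg : ∀ {z : C.A S}, C.Deg 2 z → HasDegree C z 0 → z ∈ numFam C S 2 := by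
    intro z hz h0
    refine ⟨hz, fun b hb => ?_⟩
    have hb' : C.Deg 0 b := gr_congr (by rw [hS]; norm_num) hb
    obtain ⟨q, hq⟩ := hC.gr_zero S b hb'
    rw [hq, TheoryData.mul, mul_smul_comm, mul_one]
    have h2 := HasDegree.smul q h0
    rwa [mul_zero] at h2
  have hdeg' : ∀ {z : C.A S}, z ∈ numFam C S 2 → HasDegree C z 0 := by
    rintro z ⟨hz, h0⟩
    have h2 := h0 1 (gr_congr (by rw [hS]; norm_num) (C.one_mem S))
    rwa [TheoryData.mul, mul_one] at h2
  obtain ⟨a, ha, ha1, ha2⟩ := hC.exists_deg_one S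
  have ha' : C.Deg 2 a := gr_congr hdim.symm ha
  have hda : HasDegree C a 1 := fun Y => ⟨by rw [one_smul]; exact ha2 Y, by rw [one_smul]; exact ha1 Y⟩
  have ha0 : a ≠ 0 := by
    intro h
    have h2 := ha1 S
    rw [h, TheoryData.up, map_zero, TheoryData.down, map_zero] at h2
    exact hne S h2.symm
  tfae_have 1 → 2 := by
    intro hr
    rw [eq_bot_iff]
    intro z hz
    have hne' : (⟨a, ha'⟩ : C.gr S 2) ≠ 0 := by
      intro h
      exact ha0 (congrArg Subtype.val h)
    obtain ⟨c, hc⟩ := (finrank_eq_one_iff_of_nonzero' (⟨a, ha'⟩ : C.gr S 2) hne').1 hr ⟨z, hz.1⟩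
    have hc' : c • a = z := congrArg Subtype.val hc
    have h2 := HasDegree.smul c hda
    rw [hc', mul_one] at h2
    have h3 : c = 0 := hasDegree_uniq (hne S) h2 (hdeg' hz)
    rw [← hc', h3, zero_smul]
    exact Submodule.zero_mem _
  tfae_have 2 → 1 := by
    intro hb
    have hne' : (⟨a, ha'⟩ : C.gr S 2) ≠ 0 := by
      intro h
      exact ha0 (congrArg Subtype.val h)
    rw [finrank_eq_one_iff_of_nonzero' (⟨a, ha'⟩ : C.gr S 2) hne']
    rintro ⟨z, hz⟩
    obtain ⟨q, hq⟩ := exists_hasDegree (gr_congr hdim hz)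
    refine ⟨q, Subtype.ext ?_⟩
    have h2 : z - q • a ∈ numFam C S 2 := by
      apply hdeg (Submodule.sub_mem _ hz (Submodule.smul_mem _ q ha'))
      have h3 := HasDegree.add hq (HasDegree.smul (-q) hda)
      rw [neg_smul, ← sub_eq_add_neg, mul_one, add_neg_cancel] at h3
      exact h3
    rw [hb, Submodule.mem_bot, sub_eq_zero] at h2
    exact h2.symm
  tfae_have 2 ↔ 3 := h.out 0 1
  tfae_have 2 ↔ 4 := h.out 0 2
  tfae_finish

end Pool.Agent.Q72.DP
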