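import Pool.Agent.Q72.DP.CubeDefs
import Pool.Agent.Q72.DP.SurfNum

/-!
# Highest powers of divisors on projective bundles over a surface
-/

open CategoryTheory AlgebraicGeometry

universe u v w

namespace Pool.Agent.Q72.DP

open Pool.Agent.H914 Pool.Agent.H914.VarClass Pool.Agent.H914.VarClass.Obj Pool.Agent.W492.BB
  Pool.Agent.W550.Corr Pool.Agent.TH133 Pool.Agent.TH829.Prime

set_option linter.unusedSectionVars false

variable {k : Type u} [Field k] {𝒱 : VarClass k} {C : TheoryData.{u, v, 0} 𝒱 ℚ}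
  [hC : IsChowProj C] {Bun : BundleClass C} {S : 𝒱.Obj}

include hC

lemma prod_deg {P : 𝒱.Obj} {n : ℕ} (D : Fin n → C.A P) (hD : ∀ i, C.Deg 1 (D i)) :
    C.Deg (n : ℤ) (List.ofFn D).prod := by
  induction n with
  | zero => simpa using C.one_mem P
  | succ n ih =>
    rw [List.ofFn_succ, List.prod_cons]
    have h := C.mul_mem (hD 0) (ih (fun i => D i.succ) (fun i => hD i.succ))
    exact gr_congr (by push_cast; ring) h

/-- A zero-cycle of degree zero is numerically trivial. -/
lemma mem_num_of_deg {P : 𝒱.Obj} {z : C.A P} (hz : C.Deg P.dim z) (h0 : HasDegree C z 0) :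
    z ∈ numFam C P P.dim := by
  refine ⟨hz, fun b hb => ?_⟩
  have hb' : C.Deg 0 b := gr_congr (by ring) hb
  obtain ⟨q, hq⟩ := hC.gr_zero P b hb'
  rw [hq, TheoryData.mul, mul_smul_comm, mul_one]
  have h2 := HasDegree.smul q h0
  rwa [mul_zero] at h2

lemma deg_of_mem_num {P : 𝒱.Obj} {z : C.A P} (hz : z ∈ numFam C P P.dim) : HasDegree C z 0 := by
  obtain ⟨hz, h0⟩ := hz
  have h2 := h0 1 (gr_congr (by ring) (C.one_mem P))
  rwa [TheoryData.mul, mul_one] at h2

theorem cube_tfae (hne : ∀ X : 𝒱.Obj, (1 : C.A X) ≠ 0) (hB : RankTwoBundles Bun) (hS : S.dim = 2)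
    (h1 : numFam C S 1 = ⊥) :
    [Module.finrank ℚ (C.gr S 2) = 1, CubesTrivial Bun S, ProductsTrivial Bun S].TFAE := by
  have hA := isAdequate_numFam hne
  have h := num_tfae hne hB hS h1
  have h2 : Module.finrank ℚ (C.gr S 2) = 1 ↔ numFam C S 2 = ⊥ := h.out 0 1
  rw [h2]
  have hle : numFam C S 2 = ⊥ → ∀ i, numFam C S i ≤ (⊥ : Submodule ℚ (C.A S)) := by
    intro h2 i z hz
    have hzd := hA.le_gr _ _ hz
    rcases lt_trichotomy i 0 with hi | hi | hi
    · rw [neg_zero hzd hi]
      exact Submodule.zero_mem _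
    · subst hi
      obtain ⟨q, hq⟩ := hC.gr_zero S z hzd
      by_cases hq0 : q = 0
      · rw [hq, hq0, zero_smul]
        exact Submodule.zero_mem _
      · exfalso
        apply (isPrime_numFam hne).one_notMem S
        have h2 := Submodule.smul_mem _ q⁻¹ hz
        rwa [hq, smul_smul, inv_mul_cancel₀ hq0, one_smul] at h2
    · rcases eq_or_ne i 1 with h | h
      · subst h
        rwa [h1] at hz
      · rcases eq_or_ne i 2 with h' | h'
        · subst h'
          rwa [h2] at hz
        · rw [top_zero hzd (by omega)]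
          exact Submodule.zero_mem _
  tfae_have 1 → 3 := by
    intro h P f m c ξ hP D hD h0
    have h3 := mem_num_of_deg (prod_deg D hD) h0
    have h4 := bundle_le (R := fun _ _ => ⊥) hA (isAdequate_bot (C := C)) (hB.isProjBundle hP)
      (hle h) _ h3
    exact (Submodule.mem_bot ℚ).1 h4
  tfae_have 3 → 2 := by
    rintro h P ⟨f, c₁, c₂, ξ, hf⟩ G hG h0
    have hd : P.dim = 3 := by
      have := (hB.isProjBundle hf).dim_eq
      omega
    have hprod : (List.ofFn (fun _ : Fin P.dim => G)).prod = G ^ 3 := by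
      rw [List.ofFn_const, List.prod_replicate, hd]
    have h4 := h P f 2 _ ξ hf (fun _ => G) (fun _ => hG) (by rwa [hprod])
    rwa [hprod] at h4
  tfae_have 2 → 1 := by
    intro h
    rw [eq_bot_iff]
    intro z hz
    obtain ⟨N, hN, P, f, ξ, hf⟩ := hB.exists_bundle S z hS hz.1
    have hd : P.dim = 3 := by
      have := (hB.isProjBundle hf).dim_eq
      omega
    have h3 := hf.sq hB
    have h4 : ξ ^ 3 ∈ numFam C P P.dim := by
      have h5 : ξ ^ 3 = -(C.pull f ((N : ℚ) • z)) * ξ := by rw [pow_succ, h3]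
      rw [h5, neg_mul]
      refine Submodule.neg_mem _ ?_
      have h6 := hA.mul_mem (hA.pull_mem f (Submodule.smul_mem _ (N : ℚ) hz)) (hB.isProjBundle hf).deg
      exact hA.congr (by rw [hd]; norm_num) h6
    have h5 := h P ⟨f, 0, _, ξ, hf⟩ ξ (hB.isProjBundle hf).deg (deg_of_mem_num h4)
    have h6 : C.push f (ξ ^ 3) = -((N : ℚ) • z) := by
      rw [pow_succ, h3, neg_mul, map_neg, C.proj_left]
      have h5 := (hB.isProjBundle hf).push_pow 1 (by norm_num)
      rw [if_pos (by norm_num), pow_one] at h5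
      have h6 : C.push f ξ = 1 := h5
      rw [h6, mul_one]
    rw [h5, map_zero] at h6
    have h7 := neg_eq_zero.1 h6.symm
    rcases smul_eq_zero.1 h7 with h8 | h8
    · exfalso
      have : N ≠ 0 := by omega
      exact this (by exact_mod_cast h8)
    · rw [h8]
      exact Submodule.zero_mem _
  tfae_finish

end Pool.Agent.Q72.DP
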