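import Pool.Agent.Q72.DP.SurfDefs

/-!
# Highest powers of divisors on projective bundles over a surface: definitions
-/

open CategoryTheory AlgebraicGeometry

universe u v w

namespace Pool.Agent.Q72.DP

open Pool.Agent.H914 Pool.Agent.H914.VarClass Pool.Agent.H914.VarClass.Obj Pool.Agent.W492.BB
  Pool.Agent.TH133 Pool.Agent.TH829.Prime

variable {k : Type u} [Field k] {𝒱 : VarClass k} {C : TheoryData.{u, v, 0} 𝒱 ℚ}

/-- If the zero-cycle `G^3` has degree zero, for a divisor `G` on a threefold `P` which is the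
projective bundle of a rank two bundle on `S`, then `G^3 = 0` in `CH_0(P)`. -/
def CubesTrivial (Bun : BundleClass C) (S : 𝒱.Obj) : Prop :=
  ∀ P : 𝒱.Obj, RuledOver Bun P S → ∀ G : C.A P, C.Deg 1 G → HasDegree C (G ^ 3) 0 → G ^ 3 = 0

/-- The products `D_1 ⋯ D_n` of degree zero of divisors `D_i` on the projective bundles `P` of vector
bundles on `S`, `n = dim P`, are zero in `CH_0(P)`. -/
def ProductsTrivial (Bun : BundleClass C) (S : 𝒱.Obj) : Prop :=
  ∀ (P : 𝒱.Obj) (f : P ⟶ S) (m : ℕ) (c : ℕ → C.A S) (ξ : C.A P), Bun f m c ξ →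
    ∀ D : Fin P.dim → C.A P, (∀ i, C.Deg 1 (D i)) → HasDegree C (List.ofFn D).prod 0 →
      (List.ofFn D).prod = 0

end Pool.Agent.Q72.DP
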