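import Pool.Agent.TH829.Prime.Num

/-!
# Vector bundles and projective bundles: definitions

The formal properties of the Grothendieck rings `K_0(X)` of vector bundles on the varieties of the
class `𝒱`, of the Chern character with values in the Chow groups with rational coefficients, and of
projective bundles.
-/

open CategoryTheory AlgebraicGeometry

universe u v w

namespace Pool.Agent.Q72.DP

open Pool.Agent.H914 Pool.Agent.H914.VarClass Pool.Agent.H914.VarClass.Obj Pool.Agent.W492.BB
  Pool.Agent.W550.Corr Pool.Agent.TH133 Pool.Agent.TH829.Prime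

variable {k : Type u} [Field k] {𝒱 : VarClass k}

/-- Newton's formulas: the Chern classes `c_n` of a vector bundle in terms of the components `p j`
of its Chern character: `c_0 = 1` and `n c_n = ∑_{j < n} (-1)^j (j+1)! p_(j+1) c_(n-1-j)`. -/
noncomputable def chern {A : Type*} [Ring A] [Algebra ℚ A] (p : ℕ → A) : ℕ → A
  | 0 => 1
  | n + 1 => ((n + 1 : ℕ) : ℚ)⁻¹ • ∑ j : Fin (n + 1),
      ((-1 : ℚ) ^ (j : ℕ) * (((j : ℕ) + 1).factorial : ℚ)) • (p (j + 1) * chern p (n - j))

/-- `x = ∑ p j` with `p j ∈ A^j(X)`: the `p j` are the components of the class `x`. -/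
structure IsComp (C : TheoryData.{u, v, 0} 𝒱 ℚ) {X : 𝒱.Obj} (x : C.A X) (p : ℕ → C.A X) : Prop where
  deg : ∀ j : ℕ, C.Deg j (p j)
  out : ∀ j : ℕ, X.dim < j → p j = 0
  sum : x = ∑ j ∈ Finset.range (X.dim + 1), p j

/-- The morphism `f : P → X` is the projective bundle (of lines) of a vector bundle of rank
`m ≥ 1` with Chern classes `c 0 = 1, c 1, …`, and `ξ` is the class of the dual of the tautological
line bundle: `f_* ξ^j = 0` for `j < m - 1` and `f_* ξ^(m-1) = 1`, the relation
`∑ c_i ξ^(m-i) = 0` holds, and every class on `P` is a combination of `1, ξ, …, ξ^(m-1)` with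
coefficients in `f^* A(X)`. -/
structure IsProjBundle (C : TheoryData.{u, v, 0} 𝒱 ℚ) {X P : 𝒱.Obj} (f : P ⟶ X) (m : ℕ)
    (c : ℕ → C.A X) (ξ : C.A P) : Prop where
  pos : 1 ≤ m
  dim_eq : P.dim + 1 = X.dim + m
  deg : C.Deg 1 ξ
  push_pow : ∀ j : ℕ, j < m → C.down f (ξ ^ j) = if j + 1 = m then 1 else 0
  relation : ∑ i ∈ Finset.range (m + 1), C.mul (C.up f (c i)) (ξ ^ (m - i)) = 0
  span : ∀ (n : ℤ) (x : C.A P), C.Deg n x → ∃ a : ℕ → C.A X, (∀ i : ℕ, C.Deg (n - i) (a i)) ∧
    x = ∑ i ∈ Finset.range m, C.mul (C.up f (a i)) (ξ ^ i)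

/-- The data of the Grothendieck rings of vector bundles: the rings `K X = K_0(X)`, the Chern
characters `ch : K_0(X) → A(X)`, the sets `vec X ⊆ K_0(X)` of the classes of vector bundles, and the
projective bundles of vector bundles with their tautological classes. -/
structure BundleData (C : TheoryData.{u, v, 0} 𝒱 ℚ) where
  /-- the Grothendieck ring of vector bundles -/
  K : 𝒱.Obj → Type v
  [ring : ∀ X, CommRing (K X)]
  /-- the Chern character -/
  ch : ∀ X, K X →+* C.A X
  /-- the classes of vector bundles -/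
  vec : ∀ X, Set (K X)
  /-- `proj e f ξ`: the morphism `f : P → X` is the projective bundle of a vector bundle of class `e`
  on `X`, and `ξ` is the class of its tautological line bundle `O(1)` -/
  proj : ∀ {X P : 𝒱.Obj}, K X → (P ⟶ X) → C.A P → Prop

attribute [instance] BundleData.ring

/-- The class `e` is the class of a vector bundle of rank `m ≥ 1` with Chern classes
`c 0 = 1, c 1, c 2, …`. -/
def BundleData.IsVec {C : TheoryData.{u, v, 0} 𝒱 ℚ} (B : BundleData C) {X : 𝒱.Obj} (e : B.K X)
    (m : ℕ) (c : ℕ → C.A X) : Prop :=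
  e ∈ B.vec X ∧ 1 ≤ m ∧ ∃ p : ℕ → C.A X, IsComp C (B.ch X e) p ∧ p 0 = (m : C.A X) ∧ c = chern p

/-- The morphism `f : P → X` is the projective bundle of a vector bundle of rank `m`, `ξ` is
the class of its tautological line bundle `O(1)`, and the projective bundle formula holds. -/
def BundleData.IsTaut {C : TheoryData.{u, v, 0} 𝒱 ℚ} (B : BundleData C) {X P : 𝒱.Obj}
    (f : P ⟶ X) (m : ℕ) (ξ : C.A P) : Prop :=
  ∃ (e : B.K X) (c : ℕ → C.A X), B.IsVec e m c ∧ B.proj e f ξ ∧ IsProjBundle C f m c ξ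

/-- The morphism `f : P → X` is the projective bundle of a vector bundle. -/
def BundleData.IsBundle {C : TheoryData.{u, v, 0} 𝒱 ℚ} (B : BundleData C) {X P : 𝒱.Obj}
    (f : P ⟶ X) : Prop := ∃ (m : ℕ) (ξ : C.A P), B.IsTaut f m ξ

/-- The known properties of vector bundles on smooth projective varieties:
* direct sums and tensor products of vector bundles are vector bundles, the elements of `K_0(X)` are
  differences of classes of vector bundles;
* `K_0(X) → A(X)` is surjective with rational coefficients (Grothendieck, Riemann-Roch);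
* there is a line bundle `o` on `X` (the dual of a very ample one) such that for every vector bundle
  `e` some `e ⊗ o^r` is a subbundle of a trivial bundle of rank `N`, with a quotient bundle `q`
  (Serre's theorem for the dual of `e`);
* a vector bundle of rank `m ≥ 1` has a projective bundle, a variety of the class `𝒱`, with the
  projective bundle formula. -/
structure BundleData.IsKTheory {C : TheoryData.{u, v, 0} 𝒱 ℚ} (B : BundleData C) : Prop where
  one_mem : ∀ X, (1 : B.K X) ∈ B.vec X
  add_mem : ∀ {X} {e e' : B.K X}, e ∈ B.vec X → e' ∈ B.vec X → e + e' ∈ B.vec X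
  mul_mem : ∀ {X} {e e' : B.K X}, e ∈ B.vec X → e' ∈ B.vec X → e * e' ∈ B.vec X
  diff : ∀ {X} (a : B.K X), ∃ e ∈ B.vec X, ∃ e' ∈ B.vec X, a = e - e'
  chow : ∀ {X} (z : C.A X), ∃ N : ℕ, 0 < N ∧ ∃ a, B.ch X a = (N : ℚ) • z
  ample : ∀ X, ∃ o ∈ B.vec X, (∃ y, IsComp C (B.ch X o) y ∧ y 0 = 1) ∧
    ∀ e ∈ B.vec X, ∃ (r N : ℕ), ∃ q ∈ B.vec X, e * o ^ r + q = (N : B.K X)
  bundle : ∀ {X} (e : B.K X) (m : ℕ) (c : ℕ → C.A X), B.IsVec e m c →
    ∃ (P : 𝒱.Obj) (f : P ⟶ X) (ξ : C.A P), B.proj e f ξ ∧ IsProjBundle C f m c ξ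

end Pool.Agent.Q72.DP
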