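import Pool.Agent.Q72.DP.DimAJDefs
import Pool.Agent.Q72.DP.Dim
import Pool.Agent.Q72.DP.AJMain

/-!
# Abel-Jacobi maps on cycles of a given dimension
-/

open CategoryTheory AlgebraicGeometry

universe u v w

namespace Pool.Agent.Q72.DP

open Pool.Agent.H914 Pool.Agent.H914.VarClass Pool.Agent.H914.VarClass.Obj Pool.Agent.W492.BB
  Pool.Agent.W550.Corr Pool.Agent.TH133 Pool.Agent.TH829.Prime

set_option linter.unusedSectionVars false

variable {k : Type u} [Field k] {𝒱 : VarClass k} {C : TheoryData.{u, v, 0} 𝒱 ℚ}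
  [hC : IsChowProj C] {X Y : 𝒱.Obj}

include hC

section

variable {N : ∀ X : 𝒱.Obj, ℕ → Submodule ℚ (C.A X)}

lemma dim_iff {B : BundleData C} (hB : B.IsKTheory) {Q : 𝒱.Obj → Prop}
    (hQ : ∀ {X P : 𝒱.Obj} (f : P ⟶ X), B.IsBundle f → Q X → Q P)
    (hN : IsAdequate C (famOf N)) (h1 : ∀ X : 𝒱.Obj, (1 : C.A X) ∉ N X 0) (i : ℕ) :
    (∀ X : 𝒱.Obj, Q X → InjectiveDim N X i) ↔ ∀ V : 𝒱.Obj, Q V → TopPowersInjective N V i := by
  have h := compare_dim hB hQ hN (isAdequate_bot (C := C)) (fun X h => h1 X (by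
    have := famOf_nat N X 0
    rw [Nat.cast_zero] at this
    rwa [← this])) i
  simp only [famOf_nat, Submodule.mem_bot, le_bot_iff] at h
  exact h

lemma rat_step {B : BundleData C} {Rat : 𝒱.Obj → Prop} (hRat : IsRationalClass B Rat)
    (hN : IsAdequate C (famOf N)) {i : ℕ} (h : ∀ V : 𝒱.Obj, Rat V → InjectiveDim N V (i + 1))
    (X : 𝒱.Obj) : InjectiveDim N X i := by
  intro a ha
  rw [eq_bot_iff]
  intro z hz
  obtain ⟨E, V, j, g, r, d, e, hE, hV⟩ := hRat.blowUp X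
  have hr := hE.two_le
  have hEd := hE.bundle.dim_eq
  have hVd := hE.dim_eq
  have hz' : z ∈ famOf N X a := by rwa [famOf_nat]
  have h4 : C.push j (e ^ (r - 2) * C.pull g z) ∈ famOf N V ((a + (r - 1) : ℕ) : ℤ) := by
    have h5 : e ^ (r - 2) * C.pull g z ∈ famOf N E ((r - 2 : ℕ) + (a : ℤ)) :=
      hN.mul_mem' (pow_mem1 hE.bundle.deg (r - 2)) (hN.pull_mem g hz')
    refine hN.congr ?_ (hN.push_mem j h5)
    omega
  rw [famOf_nat, h V hV (a + (r - 1)) (by omega), Submodule.mem_bot] at h4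
  have h7 : z ∈ (fun (X : 𝒱.Obj) (_ : ℤ) => (⊥ : Submodule ℚ (C.A X))) X (a : ℤ) :=
    mem_of_blowUp' (i := (a : ℤ)) (isAdequate_bot (C := C)) hE
      (by rw [h4]; exact Submodule.zero_mem _)
  exact h7

lemma dim_mono {B : BundleData C} (hB : B.IsKTheory) (hN : IsAdequate C (famOf N)) {i s : ℕ}
    (h : ∀ X : 𝒱.Obj, InjectiveDim N X (i + s)) (X : 𝒱.Obj) : InjectiveDim N X i := by
  intro a ha
  rw [eq_bot_iff]
  intro z hz
  obtain ⟨P, f, ξ, hf, hξ, hPd, hpull⟩ := exists_trivial hB X s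
  have hz' : z ∈ famOf N X a := by rwa [famOf_nat]
  have h4 := hN.pull_mem f hz'
  rw [famOf_nat] at h4
  have h5 : C.pull f z ∈ N P a := h4
  rw [h P a (by omega), Submodule.mem_bot] at h5
  rw [← hpull z, h5, zero_mul, map_zero]
  exact Submodule.zero_mem _

/-- Injectivity on cycles of dimension `i`, for one `i` and for all `i`. -/
theorem dim_tfae {B : BundleData C} (hB : B.IsKTheory) {Rat : 𝒱.Obj → Prop}
    (hRat : IsRationalClass B Rat) (hN : IsAdequate C (famOf N))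
    (h1 : ∀ X : 𝒱.Obj, (1 : C.A X) ∉ N X 0) :
    (∀ i : ℕ, [∀ X : 𝒱.Obj, InjectiveDim N X i, ∀ V : 𝒱.Obj, TopPowersInjective N V i].TFAE) ∧
      (∀ i : ℕ, (∀ V : 𝒱.Obj, Rat V → TopPowersInjective N V (i + 1)) →
        ∀ X : 𝒱.Obj, InjectiveDim N X i) ∧
      [∀ X : 𝒱.Obj, AJInjective N X,
        ∀ n : ℕ, ∃ i : ℕ, n ≤ i ∧ ∀ V : 𝒱.Obj, Rat V → TopPowersInjective N V i].TFAE := by
  have key : ∀ i : ℕ, (∀ V : 𝒱.Obj, Rat V → TopPowersInjective N V (i + 1)) →
      ∀ X : 𝒱.Obj, InjectiveDim N X i := by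
    intro i h X
    exact rat_step hRat hN ((dim_iff hB hRat.bundle hN h1 (i + 1)).2 h) X
  refine ⟨fun i => ?_, key, ?_⟩
  · have h := dim_iff (Q := fun _ => True) hB (fun _ _ _ => trivial) hN h1 i
    simp only [true_implies] at h
    tfae_have 1 ↔ 2 := h
    tfae_finish
  · tfae_have 1 → 2 := by
      intro h n
      refine ⟨n, le_rfl, fun V _ m G _ _ hm => ?_⟩
      rw [h V m, Submodule.mem_bot] at hm
      exact hm
    tfae_have 2 → 1 := by
      intro h X j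
      rcases Nat.lt_or_ge X.dim j with hj | hj
      · rw [eq_bot_iff]
        intro z hz
        have hz' : z ∈ famOf N X j := by rwa [famOf_nat]
        rw [top_zero (hN.le_gr _ _ hz') (by exact_mod_cast hj)]
        exact Submodule.zero_mem _
      · obtain ⟨i, hi, hi'⟩ := h (X.dim - j + 1)
        obtain ⟨i, rfl⟩ : ∃ i', i = i' + 1 := ⟨i - 1, by omega⟩
        obtain ⟨s, hs⟩ : ∃ s, i = (X.dim - j) + s := ⟨i - (X.dim - j), by omega⟩
        have h2 := key i hi'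
        rw [hs] at h2
        exact dim_mono hB hN h2 X j (by omega)
    tfae_finish

end

end Pool.Agent.Q72.DP
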