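import Pool.Agent.Q72.DP.RatDefs

/-!
# Cycles of low dimension and the highest powers of divisors: definitions
-/

open CategoryTheory AlgebraicGeometry

universe u v w

namespace Pool.Agent.Q72.DP

open Pool.Agent.H914 Pool.Agent.H914.VarClass Pool.Agent.H914.VarClass.Obj Pool.Agent.W492.BB
  Pool.Agent.TH133 Pool.Agent.TH829.Prime

variable {k : Type u} [Field k] {𝒱 : VarClass k} {C : TheoryData.{u, v, 0} 𝒱 ℚ}

/-- The properties used of the classes `Q c` of the varieties of (Hodge) coniveau `≥ c`: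
projective bundles over varieties of coniveau `≥ c` have coniveau `≥ c`, and every variety `X` of
coniveau `≥ c` is the centre of the blow-up `V` of a projective space along a smooth subvariety of
codimension at least `2`; `V` is rational and has coniveau `≥ c + 1`. Also projective bundles over
rational varieties are rational. -/
structure IsConiveau (B : BundleData C) (Rat : 𝒱.Obj → Prop) (Q : ℕ → 𝒱.Obj → Prop) : Prop where
  bundle : ∀ (c : ℕ) {X P : 𝒱.Obj} (f : P ⟶ X), B.IsBundle f → Q c X → Q c P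
  rat_bundle : ∀ {X P : 𝒱.Obj} (f : P ⟶ X), B.IsBundle f → Rat X → Rat P
  blowUp : ∀ (c : ℕ) (X : 𝒱.Obj), Q c X → ∃ (E V : 𝒱.Obj) (j : E ⟶ V) (g : E ⟶ X) (r : ℕ)
    (d : ℕ → C.A X) (h : C.A E), IsExceptional C j g r d h ∧ Rat V ∧ Q (c + 1) V

variable {K : Type w} [Field K] (H : WeilTheoryData.{u, v, w} C K)

/-- `A_i^hom(Y) = 0`: the homologically trivial cycles of dimension `i` on `Y` vanish. -/
def HomZeroDim (Y : 𝒱.Obj) (i : ℕ) : Prop :=
  ∀ (a : ℕ) (z : C.A Y), Y.dim = a + i → C.Deg a z → H.cl z = 0 → z = 0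

/-- The power `G^(dim V - i)`, a class of cycles of dimension `i`, of a divisor `G` on `V` is zero as
soon as it is homologically trivial. -/
def TopPowerZero (V : 𝒱.Obj) (i : ℕ) : Prop :=
  ∀ (n : ℕ) (G : C.A V), V.dim = n + i → C.Deg 1 G → H.cl (G ^ n) = 0 → G ^ n = 0

end Pool.Agent.Q72.DP
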