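import Pool.Agent.Q72.DP.HartDefs
import Pool.Agent.Q72.DP.Codim

/-!
# The Chow groups of hypersurfaces and vector bundles
-/

open CategoryTheory AlgebraicGeometry

universe u v w

namespace Pool.Agent.Q72.DP

open Pool.Agent.H914 Pool.Agent.H914.VarClass Pool.Agent.H914.VarClass.Obj Pool.Agent.W492.BB
  Pool.Agent.W550.Corr Pool.Agent.TH133 Pool.Agent.TH829.Prime

set_option linter.unusedSectionVars false

variable {k : Type u} [Field k] {𝒱 : VarClass k} {C : TheoryData.{u, v, 0} 𝒱 ℚ}
  [hC : IsChowProj C] {X Y : 𝒱.Obj} {h : C.A X}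

include hC

/-- `f^*(h) ξ^m = 0` if and only if `h c_j = 0` for all `j ≥ 1`. -/
lemma mul_taut_iff {P : 𝒱.Obj} {f : P ⟶ X} {m : ℕ} {c : ℕ → C.A X} {ξ : C.A P}
    (hP : IsProjBundle C f m c ξ) (h0 : c 0 = 1) :
    C.up f h * ξ ^ m = 0 ↔ ∀ j : ℕ, 1 ≤ j → j ≤ m → h * c j = 0 := by
  have hrel : C.up f h * ξ ^ m =
      -∑ j ∈ Finset.range m, C.pull f (h * c (j + 1)) * ξ ^ (m - (j + 1)) := by
    rw [hP.pow_eq h0, mul_neg, Finset.mul_sum]
    congr 1
    refine Finset.sum_congr rfl fun j _ => ?_
    rw [map_mul, mul_assoc]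
  constructor
  · intro hz i
    induction i using Nat.strong_induction_on with
    | _ i ih =>
      intro h1 h2
      have h3 : C.push f (C.up f h * ξ ^ m * ξ ^ (i - 1)) = -(h * c i) := by
        rw [hrel, neg_mul, Finset.sum_mul, map_neg, map_sum, Finset.sum_eq_single (i - 1)]
        · rw [mul_assoc, ← pow_add, C.proj_left]
          have e2 : m - (i - 1 + 1) + (i - 1) = m - 1 := by omega
          have e3 : i - 1 + 1 = i := by omega
          have h4 : C.push f (ξ ^ (m - 1)) = 1 := by
            have := hP.push_pow (m - 1) (by omega)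
            rwa [if_pos (by omega)] at this
          rw [e2, e3, h4, mul_one]
        · intro j hj hne
          rw [Finset.mem_range] at hj
          by_cases hji : j + 1 < i
          · rw [ih (j + 1) hji (by omega) (by omega), map_zero, zero_mul, zero_mul, map_zero]
          · rw [mul_assoc, ← pow_add, C.proj_left]
            have h4 : C.push f (ξ ^ (m - (j + 1) + (i - 1))) = 0 := by
              have := hP.push_pow (m - (j + 1) + (i - 1)) (by omega)
              rwa [if_neg (by omega)] at this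
            rw [h4, mul_zero]
        · intro hne
          rw [Finset.mem_range] at hne
          omega
      rw [hz, zero_mul, map_zero] at h3
      exact neg_eq_zero.1 h3.symm
  · intro hc
    rw [hrel, Finset.sum_eq_zero, _root_.neg_zero]
    intro j hj
    rw [Finset.mem_range] at hj
    rw [hc (j + 1) (by omega) (by omega), map_zero, zero_mul]

lemma pow_ne {i : ℕ} (hh : IsHyperplaneClass C h) (hi : i ≤ X.dim) : h ^ i ≠ 0 := by
  intro h0
  apply hh.top
  have : X.dim = i + (X.dim - i) := by omega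
  rw [this, pow_add, h0, zero_mul]

/-- A class is a multiple of `h^i` as soon as this holds for those which are killed by `h`. -/
lemma spannedBy_iff (hh : IsHyperplaneClass C h) {i : ℕ} (hi : i < X.dim) :
    SpannedBy h i ↔ ∀ z : C.A X, C.Deg i z → h * z = 0 → z = 0 := by
  constructor
  · intro hs z hz hz0
    obtain ⟨q, hq⟩ := hs z hz
    rw [hq, mul_smul_comm, ← pow_succ'] at hz0
    rcases smul_eq_zero.1 hz0 with h1 | h1
    · rw [hq, h1, zero_smul]
    · exact absurd h1 (pow_ne hh (by omega))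
  · intro hs z hz
    obtain ⟨q, hq⟩ := hh.mul i z hz
    refine ⟨q, ?_⟩
    have h1 := hs (z - q • h ^ i)
      (Submodule.sub_mem _ hz (Submodule.smul_mem _ _ (pow_mem1 hh.deg i))) (by
        rw [mul_sub, hq, mul_smul_comm, ← pow_succ', sub_self])
    exact sub_eq_zero.1 h1

theorem hart_at {B : BundleData C} (hB : B.IsKTheory) (hh : IsHyperplaneClass C h) {i : ℕ}
    (hi : 1 ≤ i) (hi' : i < X.dim) : [SpannedBy h i, BundleAt B h i, TautAt B h i].TFAE := by
  rw [spannedBy_iff hh hi']
  tfae_have 1 → 2 := by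
    intro hz e m c hv him _ hc
    exact hz (c i) (IsVec_deg hv i) (hc i le_rfl him)
  tfae_have 2 → 3 := by
    rintro hz P f m ξ ⟨e, c, hv, -, hP⟩ him hpush hm
    have h0 := IsVec_zero hv
    have hc := (mul_taut_iff hP h0).1 hm
    have hlow := (push_zero_iff hP h0 him).1 hpush
    have h1 := hz e m c hv him hlow (fun j h1 h2 => hc j (by omega) h2)
    have h2 : C.down f (ξ ^ (m + i - 1)) = -c i := hP.push_eq h0 hi him hlow
    rw [h2, h1, _root_.neg_zero]
  tfae_have 3 → 1 := by
    intro hT z hz hz0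
    obtain ⟨e, m, d, q, hv, -, hcm, hq, hlow, hdc, hdvd⟩ := exists_bundle hB (X := X) hi hz 0
    obtain ⟨P, f, ξ, hpr, hP⟩ := hB.bundle e m d hv
    have h0 := IsVec_zero hv
    have h1 := hT P f m ξ ⟨e, d, hv, hpr, hP⟩ hcm ((push_zero_iff hP h0 hcm).2 hlow)
      ((mul_taut_iff hP h0).2 (by
        intro j hj _
        obtain ⟨u, -, hu⟩ := hdvd j hj
        rw [hu, ← mul_assoc, hz0, zero_mul]))
    have h2 : C.down f (ξ ^ (m + i - 1)) = -d i := hP.push_eq h0 hi hcm hlow
    rw [h2, hdc, neg_eq_zero] at h1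
    exact (smul_eq_zero.1 h1).resolve_left hq
  tfae_finish

theorem hart_below {B : BundleData C} (hB : B.IsKTheory) (hh : IsHyperplaneClass C h) {l : ℕ}
    (hl : l ≤ X.dim) :
    [∀ i : ℕ, i < l → SpannedBy h i, BundleBelow B h l, TautBelow B h l].TFAE := by
  tfae_have 1 → 2 := by
    intro hz e m c hv hc i h1 h2 h3
    exact (spannedBy_iff hh (by omega)).1 (hz i h3) (c i) (IsVec_deg hv i) (hc i h1 h2)
  tfae_have 2 → 3 := by
    rintro hz P f m ξ ⟨e, c, hv, -, hP⟩ hm i h1 h2 h3
    have h0 := IsVec_zero hv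
    have hc := (mul_taut_iff hP h0).1 hm
    have hlow := hz e m c hv hc
    have h4 : C.down f (ξ ^ (m + i - 1)) = -c i :=
      hP.push_eq h0 h1 h2 (fun j hj1 hj2 => hlow j hj1 (by omega) (by omega))
    rw [h4, hlow i h1 h2 h3, _root_.neg_zero]
  tfae_have 3 → 1 := by
    intro hT i hi
    rcases Nat.eq_zero_or_pos i with h0 | h0
    · subst h0
      intro z hz
      obtain ⟨q, hq⟩ := hC.gr_zero X z (by simpa using hz)
      exact ⟨q, by rw [hq, pow_zero]⟩
    · have key := (hart_at hB hh h0 (by omega)).out 0 2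
      rw [key]
      rintro P f m ξ hPT him _ hm
      exact hT P f m ξ hPT hm i h0 him hi
  tfae_finish

end Pool.Agent.Q72.DP
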