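import Pool.Agent.Q72.DP.Defs

/-!
# The Chow groups of hypersurfaces: definitions
-/

open CategoryTheory AlgebraicGeometry

universe u v w

namespace Pool.Agent.Q72.DP

open Pool.Agent.H914 Pool.Agent.H914.VarClass Pool.Agent.H914.VarClass.Obj Pool.Agent.W492.BB
  Pool.Agent.TH133 Pool.Agent.TH829.Prime

variable {k : Type u} [Field k] {𝒱 : VarClass k} {C : TheoryData.{u, v, 0} 𝒱 ℚ}

/-- The known properties of the class `h` of a hyperplane section of a smooth hypersurface `X`: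
`h · A^i(X)` is spanned by `h^(i+1)`, and `h^n ≠ 0` for `n = dim X`. -/
structure IsHyperplaneClass (C : TheoryData.{u, v, 0} 𝒱 ℚ) {X : 𝒱.Obj} (h : C.A X) : Prop where
  deg : C.Deg 1 h
  mul : ∀ (i : ℕ) (z : C.A X), C.Deg i z → ∃ q : ℚ, h * z = q • h ^ (i + 1)
  top : h ^ X.dim ≠ 0

/-- `A^i(X)` is spanned by `h^i`. -/
def SpannedBy {X : 𝒱.Obj} (h : C.A X) (i : ℕ) : Prop :=
  ∀ z : C.A X, C.Deg i z → ∃ q : ℚ, z = q • h ^ i

/-- The vector bundles on `X` of rank `m ≥ i` with Chern classes `c_j = 0` for `0 < j < i` and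
`h c_j = 0` for `j ≥ i` have `c_i = 0`. -/
def BundleAt (B : BundleData C) {X : 𝒱.Obj} (h : C.A X) (i : ℕ) : Prop :=
  ∀ (e : B.K X) (m : ℕ) (c : ℕ → C.A X), B.IsVec e m c → i ≤ m →
    (∀ j : ℕ, 1 ≤ j → j < i → c j = 0) → (∀ j : ℕ, i ≤ j → j ≤ m → h * c j = 0) → c i = 0

/-- For the projective bundles `f : P → X` of vector bundles of rank `m ≥ i`, with tautological class
`ξ`: if `f_* (ξ^(m-1+j)) = 0` for `0 < j < i` and `f^*(h) ξ^m = 0`, then `f_* (ξ^(m-1+i)) = 0`. -/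
def TautAt (B : BundleData C) {X : 𝒱.Obj} (h : C.A X) (i : ℕ) : Prop :=
  ∀ (P : 𝒱.Obj) (f : P ⟶ X) (m : ℕ) (ξ : C.A P), B.IsTaut f m ξ → i ≤ m →
    (∀ j : ℕ, 1 ≤ j → j < i → C.down f (ξ ^ (m + j - 1)) = 0) → C.up f h * ξ ^ m = 0 →
      C.down f (ξ ^ (m + i - 1)) = 0

/-- The vector bundles on `X` of rank `m` with `h c_j = 0` for all `j ≥ 1` have `c_i = 0` for
`0 < i < l`. -/
def BundleBelow (B : BundleData C) {X : 𝒱.Obj} (h : C.A X) (l : ℕ) : Prop :=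
  ∀ (e : B.K X) (m : ℕ) (c : ℕ → C.A X), B.IsVec e m c →
    (∀ j : ℕ, 1 ≤ j → j ≤ m → h * c j = 0) → ∀ i : ℕ, 1 ≤ i → i ≤ m → i < l → c i = 0

/-- For the projective bundles `f : P → X` of vector bundles of rank `m`, with tautological class
`ξ`: if `f^*(h) ξ^m = 0`, then `f_* (ξ^(m-1+i)) = 0` for `0 < i < l`. -/
def TautBelow (B : BundleData C) {X : 𝒱.Obj} (h : C.A X) (l : ℕ) : Prop :=
  ∀ (P : 𝒱.Obj) (f : P ⟶ X) (m : ℕ) (ξ : C.A P), B.IsTaut f m ξ → C.up f h * ξ ^ m = 0 →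
    ∀ i : ℕ, 1 ≤ i → i ≤ m → i < l → C.down f (ξ ^ (m + i - 1)) = 0

end Pool.Agent.Q72.DP
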