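import Pool.Agent.Q72.DP.LowDefs
import Pool.Agent.Q72.DP.Dim

/-!
# Cycles of low dimension and low odd cohomology
-/

open CategoryTheory AlgebraicGeometry

universe u v w

namespace Pool.Agent.Q72.DP

open Pool.Agent.H914 Pool.Agent.H914.VarClass Pool.Agent.H914.VarClass.Obj Pool.Agent.W492.BB
  Pool.Agent.W550.Corr Pool.Agent.TH133 Pool.Agent.TH829.Prime Pool.Agent.Q69.Prime

set_option linter.unusedSectionVars false

variable {k : Type u} [Field k] {𝒱 : VarClass k} {C : TheoryData.{u, v, 0} 𝒱 ℚ}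
  [hC : IsChowProj C] {K : Type w} [Field K] {H : WeilTheoryData.{u, v, w} C K} [hH : IsWeilProj H]

include hC hH

/-- The statement for the classes `Q c` and `Q (c + 1)`. -/
theorem coniveau_each {B : BundleData C} (hB : B.IsKTheory) {Rat : 𝒱.Obj → Prop}
    {Q : ℕ → 𝒱.Obj → Prop} (hQ : IsConiveau B Rat Q) {c : ℕ} (hc : 1 ≤ c) :
    [∀ Y : 𝒱.Obj, Q c Y → ∀ i < c, HomZeroDim H Y i,
      ∀ Y : 𝒱.Obj, Q c Y → TopPowerZero H Y (c - 1)].TFAE ∧
    ((∀ Y : 𝒱.Obj, Q (c + 1) Y → Rat Y → TopPowerZero H Y c) →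
      ∀ Y : 𝒱.Obj, Q c Y → ∀ i < c, HomZeroDim H Y i) := by
  have hS := (isPrime_homFam (H := H)).toIsAdequate
  have hR := isAdequate_bot (C := C)
  have h1 : ∀ X : 𝒱.Obj, (1 : C.A X) ∉ homFam H X 0 := (isPrime_homFam (H := H)).one_notMem
  have key : ∀ (D : 𝒱.Obj → Prop) (_ : ∀ {X P : 𝒱.Obj} (f : P ⟶ X), B.IsBundle f → D X → D P)
      (i : ℕ), (∀ Y : 𝒱.Obj, D Y → TopPowerZero H Y i) → ∀ Y : 𝒱.Obj, D Y → HomZeroDim H Y i := by
    intro D hD i h Y hY a z hYa hz hcl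
    have h2 := (compare_dim hB hD hS hR h1 i).2 (fun V hV n G hn hG hm =>
      (Submodule.mem_bot ℚ).2 (h V hV n G hn hG hm.2)) Y hY a hYa
    exact (Submodule.mem_bot ℚ).1 (h2 ⟨hz, hcl⟩)
  have down : (∀ Y : 𝒱.Obj, Q c Y → HomZeroDim H Y (c - 1)) →
      ∀ Y : 𝒱.Obj, Q c Y → ∀ i < c, HomZeroDim H Y i := by
    intro h3 Y hY i hi a z hYa hz hcl
    obtain ⟨P, f, ξ, hf, hξ, hPd, hpull⟩ := exists_trivial hB Y (c - 1 - i)
    have h4 := h3 P (hQ.bundle c f hf hY) a (C.pull f z) (by omega) (C.pull_mem f hz)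
      ((hS.pull_mem f (show z ∈ homFam H Y a from ⟨hz, hcl⟩)).2)
    rw [← hpull z, h4, zero_mul, map_zero]
  constructor
  · tfae_have 1 → 2 := by
      intro h Y hY n G hn hG hcl
      exact h Y hY (c - 1) (by omega) n (G ^ n) hn (pow_mem1 hG n) hcl
    tfae_have 2 → 1 := by
      intro h
      exact down (key (Q c) (hQ.bundle c) (c - 1) h)
    tfae_finish
  · intro h
    have h2 : ∀ V : 𝒱.Obj, Q (c + 1) V → Rat V → HomZeroDim H V c := by
      intro V hV hV'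
      exact key (fun V => Q (c + 1) V ∧ Rat V) (fun f hf hX => ⟨hQ.bundle _ f hf hX.1,
        hQ.rat_bundle f hf hX.2⟩) c (fun Y hY => h Y hY.1 hY.2) V ⟨hV, hV'⟩
    apply down
    intro X hX a z hXa hz hcl
    obtain ⟨E, V, j, g, r, d, e, hE, hV, hQV⟩ := hQ.blowUp c X hX
    have hr := hE.two_le
    have hEd := hE.bundle.dim_eq
    have hVd := hE.dim_eq
    have h4 : C.push j (e ^ (r - 2) * C.pull g z) ∈ homFam H V ((a : ℤ) + (r - 1)) := by
      have h5 : e ^ (r - 2) * C.pull g z ∈ homFam H E ((r - 2 : ℕ) + (a : ℤ)) :=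
        hS.mul_mem' (pow_mem1 hE.bundle.deg (r - 2)) (hS.pull_mem g ⟨hz, hcl⟩)
      refine hS.congr ?_ (hS.push_mem j h5)
      omega
    have h6 : C.push j (e ^ (r - 2) * C.pull g z) = 0 := by
      refine h2 V hQV hV (a + (r - 1)) _ (by omega) ?_ h4.2
      refine gr_congr ?_ h4.1
      omega
    have h7 : z ∈ (fun (X : 𝒱.Obj) (_ : ℤ) => (⊥ : Submodule ℚ (C.A X))) X (a : ℤ) :=
      mem_of_blowUp' (i := (a : ℤ)) hR hE (by rw [h6]; exact Submodule.zero_mem _)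
    exact (Submodule.mem_bot ℚ).1 h7

end Pool.Agent.Q72.DP
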