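import Pool.Agent.Q72.DP.DimDefs

/-!
# Cycles of low dimension and low odd cohomology: definitions
-/

open CategoryTheory AlgebraicGeometry

universe u v w

namespace Pool.Agent.Q72.DP

open Pool.Agent.H914 Pool.Agent.H914.VarClass Pool.Agent.H914.VarClass.Obj Pool.Agent.W492.BB
  Pool.Agent.TH133 Pool.Agent.TH829.Prime

variable {k : Type u} [Field k] {𝒱 : VarClass k} {C : TheoryData.{u, v, 0} 𝒱 ℚ} {K : Type w}
  [Field K] (H : WeilTheoryData.{u, v, w} C K)

/-- The odd cohomology of `X` vanishes in the degrees `1, 3, …, 2 c - 1`. -/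
def OddBelow (c : ℕ) (X : 𝒱.Obj) : Prop := ∀ j : ℕ, j < c → H.gr X (2 * j + 1) = ⊥

end Pool.Agent.Q72.DP
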