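import Pool.Agent.Q72.DP.OddDefs
import Pool.Agent.Q72.DP.Rat
import Pool.Agent.Q72.DP.Codim
import Pool.Agent.Q69.Prime.Hom

/-!
# Homologically trivial cycles on varieties without odd cohomology
-/

open CategoryTheory AlgebraicGeometry

universe u v w

namespace Pool.Agent.Q72.DP

open Pool.Agent.H914 Pool.Agent.H914.VarClass Pool.Agent.H914.VarClass.Obj Pool.Agent.W492.BB
  Pool.Agent.W550.Corr Pool.Agent.TH133 Pool.Agent.TH829.Prime Pool.Agent.Q69.Prime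

set_option linter.unusedSectionVars false

variable {k : Type u} [Field k] {𝒱 : VarClass k} {C : TheoryData.{u, v, 0} 𝒱 ℚ}
  [hC : IsChowProj C] {X Y : 𝒱.Obj}

include hC

/-- The comparison of two adequate relations on a class of varieties closed under projective
bundles and blow-ups. -/
theorem compare_rel {B : BundleData C} (hB : B.IsKTheory) {Q Rat : 𝒱.Obj → Prop}
    (hQ : ∀ {X P : 𝒱.Obj} (f : P ⟶ X), B.IsBundle f → Q X → Q P)
    (hR : ∀ {X P : 𝒱.Obj} (f : P ⟶ X), B.IsBundle f → Rat X → Rat P)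
    (hbl : ∀ X : 𝒱.Obj, Q X → ∃ (E V : 𝒱.Obj) (j : E ⟶ V) (g : E ⟶ X) (r : ℕ)
      (c : ℕ → C.A X) (h : C.A E), IsExceptional C j g r c h ∧ Rat V ∧ Q V)
    {S R : Family C} (hS : IsAdequate C S) (hRa : IsAdequate C R)
    (h1 : ∀ X : 𝒱.Obj, (1 : C.A X) ∉ S X 0) :
    [∀ X : 𝒱.Obj, Q X → ∀ i, S X i ≤ R X i, ∀ V : 𝒱.Obj, Q V → PowersIn S R V,
      ∀ (V : 𝒱.Obj) (m : ℕ) (G : C.A V), Q V → Rat V → V.dim = 2 * m → C.Deg 1 G →
        G ^ m ∈ S V m → G ^ m ∈ R V m].TFAE := by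
  tfae_have 1 → 2 := by
    intro h V hV G m _ hm
    exact h V hV m hm
  tfae_have 2 → 3 := by
    intro h V m G hV _ _ hG hm
    exact h V hV G m hG hm
  tfae_have 3 → 1 := by
    intro h X hX i z hz
    have hzd := hS.le_gr _ _ hz
    rcases lt_trichotomy i 0 with hi | hi | hi
    · rw [neg_zero hzd hi]
      exact Submodule.zero_mem _
    · subst hi
      obtain ⟨q, hq⟩ := hC.gr_zero X z hzd
      by_cases hq0 : q = 0
      · rw [hq, hq0, zero_smul]
        exact Submodule.zero_mem _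
      · exfalso
        apply h1 X
        have h2 := Submodule.smul_mem _ q⁻¹ hz
        rwa [hq, smul_smul, inv_mul_cancel₀ hq0, one_smul] at h2
    · obtain ⟨c, rfl⟩ : ∃ c : ℕ, i = c := ⟨i.toNat, by omega⟩
      obtain ⟨E, V, j, g, r, d, e, hE, hV, hQV⟩ := hbl X hX
      refine mem_of_blowUp hRa hE (i := (c : ℤ)) ?_
      have h2 : C.push j (C.pull g z) ∈ S V ((c + 1 : ℕ) : ℤ) := by
        refine hS.congr ?_ (hS.push_mem j (hS.pull_mem g hz))
        have := hE.dim_eq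
        push_cast
        omega
      have h3 := mem_of_middle hB hS hRa V (c := c + 1) (by omega)
        (fun P V' f g hf hg m G hd hG hm =>
          h V' m G (hQ g hg (hQ f hf hQV)) (hR g hg (hR f hf hV)) hd hG hm) h2
      exact hRa.congr (by push_cast; ring) h3
  tfae_finish

variable {K : Type w} [Field K] {H : WeilTheoryData.{u, v, w} C K} [hH : IsWeilProj H]

include hH

theorem homZero_codim {B : BundleData C} (hB : B.IsKTheory) (X : 𝒱.Obj) {m : ℕ} (hm : 1 ≤ m) :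
    [HomZero H X m, ChernHomZero H B X m, TautHomZero H B X m].TFAE := by
  have hS := (isPrime_homFam (H := H)).toIsAdequate
  have h := compare_codim (R := fun _ _ => ⊥) hB hS X hm
  have e1 : HomZero H X m ↔ homFam H X m ≤ (⊥ : Submodule ℚ (C.A X)) :=
    ⟨fun h z hz => (Submodule.mem_bot ℚ).2 (h z hz.1 hz.2),
      fun h z h1 h2 => (Submodule.mem_bot ℚ).1 (h ⟨h1, h2⟩)⟩
  have e2 : ChernHomZero H B X m ↔ ∀ (e : B.K X) (r : ℕ) (d : ℕ → C.A X), B.IsVec e r d → m ≤ r →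
        (∀ i : ℕ, 1 ≤ i → i < m → d i = 0) → (∀ i : ℕ, m ≤ i → i ≤ r → d i ∈ homFam H X i) →
          d m ∈ (⊥ : Submodule ℚ (C.A X)) := by
    constructor
    · intro h e r d hv hr hd hi
      exact (Submodule.mem_bot ℚ).2 (h e r d hv hr hd fun i h1 h2 => (hi i h1 h2).2)
    · intro h e r d hv hr hd hi
      exact (Submodule.mem_bot ℚ).1 (h e r d hv hr hd fun i h1 h2 => ⟨IsVec_deg hv i, hi i h1 h2⟩)
  have e3 : TautHomZero H B X m ↔ ∀ (P : 𝒱.Obj) (f : P ⟶ X) (r : ℕ) (ξ : C.A P), B.IsTaut f r ξ →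
        m ≤ r → (∀ i : ℕ, 1 ≤ i → i < m → C.down f (ξ ^ (r + i - 1)) = 0) →
          ξ ^ r ∈ homFam H P r → C.down f (ξ ^ (r + m - 1)) ∈ (⊥ : Submodule ℚ (C.A X)) := by
    constructor
    · intro h P f r ξ hT hr hd hi
      exact (Submodule.mem_bot ℚ).2 (h P f r ξ hT hr hd hi.2)
    · intro h P f r ξ hT hr hd hi
      obtain ⟨e, c, hv, -, hP⟩ := id hT
      exact (Submodule.mem_bot ℚ).1 (h P f r ξ hT hr hd ⟨pow_mem1 hP.deg r, hi⟩)
  rw [e1, e2, e3]
  exact h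

theorem homZero_odd {B : BundleData C} (hB : B.IsKTheory) {Rat : 𝒱.Obj → Prop}
    (hRat : IsOddFreeClass H B Rat) :
    [∀ X : 𝒱.Obj, OddFree H X → ∀ m : ℕ, HomZero H X m,
      ∀ V : 𝒱.Obj, OddFree H V → ∀ (G : C.A V) (m : ℕ), C.Deg 1 G → H.cl (G ^ m) = 0 → G ^ m = 0,
      ∀ V : 𝒱.Obj, OddFree H V → Rat V → ∀ (G : C.A V) (m : ℕ), V.dim = 2 * m → C.Deg 1 G →
        H.cl (G ^ m) = 0 → G ^ m = 0].TFAE := by
  have hS := (isPrime_homFam (H := H)).toIsAdequate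
  have h := compare_rel hB hRat.bundle hRat.rat_bundle hRat.blowUp hS (isAdequate_bot (C := C))
    (isPrime_homFam (H := H)).one_notMem
  have e1 : (∀ X : 𝒱.Obj, OddFree H X → ∀ m : ℕ, HomZero H X m) ↔
      ∀ X : 𝒱.Obj, OddFree H X → ∀ i, homFam H X i ≤ (⊥ : Submodule ℚ (C.A X)) := by
    constructor
    · intro h X hX i z hz
      rcases lt_or_ge i 0 with hi | hi
      · rw [neg_zero hz.1 hi]
        exact Submodule.zero_mem _
      · obtain ⟨c, rfl⟩ : ∃ c : ℕ, i = c := ⟨i.toNat, by omega⟩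
        exact (Submodule.mem_bot ℚ).2 (h X hX c z hz.1 hz.2)
    · intro h X hX m z h1 h2
      exact (Submodule.mem_bot ℚ).1 (h X hX m ⟨h1, h2⟩)
  have e2 : (∀ V : 𝒱.Obj, OddFree H V → ∀ (G : C.A V) (m : ℕ), C.Deg 1 G → H.cl (G ^ m) = 0 →
      G ^ m = 0) ↔ ∀ V : 𝒱.Obj, OddFree H V → PowersIn (homFam H) (fun _ _ => ⊥) V := by
    constructor
    · intro h V hV G m hG hm
      exact (Submodule.mem_bot ℚ).2 (h V hV G m hG hm.2)
    · intro h V hV G m hG hm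
      exact (Submodule.mem_bot ℚ).1 (h V hV G m hG ⟨pow_mem1 hG m, hm⟩)
  have e3 : (∀ V : 𝒱.Obj, OddFree H V → Rat V → ∀ (G : C.A V) (m : ℕ), V.dim = 2 * m → C.Deg 1 G →
        H.cl (G ^ m) = 0 → G ^ m = 0) ↔ ∀ (V : 𝒱.Obj) (m : ℕ) (G : C.A V), OddFree H V → Rat V →
      V.dim = 2 * m → C.Deg 1 G → G ^ m ∈ homFam H V m → G ^ m ∈ (⊥ : Submodule ℚ (C.A V)) := by
    constructor
    · intro h V m G hV hV' hd hG hm
      exact (Submodule.mem_bot ℚ).2 (h V hV hV' G m hd hG hm.2)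
    · intro h V hV hV' G m hd hG hm
      exact (Submodule.mem_bot ℚ).1 (h V m G hV hV' hd hG ⟨pow_mem1 hG m, hm⟩)
  rw [e1, e2, e3]
  exact h

end Pool.Agent.Q72.DP
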