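import Pool.Agent.Q72.DP.RatDefs

/-!
# Homologically trivial cycles and odd cohomology: definitions
-/

open CategoryTheory AlgebraicGeometry

universe u v w

namespace Pool.Agent.Q72.DP

open Pool.Agent.H914 Pool.Agent.H914.VarClass Pool.Agent.H914.VarClass.Obj Pool.Agent.W492.BB
  Pool.Agent.TH133 Pool.Agent.TH829.Prime

variable {k : Type u} [Field k] {𝒱 : VarClass k} {C : TheoryData.{u, v, 0} 𝒱 ℚ} {K : Type w}
  [Field K] (H : WeilTheoryData.{u, v, w} C K)

/-- `CH^m_hom(X) = 0`: the homologically trivial classes of codimension `m` on `X` are zero. -/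
def HomZero (X : 𝒱.Obj) (m : ℕ) : Prop := ∀ z : C.A X, C.Deg m z → H.cl z = 0 → z = 0

/-- The vector bundles on `X` of rank `r ≥ m` with Chern classes `c_i = 0` for `0 < i < m` and
homologically trivial `c_i` for `i ≥ m` have `c_m = 0`. -/
def ChernHomZero (B : BundleData C) (X : 𝒱.Obj) (m : ℕ) : Prop :=
  ∀ (e : B.K X) (r : ℕ) (d : ℕ → C.A X), B.IsVec e r d → m ≤ r →
    (∀ i : ℕ, 1 ≤ i → i < m → d i = 0) → (∀ i : ℕ, m ≤ i → i ≤ r → H.cl (d i) = 0) → d m = 0

/-- For the projective bundles `f : P → X` of vector bundles of rank `r ≥ m`, with tautological class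
`ξ`: if `f_* (ξ^(r-1+i)) = 0` for `0 < i < m` and `ξ^r` is homologically trivial, then
`f_* (ξ^(r-1+m)) = 0`. -/
def TautHomZero (B : BundleData C) (X : 𝒱.Obj) (m : ℕ) : Prop :=
  ∀ (P : 𝒱.Obj) (f : P ⟶ X) (r : ℕ) (ξ : C.A P), B.IsTaut f r ξ → m ≤ r →
    (∀ i : ℕ, 1 ≤ i → i < m → C.down f (ξ ^ (r + i - 1)) = 0) → H.cl (ξ ^ r) = 0 →
      C.down f (ξ ^ (r + m - 1)) = 0

/-- The variety `X` has no odd cohomology. -/
def OddFree (X : 𝒱.Obj) : Prop := ∀ i : ℤ, H.gr X (2 * i - 1) = ⊥

/-- The known properties of rational varieties and of odd cohomology: projective bundles over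
rational varieties are rational, projective bundles over varieties without odd cohomology have no
odd cohomology, and every variety `X` without odd cohomology is the centre of the blow-up `V` of a
projective space along a smooth subvariety of codimension at least `2`; `V` is rational and has no
odd cohomology. -/
structure IsOddFreeClass (B : BundleData C) (Rat : 𝒱.Obj → Prop) : Prop where
  bundle : ∀ {X P : 𝒱.Obj} (f : P ⟶ X), B.IsBundle f → OddFree H X → OddFree H P
  rat_bundle : ∀ {X P : 𝒱.Obj} (f : P ⟶ X), B.IsBundle f → Rat X → Rat P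
  blowUp : ∀ X : 𝒱.Obj, OddFree H X → ∃ (E V : 𝒱.Obj) (j : E ⟶ V) (g : E ⟶ X) (r : ℕ)
    (c : ℕ → C.A X) (h : C.A E), IsExceptional C j g r c h ∧ Rat V ∧ OddFree H V

end Pool.Agent.Q72.DP
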