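import Pool.Agent.Q72.DP.PadicDefs
import Pool.Agent.Q72.DP.AJMain

/-!
# Abel-Jacobi maps for several primes
-/

open CategoryTheory AlgebraicGeometry

universe u v w

namespace Pool.Agent.Q72.DP

open Pool.Agent.H914 Pool.Agent.H914.VarClass Pool.Agent.H914.VarClass.Obj Pool.Agent.W492.BB
  Pool.Agent.W550.Corr Pool.Agent.TH133 Pool.Agent.TH829.Prime Pool.Agent.Y148.BB

set_option linter.unusedSectionVars false

variable {k : Type u} [Field k] {𝒱 : VarClass k} {C : TheoryData.{u, v, 0} 𝒱 ℚ}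
  [hC : IsChowProj C]

include hC

lemma motives_iff (N : ∀ X : 𝒱.Obj, ℕ → Submodule ℚ (C.A X)) :
    MotivesInjective N ↔ ∀ X : 𝒱.Obj, AJInjective N X := by
  constructor
  · intro h X j
    rw [eq_bot_iff]
    intro z hz
    exact (Submodule.mem_bot ℚ).2 (h X (dg C X) j z (dg_mem C X) (comp_dg _ _) (act_dg _ z) hz)
  · intro h X e n z _ _ _ hz
    rw [h X n] at hz
    exact (Submodule.mem_bot ℚ).1 hz

lemma motives_agree_iff (N N' : ∀ X : 𝒱.Obj, ℕ → Submodule ℚ (C.A X)) :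
    MotivesAgree N N' ↔ ∀ (X : 𝒱.Obj) (j : ℕ), N X j = N' X j := by
  constructor
  · intro h X j
    ext z
    exact h X (dg C X) j z (dg_mem C X) (comp_dg _ _) (act_dg _ z)
  · intro h X e n z _ _ _
    rw [h X n]

lemma le_iff_middle {B : BundleData C} (hB : B.IsKTheory) {Rat : 𝒱.Obj → Prop}
    (hRat : IsRationalClass B Rat) {N N' : ∀ X : 𝒱.Obj, ℕ → Submodule ℚ (C.A X)}
    (hN : IsAdequate C (famOf N)) (hN' : IsAdequate C (famOf N'))
    (h1 : ∀ X : 𝒱.Obj, (1 : C.A X) ∉ N X 0) :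
    (∀ (X : 𝒱.Obj) (j : ℕ), N X j ≤ N' X j) ↔ MiddleLe Rat N N' := by
  have h2 := compare_rat hB hRat hN hN' (fun X h => h1 X (by
    have := famOf_nat N X 0
    rw [Nat.cast_zero] at this
    rwa [← this]))
  have e1 : (∀ (X : 𝒱.Obj) (j : ℕ), N X j ≤ N' X j) ↔ famOf N ≤ famOf N' := by
    constructor
    · intro h X i
      rcases lt_or_ge i 0 with hi | hi
      · rw [famOf_neg N X hi]
        exact bot_le
      · obtain ⟨a, rfl⟩ : ∃ a : ℕ, i = a := ⟨i.toNat, by omega⟩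
        rw [famOf_nat, famOf_nat]
        exact h X a
    · intro h X j
      have h3 := h X j
      rwa [famOf_nat, famOf_nat] at h3
  have e2 : MiddleLe Rat N N' ↔ ∀ (V : 𝒱.Obj) (m : ℕ) (G : C.A V), Rat V → V.dim = 2 * m →
      C.Deg 1 G → G ^ m ∈ famOf N V m → G ^ m ∈ famOf N' V m := by
    simp only [famOf_nat, MiddleLe]
  rw [e1, e2]
  exact h2

lemma notMem_one {K : Type w} [Field K] {H : WeilTheoryData.{u, v, w} C K} [hH : IsWeilProj H]
    {N : ∀ X : 𝒱.Obj, ℕ → Submodule ℚ (C.A X)} (hN : IsAJKernel H N) (X : 𝒱.Obj) :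
    (1 : C.A X) ∉ N X 0 := one_notMem_aj hN X

lemma adequate_of {K : Type w} [Field K] {H : WeilTheoryData.{u, v, w} C K} [hH : IsWeilProj H]
    {N : ∀ X : 𝒱.Obj, ℕ → Submodule ℚ (C.A X)} (hN : IsAJKernel H N) :
    IsAdequate C (famOf N) := IsAJKernel.adequate hN

variable {B : BundleData C} {Rat : 𝒱.Obj → Prop} {ι : Type} {K : ι → Type w} [∀ p, Field (K p)]
  {H : ∀ p, WeilTheoryData.{u, v, w} C (K p)} [hH : ∀ p, IsWeilProj (H p)]
  {N : ι → ∀ X : 𝒱.Obj, ℕ → Submodule ℚ (C.A X)}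

/-- Injectivity for all primes. -/
theorem padic_tfae (hB : B.IsKTheory) (hRat : IsRationalClass B Rat)
    (hN : ∀ p, IsAJKernel (H p) (N p)) (p₀ : ι) :
    [∀ p, MotivesInjective (N p), MotivesInjective (N p₀) ∧ ∀ p, MiddleLe Rat (N p) (N p₀),
      ∀ p, MiddleRational (N p) Rat].TFAE := by
  have hA : ∀ p, IsAdequate C (famOf (N p)) := fun p => adequate_of (hN p)
  have h1 : ∀ p (X : 𝒱.Obj), (1 : C.A X) ∉ N p X 0 := fun p X => notMem_one (hN p) X
  tfae_have 1 ↔ 3 := forall_congr' fun p => by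
    rw [motives_iff]
    exact (inj_all hB hRat (hA p) (h1 p)).out 0 2
  tfae_have 1 → 2 := by
    intro h
    refine ⟨h p₀, fun p V m G _ _ _ hm => ?_⟩
    rw [(motives_iff _).1 (h p) V m] at hm
    rw [(Submodule.mem_bot ℚ).1 hm]
    exact Submodule.zero_mem _
  tfae_have 2 → 1 := by
    rintro ⟨h, h'⟩ p
    rw [motives_iff] at h ⊢
    intro X j
    rw [eq_bot_iff, ← h X j]
    exact (le_iff_middle hB hRat (hA p) (hA p₀) (h1 p)).2 (h' p) X j
  tfae_finish

/-- The comparison for one variety. -/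
theorem le_at (hB : B.IsKTheory) {N N' : ∀ X : 𝒱.Obj, ℕ → Submodule ℚ (C.A X)}
    (hN : IsAdequate C (famOf N)) (hN' : IsAdequate C (famOf N')) (X : 𝒱.Obj)
    (h1 : (1 : C.A X) ∉ N X 0) :
    [∀ j : ℕ, N X j ≤ N' X j, ChernLe B X N N', TautLe B X N N'].TFAE := by
  have h := compare_at hB hN hN' X (by
    have := famOf_nat N X 0
    rw [Nat.cast_zero] at this
    rwa [this])
  have e1 : (∀ j : ℕ, N X j ≤ N' X j) ↔ ∀ i, famOf N X i ≤ famOf N' X i := by
    constructor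
    · intro h i
      rcases lt_or_ge i 0 with hi | hi
      · rw [famOf_neg N X hi]
        exact bot_le
      · obtain ⟨a, rfl⟩ : ∃ a : ℕ, i = a := ⟨i.toNat, by omega⟩
        rw [famOf_nat, famOf_nat]
        exact h a
    · intro h j
      have h3 := h j
      rwa [famOf_nat, famOf_nat] at h3
  have e2 : ChernLe B X N N' ↔ ∀ (e : B.K X) (m : ℕ) (c : ℕ → C.A X), B.IsVec e m c →
      (∀ i : ℕ, 1 ≤ i → i ≤ m → c i ∈ famOf N X i) →
        ∀ i : ℕ, 1 ≤ i → i ≤ m → c i ∈ famOf N' X i := by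
    simp only [famOf_nat, ChernLe]
  have e3 : TautLe B X N N' ↔ ∀ (P : 𝒱.Obj) (f : P ⟶ X) (m : ℕ) (ξ : C.A P), B.IsTaut f m ξ →
      ξ ^ m ∈ famOf N P m → ξ ^ m ∈ famOf N' P m := by
    simp only [famOf_nat, TautLe]
  tfae_have 1 ↔ 2 := by rw [e1, e2]; exact h.out 0 1
  tfae_have 1 ↔ 3 := by rw [e1, e3]; exact h.out 0 2
  tfae_finish

/-- Independence of the prime on one variety. -/
theorem indep_at (hB : B.IsKTheory) (hN : ∀ p, IsAJKernel (H p) (N p)) (X : 𝒱.Obj) :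
    [∀ p q, ∀ j : ℕ, N p X j = N q X j, ∀ p q, ChernLe B X (N p) (N q),
      ∀ p q, TautLe B X (N p) (N q)].TFAE := by
  have hA : ∀ p, IsAdequate C (famOf (N p)) := fun p => adequate_of (hN p)
  have h := fun p q => le_at hB (hA p) (hA q) X (notMem_one (hN p) X)
  have e : (∀ p q, ∀ j : ℕ, N p X j = N q X j) ↔ ∀ p q, ∀ j : ℕ, N p X j ≤ N q X j :=
    ⟨fun h p q j => (h p q j).le, fun h p q j => le_antisymm (h p q j) (h q p j)⟩
  rw [e]
  tfae_have 1 ↔ 2 := forall₂_congr fun p q => (h p q).out 0 1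
  tfae_have 1 ↔ 3 := forall₂_congr fun p q => (h p q).out 0 2
  tfae_finish

/-- Independence of the prime. -/
theorem indep_tfae (hB : B.IsKTheory) (hRat : IsRationalClass B Rat)
    (hN : ∀ p, IsAJKernel (H p) (N p)) :
    (∀ p q, MotivesAgree (N p) (N q)) ↔ ∀ p q, MiddleLe Rat (N p) (N q) := by
  have hA : ∀ p, IsAdequate C (famOf (N p)) := fun p => adequate_of (hN p)
  have h1 : ∀ p (X : 𝒱.Obj), (1 : C.A X) ∉ N p X 0 := fun p X => notMem_one (hN p) X
  constructor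
  · intro h p q V m G _ _ _ hm
    rwa [(motives_agree_iff _ _).1 (h p q) V m] at hm
  · intro h p q
    rw [motives_agree_iff]
    intro X j
    exact le_antisymm ((le_iff_middle hB hRat (hA p) (hA q) (h1 p)).2 (h p q) X j)
      ((le_iff_middle hB hRat (hA q) (hA p) (h1 q)).2 (h q p) X j)

end Pool.Agent.Q72.DP
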