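import Pool.Agent.Q72.DP.AJDefs
import Pool.Agent.Q72.DP.RatDefs

/-!
# Abel-Jacobi maps for several primes: definitions
-/

open CategoryTheory AlgebraicGeometry

universe u v w

namespace Pool.Agent.Q72.DP

open Pool.Agent.H914 Pool.Agent.H914.VarClass Pool.Agent.H914.VarClass.Obj Pool.Agent.W492.BB
  Pool.Agent.W550.Corr Pool.Agent.TH133 Pool.Agent.TH829.Prime

variable {k : Type u} [Field k] {𝒱 : VarClass k} {C : TheoryData.{u, v, 0} 𝒱 ℚ}

/-- The Abel-Jacobi map, with kernels `N X j ⊆ CH^j(X)`, is injective for all Chow motives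
`M = (X, e, n)`: here `e` is an idempotent self-correspondence of degree zero of `X`, and
`CH(M) = e_* CH^n(X)` consists of the classes `z` of codimension `n` with `e_* z = z`. -/
def MotivesInjective (N : ∀ X : 𝒱.Obj, ℕ → Submodule ℚ (C.A X)) : Prop :=
  ∀ (X : 𝒱.Obj) (e : C.A (X.prod X)) (n : ℕ) (z : C.A X), C.Deg X.dim e → C.comp e e = e →
    C.act e z = z → z ∈ N X n → z = 0

/-- The kernels of the Abel-Jacobi maps for the motives `M = (X, e, n)` agree. -/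
def MotivesAgree (N N' : ∀ X : 𝒱.Obj, ℕ → Submodule ℚ (C.A X)) : Prop :=
  ∀ (X : 𝒱.Obj) (e : C.A (X.prod X)) (n : ℕ) (z : C.A X), C.Deg X.dim e → C.comp e e = e →
    C.act e z = z → (z ∈ N X n ↔ z ∈ N' X n)

/-- For the divisors `G` on the varieties `V` in `Rat` of dimension `2 m`: if `G^m` is in `N V m`
then it is in `N' V m`. -/
def MiddleLe (Rat : 𝒱.Obj → Prop) (N N' : ∀ X : 𝒱.Obj, ℕ → Submodule ℚ (C.A X)) : Prop :=
  ∀ (V : 𝒱.Obj) (m : ℕ) (G : C.A V), Rat V → V.dim = 2 * m → C.Deg 1 G → G ^ m ∈ N V m →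
    G ^ m ∈ N' V m

/-- The vector bundles on `X` with Chern classes in `N` have Chern classes in `N'`. -/
def ChernLe (B : BundleData C) (X : 𝒱.Obj) (N N' : ∀ X : 𝒱.Obj, ℕ → Submodule ℚ (C.A X)) : Prop :=
  ∀ (e : B.K X) (m : ℕ) (c : ℕ → C.A X), B.IsVec e m c →
    (∀ i : ℕ, 1 ≤ i → i ≤ m → c i ∈ N X i) → ∀ i : ℕ, 1 ≤ i → i ≤ m → c i ∈ N' X i

/-- For the projective bundles `P → X` of vector bundles of rank `m`, with tautological class `ξ`:
if `ξ^m` is in `N P m` then it is in `N' P m`. -/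
def TautLe (B : BundleData C) (X : 𝒱.Obj) (N N' : ∀ X : 𝒱.Obj, ℕ → Submodule ℚ (C.A X)) : Prop :=
  ∀ (P : 𝒱.Obj) (f : P ⟶ X) (m : ℕ) (ξ : C.A P), B.IsTaut f m ξ → ξ ^ m ∈ N P m → ξ ^ m ∈ N' P m

end Pool.Agent.Q72.DP
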