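import Pool.Agent.Q72.DP.Comp

/-!
# Every cycle comes from a power of one divisor on a projective bundle
-/

open CategoryTheory AlgebraicGeometry

universe u v w

namespace Pool.Agent.Q72.DP

open Pool.Agent.H914 Pool.Agent.H914.VarClass Pool.Agent.H914.VarClass.Obj Pool.Agent.W492.BB
  Pool.Agent.W550.Corr Pool.Agent.TH133 Pool.Agent.TH829.Prime

set_option linter.unusedSectionVars false

variable {k : Type u} [Field k] {𝒱 : VarClass k} {C : TheoryData.{u, v, 0} 𝒱 ℚ}
  [hC : IsChowProj C] {X Y : 𝒱.Obj}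

include hC

/-- The first consequence of the relation of a projective bundle. -/
lemma IsProjBundle.pow_eq {P : 𝒱.Obj} {f : P ⟶ X} {m : ℕ} {c : ℕ → C.A X} {ξ : C.A P}
    (h : IsProjBundle C f m c ξ) (h0 : c 0 = 1) :
    ξ ^ m = -∑ i ∈ Finset.range m, C.pull f (c (i + 1)) * ξ ^ (m - (i + 1)) := by
  have h1 := h.relation
  rw [Finset.sum_range_succ'] at h1
  rw [h0] at h1
  have h2 : ∑ i ∈ Finset.range m, C.pull f (c (i + 1)) * ξ ^ (m - (i + 1)) +
      C.pull f 1 * ξ ^ (m - 0) = 0 := h1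
  rw [map_one, one_mul, Nat.sub_zero] at h2
  rw [eq_neg_iff_add_eq_zero, add_comm]
  exact h2

/-- The push-forward of the powers of `ξ`. -/
lemma IsProjBundle.push_eq {P : 𝒱.Obj} {f : P ⟶ X} {m : ℕ} {c : ℕ → C.A X} {ξ : C.A P}
    (h : IsProjBundle C f m c ξ) (h0 : c 0 = 1) {e : ℕ} (he : 1 ≤ e) (hem : e ≤ m)
    (hlow : ∀ i, 1 ≤ i → i < e → c i = 0) :
    C.push f (ξ ^ (m + e - 1)) = -c e := by
  have h1 := h.pow_eq h0
  have h2 : ξ ^ (m + e - 1) =
      -∑ i ∈ Finset.range m, C.pull f (c (i + 1)) * ξ ^ (m - (i + 1) + (e - 1)) := by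
    have e1 : m + e - 1 = m + (e - 1) := by omega
    rw [e1, pow_add, h1, neg_mul, Finset.sum_mul]
    congr 1
    refine Finset.sum_congr rfl fun i _ => ?_
    rw [mul_assoc, ← pow_add]
  rw [h2, map_neg, map_sum, Finset.sum_eq_single (e - 1)]
  · rw [C.proj_left]
    have e2 : m - (e - 1 + 1) + (e - 1) = m - 1 := by omega
    have e3 : e - 1 + 1 = e := by omega
    have h4 : C.push f (ξ ^ (m - 1)) = 1 := by
      have := h.push_pow (m - 1) (by have := h.pos; omega)
      rwa [if_pos (by have := h.pos; omega)] at this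
    rw [e2, e3, h4, mul_one]
  · intro i hi hne
    rw [Finset.mem_range] at hi
    by_cases hie : i + 1 < e
    · rw [hlow _ (by omega) hie, map_zero, zero_mul, map_zero]
    · rw [C.proj_left]
      have h4 : C.push f (ξ ^ (m - (i + 1) + (e - 1))) = 0 := by
        have := h.push_pow (m - (i + 1) + (e - 1)) (by omega)
        rwa [if_neg (by omega)] at this
      rw [h4, mul_zero]
  · intro hne
    rw [Finset.mem_range] at hne
    omega

omit hC in
lemma IsVec_zero {B : BundleData C} {e : B.K X} {m : ℕ} {c : ℕ → C.A X} (h : B.IsVec e m c) :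
    c 0 = 1 := by
  obtain ⟨_, _, p, _, _, rfl⟩ := h
  rw [chern]

lemma IsVec_deg {B : BundleData C} {e : B.K X} {m : ℕ} {c : ℕ → C.A X} (h : B.IsVec e m c)
    (n : ℕ) : C.Deg n (c n) := by
  obtain ⟨_, _, p, hp, _, rfl⟩ := h
  have h1 := chern_dvd (z := (1 : C.A X)) (c := 0) (p := p) (v := p) hp.deg
    (fun j _ => gr_congr (by simp) (hp.deg j)) (fun j _ => (one_mul _).symm)
  exact h1.1 n

omit hC in
lemma natCast_mem {B : BundleData C} (hB : B.IsKTheory) (X : 𝒱.Obj) {n : ℕ} (hn : 1 ≤ n) :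
    (n : B.K X) ∈ B.vec X := by
  induction n, hn using Nat.le_induction with
  | base => rw [Nat.cast_one]; exact hB.one_mem X
  | succ n _ ih => rw [Nat.cast_succ]; exact hB.add_mem ih (hB.one_mem X)

omit hC in
lemma pow_mem_vec {B : BundleData C} (hB : B.IsKTheory) {X : 𝒱.Obj} {o : B.K X}
    (ho : o ∈ B.vec X) (n : ℕ) : o ^ n ∈ B.vec X := by
  induction n with
  | zero => rw [pow_zero]; exact hB.one_mem X
  | succ n ih => rw [pow_succ]; exact hB.mul_mem ih ho

lemma isVec_natCast {B : BundleData C} (hB : B.IsKTheory) (X : 𝒱.Obj) {n : ℕ} (hn : 1 ≤ n) :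
    ∃ c : ℕ → C.A X, B.IsVec (n : B.K X) n c :=
  ⟨_, natCast_mem hB X hn, hn, _, by rw [map_natCast]; exact isComp_natCast (C := C) X n,
    by simp, rfl⟩

/-- The main construction: for every class `z` of codimension `c ≥ 1` on `X` there are a
projective bundle `f : P → X` of a vector bundle of (arbitrarily large) rank `m` such that, `G`
being the class of `O(1)`, `G^m` is a multiple of `f^* z` and `f_* (G^(m+c-1))` is a non-zero
multiple of `z`. -/
theorem exists_power {B : BundleData C} (hB : B.IsKTheory) {c : ℕ} (hc : 1 ≤ c) {z : C.A X}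
    (hz : C.Deg c z) (l : ℕ) :
    ∃ (P : 𝒱.Obj) (f : P ⟶ X) (G w : C.A P) (m : ℕ) (q : ℚ), B.IsTaut f m G ∧ C.Deg 1 G ∧
      l ≤ m ∧ P.dim + 1 = X.dim + m ∧ q ≠ 0 ∧ C.Deg ((m : ℤ) - c) w ∧
      G ^ m = C.pull f z * w ∧ C.push f (G ^ (m + c - 1)) = q • z := by
  obtain ⟨N, hN, a, ha⟩ := hB.chow z
  obtain ⟨e, he, e', he', hae⟩ := hB.diff a
  obtain ⟨o, ho, ⟨y, hy, hy0⟩, hS⟩ := hB.ample X
  obtain ⟨r, M, q, hq, hqe⟩ := hS e' he'
  obtain ⟨y', hy', hy0'⟩ := hy.pow hy0 r
  set t : ℕ := l + c with ht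
  have hE : e * o ^ r + q + (t : B.K X) ∈ B.vec X :=
    hB.add_mem (hB.add_mem (hB.mul_mem he (pow_mem_vec hB ho r)) hq)
      (natCast_mem hB X (by omega))
  have hchE : B.ch X (e * o ^ r + q + (t : B.K X)) =
      ((N : ℚ) • z) * (B.ch X o) ^ r + ((M + t : ℕ) : C.A X) := by
    have e1 : e * o ^ r + q + (t : B.K X) = a * o ^ r + ((M + t : ℕ) : B.K X) := by
      have e2 : ((M + t : ℕ) : B.K X) = e' * o ^ r + q + (t : B.K X) := by
        rw [hqe]; exact Nat.cast_add M t
      rw [e2, hae]; ring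
    rw [e1, map_add, map_mul, map_pow, ha, map_natCast]
  have hNz : ((N : ℚ) • z) ∈ C.gr X (c : ℤ) := Submodule.smul_mem _ _ hz
  have hp : IsComp C (B.ch X (e * o ^ r + q + (t : B.K X)))
      (fun j => (if c ≤ j then ((N : ℚ) • z) * y' (j - c) else 0) +
        (if j = 0 then ((M + t : ℕ) : C.A X) else 0)) := by
    rw [hchE]
    exact (hy'.mul_left hNz).add (isComp_natCast X (M + t))
  set p : ℕ → C.A X := fun j => (if c ≤ j then ((N : ℚ) • z) * y' (j - c) else 0) +
        (if j = 0 then ((M + t : ℕ) : C.A X) else 0) with hpdef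
  have hp0 : p 0 = ((M + t : ℕ) : C.A X) := by
    simp only [hpdef, if_true]
    rw [if_neg (by omega), zero_add]
  have hvec : B.IsVec (e * o ^ r + q + (t : B.K X)) (M + t) (chern p) :=
    ⟨hE, by omega, p, hp, hp0, rfl⟩
  obtain ⟨P, f, ξ, hpr, hP⟩ := hB.bundle _ _ _ hvec
  -- the Chern classes
  have hv := chern_dvd (z := z) (c := c) (p := p)
    (v := fun j => if c ≤ j then (N : ℚ) • y' (j - c) else 0) hp.deg (by
      intro j _
      split_ifs with h
      · refine Submodule.smul_mem _ _ (gr_congr ?_ (hy'.deg (j - c)))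
        push_cast [h]; ring
      · exact Submodule.zero_mem _) (by
      intro j hj
      simp only [hpdef]
      rw [if_neg (show ¬ j = 0 by omega), add_zero]
      split_ifs with h
      · rw [smul_mul_assoc, mul_smul_comm]
      · rw [mul_zero])
  obtain ⟨-, hv2⟩ := hv
  choose! u hu1 hu2 using hv2
  have hlow := chern_lowest (c := c) (p := p) (by
    intro j h1 h2
    simp only [hpdef]
    rw [if_neg (by omega), if_neg (by omega), add_zero])
  have hpc : p c = (N : ℚ) • z := by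
    simp only [hpdef]
    rw [if_pos le_rfl, if_neg (by omega), add_zero, Nat.sub_self, hy0', mul_one]
  have h0 : chern p 0 = 1 := by rw [chern]
  refine ⟨P, f, ξ, -∑ i ∈ Finset.range (M + t), C.pull f (u (i + 1)) * ξ ^ (M + t - (i + 1)),
    M + t, -(((-1 : ℚ) ^ (c - 1) * ((c - 1).factorial : ℚ)) * N),
    ⟨_, _, hvec, hpr, hP⟩, hP.deg, by omega, hP.dim_eq, ?_, ?_, ?_, ?_⟩
  · apply neg_ne_zero.2
    refine mul_ne_zero (mul_ne_zero (pow_ne_zero _ (by norm_num)) ?_) ?_
    · exact_mod_cast Nat.factorial_ne_zero _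
    · exact_mod_cast (by omega : N ≠ 0)
  · refine Submodule.neg_mem _ (Submodule.sum_mem _ fun i hi => ?_)
    rw [Finset.mem_range] at hi
    have h1 := C.mul_mem (C.pull_mem f (hu1 (i + 1) (by omega))) (pow_mem1 hP.deg (M + t - (i + 1)))
    refine gr_congr ?_ h1
    omega
  · rw [hP.pow_eq h0, mul_neg, Finset.mul_sum]
    congr 1
    refine Finset.sum_congr rfl fun i _ => ?_
    rw [hu2 (i + 1) (by omega), map_mul, mul_assoc]
  · rw [hP.push_eq h0 hc (by omega) hlow.1, hlow.2 hc, hpc, smul_smul, neg_smul]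

end Pool.Agent.Q72.DP
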