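import Pool.Agent.Q72.DP.Defs

/-!
# Subalgebras of the Chow ring on which the cycle class map is injective: definitions
-/

open CategoryTheory AlgebraicGeometry

universe u v w

namespace Pool.Agent.Q72.DP

open Pool.Agent.H914 Pool.Agent.H914.VarClass Pool.Agent.H914.VarClass.Obj Pool.Agent.W492.BB
  Pool.Agent.TH133 Pool.Agent.TH829.Prime

variable {k : Type u} [Field k] {𝒱 : VarClass k} {C : TheoryData.{u, v, 0} 𝒱 ℚ}

/-- Serre's theorem, with a line bundle: on every `X` there is a line bundle `o` (the dual of a very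
ample one), with Chern character `∑ y_1^j / j!`, such that for every vector bundle `e` some
`e ⊗ o^r` is a subbundle of a trivial bundle, with a quotient bundle `q`. -/
def BundleData.SerreLine (B : BundleData C) : Prop :=
  ∀ X, ∃ o ∈ B.vec X, (∃ y, IsComp C (B.ch X o) y ∧ y 0 = 1 ∧
    ∀ j : ℕ, y j = ((j.factorial : ℚ))⁻¹ • y 1 ^ j) ∧
      ∀ e ∈ B.vec X, ∃ (r N : ℕ), ∃ q ∈ B.vec X, e * o ^ r + q = (N : B.K X)

/-- The subalgebra of the Chow ring generated by all divisors and the classes in `Z`. -/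
def genAlg {X : 𝒱.Obj} (Z : Set (C.A X)) : Subalgebra ℚ (C.A X) :=
  Algebra.adjoin ℚ ({D | C.Deg 1 D} ∪ Z)

variable {K : Type w} [Field K] (H : WeilTheoryData.{u, v, w} C K)

/-- The cycle class map is injective on the subalgebra `R` of the Chow ring of `X`. -/
def ClInjective {X : 𝒱.Obj} (R : Subalgebra ℚ (C.A X)) : Prop := ∀ z ∈ R, H.cl z = 0 → z = 0

/-- The vector bundles on `X` with homologically trivial Chern classes in `R` have zero Chern
classes. -/
def ChernClInjective (B : BundleData C) {X : 𝒱.Obj} (R : Subalgebra ℚ (C.A X)) : Prop :=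
  ∀ (e : B.K X) (m : ℕ) (c : ℕ → C.A X), B.IsVec e m c →
    (∀ i : ℕ, 1 ≤ i → i ≤ m → c i ∈ R ∧ H.cl (c i) = 0) → ∀ i : ℕ, 1 ≤ i → i ≤ m → c i = 0

/-- For the projective bundles `P → X` of vector bundles of rank `m` with Chern classes in `R`, with
tautological class `ξ`: if `ξ^m` is homologically trivial, it is zero. -/
def TautClInjective (B : BundleData C) {X : 𝒱.Obj} (R : Subalgebra ℚ (C.A X)) : Prop :=
  ∀ (e : B.K X) (m : ℕ) (c : ℕ → C.A X) (P : 𝒱.Obj) (f : P ⟶ X) (ξ : C.A P), B.IsVec e m c →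
    B.proj e f ξ → IsProjBundle C f m c ξ → (∀ i : ℕ, c i ∈ R) → H.cl (ξ ^ m) = 0 → ξ ^ m = 0

/-- For the projective bundles `P → X` of vector bundles with Chern classes in `R` and the divisors
`G` on `P`: if a power `G^m` is homologically trivial, it is zero. -/
def PowersClInjective (B : BundleData C) {X : 𝒱.Obj} (R : Subalgebra ℚ (C.A X)) : Prop :=
  ∀ (e : B.K X) (r : ℕ) (c : ℕ → C.A X) (P : 𝒱.Obj) (f : P ⟶ X) (ξ : C.A P), B.IsVec e r c →
    B.proj e f ξ → IsProjBundle C f r c ξ → (∀ i : ℕ, c i ∈ R) → ∀ (G : C.A P) (m : ℕ), C.Deg 1 G →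
      H.cl (G ^ m) = 0 → G ^ m = 0

end Pool.Agent.Q72.DP
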