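import Pool.Agent.Q72.DP.SurfDefs
import Pool.Agent.Q72.DP.AJ

/-!
# Zero-cycles on surfaces and squares of divisors on `ℙ¹`-bundles
-/

open CategoryTheory AlgebraicGeometry

universe u v w

namespace Pool.Agent.Q72.DP

open Pool.Agent.H914 Pool.Agent.H914.VarClass Pool.Agent.H914.VarClass.Obj Pool.Agent.W492.BB
  Pool.Agent.W550.Corr Pool.Agent.TH133 Pool.Agent.TH829.Prime Pool.Agent.Y148.BB

set_option linter.unusedSectionVars false

variable {k : Type u} [Field k] {𝒱 : VarClass k} {C : TheoryData.{u, v, 0} 𝒱 ℚ}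
  [hC : IsChowProj C] {Bun : BundleClass C} {S : 𝒱.Obj}

include hC

/-- The relation of a `ℙ¹`-bundle with `c₁ = 0`. -/
lemma IsRankTwo.sq (hB : RankTwoBundles Bun) {P : 𝒱.Obj} {f : P ⟶ S} {c₂ : C.A S} {ξ : C.A P}
    (h : IsRankTwo Bun f 0 c₂ ξ) : ξ ^ 2 = -C.pull f c₂ := by
  have h1 := (hB.isProjBundle h).pow_eq (by simp [chernTwo])
  rw [h1]
  congr 1
  rw [Finset.sum_range_succ, Finset.sum_range_succ, Finset.sum_range_zero]
  simp [chernTwo]

/-- The comparison of two adequate relations on zero-cycles of a surface. -/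
theorem surf_tfae (hB : RankTwoBundles Bun) {I : Family C} (hI : IsAdequate C I) (hS : S.dim = 2)
    (h0 : (1 : C.A S) ∉ I S 0) (h1 : I S 1 = ⊥) :
    [I S 2 = ⊥, RankTwoTrivial Bun S (I S 2), SquaresTrivial Bun S (fun P => I P 2)].TFAE := by
  have hle : I S 2 = ⊥ → ∀ i, I S i ≤ (⊥ : Submodule ℚ (C.A S)) := by
    intro h2 i z hz
    have hzd := hI.le_gr _ _ hz
    rcases lt_trichotomy i 0 with hi | hi | hi
    · rw [neg_zero hzd hi]
      exact Submodule.zero_mem _
    · subst hi
      obtain ⟨q, hq⟩ := hC.gr_zero S z hzd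
      by_cases hq0 : q = 0
      · rw [hq, hq0, zero_smul]
        exact Submodule.zero_mem _
      · exfalso
        apply h0
        have h2 := Submodule.smul_mem _ q⁻¹ hz
        rwa [hq, smul_smul, inv_mul_cancel₀ hq0, one_smul] at h2
    · rcases eq_or_ne i 1 with h | h
      · subst h
        rwa [h1] at hz
      · rcases eq_or_ne i 2 with h' | h'
        · subst h'
          rwa [h2] at hz
        · rw [top_zero hzd (by omega)]
          exact Submodule.zero_mem _
  tfae_have 1 → 3 := by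
    rintro h P ⟨f, c₁, c₂, ξ, hf⟩ G hG hm
    have h2 := bundle_le (R := fun _ _ => ⊥) hI (isAdequate_bot (C := C)) (hB.isProjBundle hf) (hle h) 2 hm
    exact (Submodule.mem_bot ℚ).1 h2
  tfae_have 3 → 2 := by
    intro h P f c₂ ξ hf hc
    have h2 := hf.sq hB
    have h3 := h P ⟨f, 0, c₂, ξ, hf⟩ ξ (hB.isProjBundle hf).deg (by
      rw [h2]
      exact Submodule.neg_mem _ (hI.pull_mem f hc))
    rw [h2, neg_eq_zero] at h3
    have h4 : C.push f (C.pull f c₂ * ξ) = c₂ := by
      rw [C.proj_left]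
      have h5 := (hB.isProjBundle hf).push_pow 1 (by norm_num)
      rw [if_pos (by norm_num), pow_one] at h5
      have h6 : C.push f ξ = 1 := h5
      rw [h6, mul_one]
    rw [← h4, h3, zero_mul, map_zero]
  tfae_have 2 → 1 := by
    intro h
    rw [eq_bot_iff]
    intro z hz
    obtain ⟨N, hN, P, f, ξ, hf⟩ := hB.exists_bundle S z hS (hI.le_gr _ _ hz)
    have h2 := h P f _ ξ hf (Submodule.smul_mem _ _ hz)
    rw [smul_eq_zero] at h2
    rcases h2 with h2 | h2
    · exfalso
      have : N ≠ 0 := by omega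
      exact this (by exact_mod_cast h2)
    · rw [h2]
      exact Submodule.zero_mem _
  tfae_finish

variable {K : Type w} [Field K] {H : WeilTheoryData.{u, v, w} C K} [hH : IsWeilProj H]

include hH

/-- Bloch's conjecture for a surface and the squares of divisors on `ℙ¹`-bundles. -/
theorem bloch_tfae (hB : RankTwoBundles Bun) {N : ∀ X : 𝒱.Obj, ℕ → Submodule ℚ (C.A X)}
    (hN : IsAbelJacobiKernel H N) (hS : S.dim = 2) :
    [N S 2 = ⊥, RankTwoTrivial Bun S (N S 2), SquaresTrivial Bun S (fun P => N P 2)].TFAE := by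
  have h := surf_tfae hB (isAdequate_aj hN) hS (by
    intro h
    have h1 := famOf_nat N S 0
    rw [Nat.cast_zero] at h1
    rw [h1] at h
    have h2 := (hN.deg S 0 _ h).2
    rw [map_one] at h2
    exact hH.one_ne_zero S h2) (by
    have h1 := famOf_nat N S 1
    rw [Nat.cast_one] at h1
    rw [h1, eq_bot_iff]
    intro z hz
    rw [hN.abel S z hz]
    exact Submodule.zero_mem _)
  have e : ∀ X : 𝒱.Obj, famOf N X 2 = N X 2 := fun X => famOf_nat N X 2
  simp only [e] at h
  exact h

end Pool.Agent.Q72.DP
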