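import Pool.Agent.Q72.DP.Defs
import Pool.Agent.Y148.BB.Defs

/-!
# Rank two bundles on surfaces: definitions
-/

open CategoryTheory AlgebraicGeometry

universe u v w

namespace Pool.Agent.Q72.DP

open Pool.Agent.H914 Pool.Agent.H914.VarClass Pool.Agent.H914.VarClass.Obj Pool.Agent.W492.BB
  Pool.Agent.TH133 Pool.Agent.TH829.Prime

variable {k : Type u} [Field k] {𝒱 : VarClass k}

/-- A class of projective bundles: `Bun f m c ξ` means that the morphism `f : P → X` is the
projective bundle of a vector bundle of rank `m` on `X` with Chern classes `c 0 = 1, c 1, c 2, …`, and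
`ξ` is the class of its tautological line bundle `O(1)`. -/
abbrev BundleClass (C : TheoryData.{u, v, 0} 𝒱 ℚ) : Type (max (u + 1) v) :=
  ∀ ⦃X P : 𝒱.Obj⦄, (P ⟶ X) → ℕ → (ℕ → C.A X) → C.A P → Prop

variable {C : TheoryData.{u, v, 0} 𝒱 ℚ}

/-- The sequence of Chern classes `1, c₁, c₂, 0, 0, …` of a vector bundle of rank two. -/
def chernTwo {S : 𝒱.Obj} (c₁ c₂ : C.A S) : ℕ → C.A S :=
  fun i => if i = 0 then 1 else if i = 1 then c₁ else if i = 2 then c₂ else 0

/-- The morphism `f : P → S` is the projective bundle of a vector bundle of rank two with Chern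
classes `c₁`, `c₂` (so it is a `ℙ¹`-bundle), with tautological class `ξ`. -/
def IsRankTwo (Bun : BundleClass C) {S P : 𝒱.Obj} (f : P ⟶ S) (c₁ c₂ : C.A S) (ξ : C.A P) : Prop :=
  Bun f 2 (chernTwo c₁ c₂) ξ

/-- The known properties of the projective bundles of vector bundles which are used:
* the projective bundle formula (`IsProjBundle`);
* the theorem of Schwarzenberger (Serre's construction) for rank two bundles with `c₁ = 0` on
  surfaces: for every class `z ∈ CH²(S)` with rational coefficients there are an integer `N ≥ 1` and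
  a vector bundle of rank two on `S` with `c₁ = 0` and `c₂ = N z`; its projective bundle is a variety
  of the class `𝒱`. -/
structure RankTwoBundles (Bun : BundleClass C) : Prop where
  isProjBundle : ∀ {X P : 𝒱.Obj} {f : P ⟶ X} {m : ℕ} {c : ℕ → C.A X} {ξ : C.A P},
    Bun f m c ξ → IsProjBundle C f m c ξ
  exists_bundle : ∀ (S : 𝒱.Obj) (z : C.A S), S.dim = 2 → C.Deg 2 z → ∃ N : ℕ, 0 < N ∧
    ∃ (P : 𝒱.Obj) (f : P ⟶ S) (ξ : C.A P), IsRankTwo Bun f 0 ((N : ℚ) • z) ξ

/-- `P` is the projective bundle of a rank two vector bundle on `S`. -/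
def RuledOver (Bun : BundleClass C) (P S : 𝒱.Obj) : Prop :=
  ∃ (f : P ⟶ S) (c₁ c₂ : C.A S) (ξ : C.A P), IsRankTwo Bun f c₁ c₂ ξ

/-- The rank two vector bundles on `S` with `c₁ = 0` and `c₂ ∈ T` have `c₂ = 0`. -/
def RankTwoTrivial (Bun : BundleClass C) (S : 𝒱.Obj) (T : Submodule ℚ (C.A S)) : Prop :=
  ∀ (P : 𝒱.Obj) (f : P ⟶ S) (c₂ : C.A S) (ξ : C.A P), IsRankTwo Bun f 0 c₂ ξ → c₂ ∈ T → c₂ = 0

/-- The squares `G²` of the divisors `G` on the threefolds `P` which are projective bundles of rank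
two bundles on `S` are zero as soon as they belong to `T P`. -/
def SquaresTrivial (Bun : BundleClass C) (S : 𝒱.Obj) (T : ∀ P : 𝒱.Obj, Submodule ℚ (C.A P)) :
    Prop :=
  ∀ P : 𝒱.Obj, RuledOver Bun P S → ∀ G : C.A P, C.Deg 1 G → G ^ 2 ∈ T P → G ^ 2 = 0

end Pool.Agent.Q72.DP
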